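import Mathlib

/-!
# A discrete form of Bernstein's inequality
-/

set_option autoImplicit false

namespace Pool.Agent.K4H89.BV

open Finset Complex

lemma hs_congr {E : Type*} [AddCommMonoid E] [TopologicalSpace E] {f g : ℕ → E} {a : E} (h : HasSum f a)
    (e : ∀ n, g n = f n) : HasSum g a := by
  have : g = f := funext e
  rw [this]
  exact h

lemma b2_eval (x : ℝ) :
    (Polynomial.map (algebraMap ℚ ℝ) (Polynomial.bernoulli 2)).eval x = x ^ 2 - x + 1 / 6 := by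
  have h2 : bernoulli 2 = 1 / 6 := by
    rw [bernoulli_eq_bernoulli'_of_ne_one (by norm_num), bernoulli'_two]
  simp [Polynomial.bernoulli, Finset.sum_range_succ, h2]
  ring

/-- A Fourier series of the function `y` on `[-1/4, 1/4]`. -/
lemma wave (y : ℝ) (hy : |y| ≤ 1 / 4) :
    HasSum (fun n : ℕ => 1 / Real.pi ^ 2 * (1 / (n : ℝ) ^ 2) *
      (Real.cos (2 * Real.pi * n * (y + 3 / 4)) - Real.cos (2 * Real.pi * n * (y + 1 / 4)))) y := by
  rw [abs_le] at hy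
  have hpi := Real.pi_pos
  have h1 := hasSum_one_div_nat_pow_mul_cos (k := 1) one_ne_zero (x := y + 3 / 4) ⟨by linarith [hy.1], by linarith [hy.2]⟩
  have h2 := hasSum_one_div_nat_pow_mul_cos (k := 1) one_ne_zero (x := y + 1 / 4) ⟨by linarith [hy.1], by linarith [hy.2]⟩
  have h3 := (h1.sub h2).mul_left (1 / Real.pi ^ 2)
  rw [mul_one, b2_eval, b2_eval] at h3
  have e : 1 / Real.pi ^ 2 * ((-1 : ℝ) ^ (1 + 1) * (2 * Real.pi) ^ 2 / 2 / ((2 : ℕ).factorial : ℝ) *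
      ((y + 3 / 4) ^ 2 - (y + 3 / 4) + 1 / 6) - (-1 : ℝ) ^ (1 + 1) * (2 * Real.pi) ^ 2 / 2 / ((2 : ℕ).factorial : ℝ) *
      ((y + 1 / 4) ^ 2 - (y + 1 / 4) + 1 / 6)) = y := by
    have : ((2 : ℕ).factorial : ℝ) = 2 := by norm_num [Nat.factorial]
    rw [this]
    field_simp
    ring
  rw [e] at h3
  exact hs_congr h3 fun n => by ring

/-- `exp (2 π i t)` -/
noncomputable def ee (t : ℝ) : ℂ := Complex.exp ((2 * Real.pi * t : ℝ) * I)

lemma ee_add (s t : ℝ) : ee (s + t) = ee s * ee t := by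
  unfold ee
  rw [← Complex.exp_add]
  congr 1
  push_cast
  ring

lemma ee_norm (t : ℝ) : ‖ee t‖ = 1 := Complex.norm_exp_ofReal_mul_I _

lemma cos_eq_ee (t : ℝ) : ((Real.cos (2 * Real.pi * t) : ℝ) : ℂ) = (ee t + ee (-t)) / 2 := by
  unfold ee
  rw [Complex.ofReal_cos, Complex.cos]
  congr 2
  congr 1
  push_cast
  ring

lemma d_step {ι : Type*} (P : Finset ι) (c : ι → ℂ) (θ : ι → ℝ) (b : ℕ) (hb : 1 ≤ b)
    (hθ : ∀ i ∈ P, |θ i| ≤ 1 / (4 * b)) (M : ℝ) (hM : ∀ j : ℤ, ‖∑ i ∈ P, c i * ee (j * θ i)‖ ≤ M) (j : ℤ) :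
    ‖∑ i ∈ P, (c i * θ i) * ee (j * θ i)‖ ≤ M / (3 * b) := by
  have hbR : (0 : ℝ) < b := by exact_mod_cast (by omega : 0 < b)
  have hpi := Real.pi_pos
  obtain ⟨w, hw⟩ : ∃ w : ℕ → ℝ, w = fun (n : ℕ) => 1 / Real.pi ^ 2 * (1 / (n : ℝ) ^ 2) := ⟨_, rfl⟩
  have hw0 : ∀ n, 0 ≤ w n := by intro n; rw [hw]; positivity
  obtain ⟨T, hT⟩ : ∃ T : ℕ → ℝ → ℂ, ∀ (n : ℕ) (a : ℝ), T n a = ∑ i ∈ P, c i * ee (j * θ i) *
    ((Real.cos (2 * Real.pi * (n * (b * θ i + a))) : ℝ) : ℂ) := ⟨fun n a => _, fun n a => rfl⟩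
  have hTb : ∀ n a, ‖T n a‖ ≤ M := by
    intro n a
    have h1 : T n a = (ee (n * a) / 2) * ∑ i ∈ P, c i * ee (((j + n * b : ℤ) : ℝ) * θ i) +
        (ee (-(n * a)) / 2) * ∑ i ∈ P, c i * ee (((j - n * b : ℤ) : ℝ) * θ i) := by
      rw [hT, mul_sum, mul_sum, ← sum_add_distrib]
      refine sum_congr rfl fun i _ => ?_
      rw [cos_eq_ee]
      have e1 : ee (((j + n * b : ℤ) : ℝ) * θ i) = ee (j * θ i) * ee (n * (b * θ i)) := by
        rw [← ee_add]; congr 1; push_cast; ring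
      have e2 : ee (((j - n * b : ℤ) : ℝ) * θ i) = ee (j * θ i) * ee (-(n * (b * θ i))) := by
        rw [← ee_add]; congr 1; push_cast; ring
      have e3 : ee (n * (b * θ i + a)) = ee (n * (b * θ i)) * ee (n * a) := by
        rw [← ee_add]; congr 1; ring
      have e4 : ee (-(n * (b * θ i + a))) = ee (-(n * (b * θ i))) * ee (-(n * a)) := by
        rw [← ee_add]; congr 1; ring
      rw [e1, e2, e3, e4]
      ring
    rw [h1]
    refine (norm_add_le _ _).trans ?_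
    rw [norm_mul, norm_mul, norm_div, norm_div, ee_norm, ee_norm]
    have h2 := hM (j + n * b)
    have h3 := hM (j - n * b)
    have h4 : ‖(2 : ℂ)‖ = 2 := by norm_num
    rw [h4]
    linarith
  have hsum : HasSum (fun n : ℕ => ((w n / b : ℝ) : ℂ) * (T n (3 / 4) - T n (1 / 4)))
      (∑ i ∈ P, (c i * θ i) * ee (j * θ i)) := by
    have h1 : ∀ i ∈ P, HasSum (fun n : ℕ => (c i * ee (j * θ i) / b) * (((1 / Real.pi ^ 2 * (1 / (n : ℝ) ^ 2) *
        (Real.cos (2 * Real.pi * n * (b * θ i + 3 / 4)) - Real.cos (2 * Real.pi * n * (b * θ i + 1 / 4)) : ℝ) : ℝ) : ℂ)))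
        ((c i * θ i) * ee (j * θ i)) := by
      intro i hi
      have h2 : |(b : ℝ) * θ i| ≤ 1 / 4 := by
        rw [abs_mul, abs_of_pos hbR]
        calc (b : ℝ) * |θ i| ≤ b * (1 / (4 * b)) := by gcongr; exact hθ i hi
          _ = 1 / 4 := by field_simp
      have h3 := wave _ h2
      have h4 : HasSum (fun n : ℕ => (((1 / Real.pi ^ 2 * (1 / (n : ℝ) ^ 2) *
        (Real.cos (2 * Real.pi * n * (b * θ i + 3 / 4)) - Real.cos (2 * Real.pi * n * (b * θ i + 1 / 4)) : ℝ) : ℝ) : ℂ)))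
        (((b : ℝ) * θ i : ℝ) : ℂ) := by
        exact_mod_cast h3
      have h5 := h4.mul_left (c i * ee (j * θ i) / b)
      have e : c i * ee (j * θ i) / b * (((b : ℝ) * θ i : ℝ) : ℂ) = (c i * θ i) * ee (j * θ i) := by
        push_cast
        have : (b : ℂ) ≠ 0 := by exact_mod_cast hbR.ne'
        field_simp
      rw [e] at h5
      exact h5
    have h2 := hasSum_sum h1
    convert h2 using 2 with n
    rw [hT, hT, hw]
    dsimp only
    rw [← sum_sub_distrib, mul_sum]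
    refine sum_congr rfl fun i _ => ?_
    push_cast
    have e1 : (2 : ℂ) * Real.pi * (n * (b * θ i + 3 / 4)) = 2 * Real.pi * n * (b * θ i + 3 / 4) := by ring
    have e2 : (2 : ℂ) * Real.pi * (n * (b * θ i + 1 / 4)) = 2 * Real.pi * n * (b * θ i + 1 / 4) := by ring
    rw [e1, e2]
    ring
  have hz : HasSum (fun n : ℕ => w n / b * (2 * M)) (M / (3 * b)) := by
    have h1 := ((hasSum_zeta_two.mul_left (1 / Real.pi ^ 2)).div_const (b : ℝ)).mul_right (2 * M)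
    have e : M / (3 * b) = 1 / Real.pi ^ 2 * (Real.pi ^ 2 / 6) / b * (2 * M) := by
      field_simp
      ring
    rw [hw, e]
    exact h1
  refine HasSum.norm_le_of_bounded hsum hz fun n => ?_
  have hwb : 0 ≤ w n / b := div_nonneg (hw0 n) hbR.le
  rw [norm_mul, Complex.norm_real, Real.norm_of_nonneg hwb]
  apply mul_le_mul_of_nonneg_left _ hwb
  refine (norm_sub_le _ _).trans ?_
  have := hTb n (3 / 4)
  have := hTb n (1 / 4)
  linarith

/-- **Bernstein's inequality.** -/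
theorem bern {ι : Type*} (P : Finset ι) (c : ι → ℂ) (θ : ι → ℝ) (b : ℕ) (hb : 1 ≤ b)
    (hθ : ∀ i ∈ P, |θ i| ≤ 1 / (4 * b)) (M : ℝ) (hM : ∀ j : ℤ, ‖∑ i ∈ P, c i * ee (j * θ i)‖ ≤ M) :
    ‖∑ i ∈ P, c i * (ee (θ i) - 1)‖ ≤ M * (Real.exp (2 * Real.pi / (3 * b)) - 1) := by
  have hbR : (0 : ℝ) < b := by exact_mod_cast (by omega : 0 < b)
  have hpi := Real.pi_pos
  have key : ∀ (r : ℕ) (j : ℤ), ‖∑ i ∈ P, (c i * (θ i : ℂ) ^ r) * ee (j * θ i)‖ ≤ M / (3 * b) ^ r := by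
    intro r
    induction r with
    | zero => intro j; simpa using hM j
    | succ r ih =>
      intro j
      have h1 := d_step P (fun i => c i * (θ i : ℂ) ^ r) θ b hb hθ _ ih j
      have e : M / (3 * b) ^ r / (3 * b) = M / (3 * b) ^ (r + 1) := by
        rw [div_div, pow_succ]
      rw [e] at h1
      refine le_trans (le_of_eq ?_) h1
      congr 1
      refine sum_congr rfl fun i _ => ?_
      ring
  have h1 : ∀ i ∈ P, HasSum (fun n : ℕ => c i * ((2 * Real.pi * θ i : ℝ) * I) ^ n / (n.factorial : ℂ)) (c i * ee (θ i)) := by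
    intro i _
    have h2 := NormedSpace.expSeries_div_hasSum_exp (𝔸 := ℂ) (((2 * Real.pi * θ i : ℝ) : ℂ) * I)
    have h3 := h2.mul_left (c i)
    unfold ee
    rw [Complex.exp_eq_exp_ℂ]
    exact hs_congr h3 fun n => by ring
  have h2 := hasSum_sum h1
  have h3 := (hasSum_nat_add_iff' 1).mpr h2
  rw [sum_range_one] at h3
  have e : ∑ i ∈ P, c i * ee (θ i) - ∑ i ∈ P, c i * ((2 * Real.pi * θ i : ℝ) * I) ^ 0 / ((0 : ℕ).factorial : ℂ) =
      ∑ i ∈ P, c i * (ee (θ i) - 1) := by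
    rw [← sum_sub_distrib]
    refine sum_congr rfl fun i _ => ?_
    simp
    ring
  rw [e] at h3
  have h4 : HasSum (fun n : ℕ => M * ((2 * Real.pi / (3 * b)) ^ (n + 1) / ((n + 1).factorial : ℝ)))
      (M * (Real.exp (2 * Real.pi / (3 * b)) - 1)) := by
    apply HasSum.mul_left
    have h5 := NormedSpace.expSeries_div_hasSum_exp (𝔸 := ℝ) (2 * Real.pi / (3 * b))
    rw [← Real.exp_eq_exp_ℝ] at h5
    have h6 := (hasSum_nat_add_iff' 1).mpr h5
    rw [sum_range_one] at h6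
    simpa using h6
  refine HasSum.norm_le_of_bounded h3 h4 fun n => ?_
  have h5 := key (n + 1) 0
  have e2 : ∑ i ∈ P, c i * ((2 * Real.pi * θ i : ℝ) * I) ^ (n + 1) / ((n + 1).factorial : ℂ) =
      ((2 * Real.pi : ℝ) * I) ^ (n + 1) / ((n + 1).factorial : ℂ) *
        ∑ i ∈ P, (c i * (θ i : ℂ) ^ (n + 1)) * ee (((0 : ℤ) : ℝ) * θ i) := by
    rw [mul_sum]
    refine sum_congr rfl fun i _ => ?_
    have : ee (((0 : ℤ) : ℝ) * θ i) = 1 := by unfold ee; simp
    rw [this]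
    push_cast
    ring
  rw [e2, norm_mul, norm_div, norm_pow, norm_mul, Complex.norm_I, mul_one, Complex.norm_real,
    Real.norm_of_nonneg (by positivity), Complex.norm_natCast]
  calc (2 * Real.pi) ^ (n + 1) / ((n + 1).factorial : ℝ) *
        ‖∑ i ∈ P, (c i * (θ i : ℂ) ^ (n + 1)) * ee (((0 : ℤ) : ℝ) * θ i)‖
      ≤ (2 * Real.pi) ^ (n + 1) / ((n + 1).factorial : ℝ) * (M / (3 * b) ^ (n + 1)) := by gcongr
    _ = M * ((2 * Real.pi / (3 * b)) ^ (n + 1) / ((n + 1).factorial : ℝ)) := by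
        rw [div_pow]
        field_simp

end Pool.Agent.K4H89.BV
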