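import Pool.Agent.K4H89.BV.Fou

/-!
# Bohr sets in finite abelian groups
-/

set_option autoImplicit false
set_option linter.unusedSectionVars false

namespace Pool.Agent.K4H89.BV

open Finset Complex

/-- The absolute value of the argument divided by `2π`. -/
noncomputable def aa (z : ℂ) : ℝ := |Complex.arg z| / (2 * Real.pi)

lemma two_pi_pos' : (0 : ℝ) < 2 * Real.pi := by have := Real.pi_pos; positivity

lemma aa_nonneg (z : ℂ) : 0 ≤ aa z := by
  unfold aa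
  have := two_pi_pos'
  positivity

lemma aa_one : aa 1 = 0 := by unfold aa; simp

lemma abs_arg_exp (t : ℝ) : |Complex.arg (Complex.exp (t * I))| ≤ |t| := by
  rcases le_or_gt Real.pi |t| with h | h
  · exact (Complex.abs_arg_le_pi _).trans h
  · rw [abs_lt] at h
    rw [Complex.exp_mul_I, Complex.arg_cos_add_sin_mul_I ⟨h.1, h.2.le⟩]

lemma exp_arg (z : ℂ) (hz : ‖z‖ = 1) : Complex.exp ((Complex.arg z : ℝ) * I) = z := by
  have h := Complex.norm_mul_exp_arg_mul_I z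
  rw [hz, Complex.ofReal_one, one_mul] at h
  exact h

lemma arg_mul_le (z w : ℂ) (hz : ‖z‖ = 1) (hw : ‖w‖ = 1) : |Complex.arg (z * w)| ≤ |Complex.arg z + Complex.arg w| := by
  have h1 : z * w = Complex.exp (((Complex.arg z + Complex.arg w : ℝ)) * I) := by
    rw [Complex.ofReal_add, add_mul, Complex.exp_add, exp_arg z hz, exp_arg w hw]
  rw [h1]
  exact (abs_arg_exp _)

lemma arg_mul_conj_le (z w : ℂ) (hz : ‖z‖ = 1) (hw : ‖w‖ = 1) :
    |Complex.arg (z * (starRingEnd ℂ) w)| ≤ |Complex.arg z - Complex.arg w| := by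
  have h1 : z * (starRingEnd ℂ) w = Complex.exp (((Complex.arg z - Complex.arg w : ℝ)) * I) := by
    have h2 : (starRingEnd ℂ) w = Complex.exp (((-Complex.arg w : ℝ)) * I) := by
      conv_lhs => rw [← exp_arg w hw]
      rw [← Complex.exp_conj, map_mul, Complex.conj_I, Complex.conj_ofReal]
      congr 1
      push_cast
      ring
    rw [h2, sub_eq_add_neg, Complex.ofReal_add, add_mul, Complex.exp_add, exp_arg z hz]
  rw [h1]
  exact (abs_arg_exp _)

lemma aa_mul (z w : ℂ) (hz : ‖z‖ = 1) (hw : ‖w‖ = 1) : aa (z * w) ≤ aa z + aa w := by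
  unfold aa
  rw [← add_div]
  have := two_pi_pos'
  gcongr
  exact (arg_mul_le z w hz hw).trans (abs_add_le _ _)

lemma aa_conj (z : ℂ) (hz : ‖z‖ = 1) : aa ((starRingEnd ℂ) z) ≤ aa z := by
  unfold aa
  have h := arg_mul_conj_le 1 z norm_one hz
  rw [one_mul, Complex.arg_one, zero_sub, abs_neg] at h
  exact div_le_div_of_nonneg_right h two_pi_pos'.le

lemma norm_sub_one_le (z : ℂ) (hz : ‖z‖ = 1) : ‖z - 1‖ ≤ 2 * Real.pi * aa z := by
  have h1 : z = Complex.exp (I * ((Complex.arg z : ℝ) : ℂ)) := by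
    rw [mul_comm, exp_arg z hz]
  have h2 : 2 * Real.pi * aa z = ‖(Complex.arg z : ℝ)‖ := by
    unfold aa
    rw [Real.norm_eq_abs]
    have := two_pi_pos'
    field_simp
  rw [h2]
  conv_lhs => rw [h1]
  exact Real.norm_exp_I_mul_ofReal_sub_one_le

lemma re_ge_of_aa (z : ℂ) (hz : ‖z‖ = 1) (h : aa z ≤ 1 / 8) : 1 / 2 ≤ z.re := by
  apply re_ge_half z hz
  refine (norm_sub_one_le z hz).trans ?_
  have h1 := Real.pi_lt_d2
  have h2 := Real.pi_pos
  have h3 := aa_nonneg z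
  calc 2 * Real.pi * aa z ≤ 2 * Real.pi * (1 / 8) := mul_le_mul_of_nonneg_left h (by positivity)
    _ ≤ 1 := by linarith

lemma aa_pow (z : ℂ) (hz : ‖z‖ = 1) (n : ℕ) (h : n * aa z < 1 / 2) : aa (z ^ n) = n * aa z := by
  have h2 : |Complex.arg z| = 2 * Real.pi * aa z := by
    unfold aa
    have := two_pi_pos'
    field_simp
  have h3 : z ^ n = Complex.exp (((n * Complex.arg z : ℝ)) * I) := by
    conv_lhs => rw [← exp_arg z hz]
    rw [← Complex.exp_nat_mul]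
    congr 1
    push_cast
    ring
  have h4 : |(n : ℝ) * Complex.arg z| < Real.pi := by
    rw [abs_mul, abs_of_nonneg (Nat.cast_nonneg n), h2]
    have := Real.pi_pos
    nlinarith
  have h5 : Complex.arg (z ^ n) = n * Complex.arg z := by
    rw [abs_lt] at h4
    rw [h3, Complex.exp_mul_I, Complex.arg_cos_add_sin_mul_I ⟨h4.1, h4.2.le⟩]
  unfold aa
  rw [h5, abs_mul, abs_of_nonneg (Nat.cast_nonneg n)]
  ring

/-- Going from a small radius to a large one. -/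
lemma boost (z : ℂ) (hz : ‖z‖ = 1) (D : ℕ) (hD : 1 ≤ D) (h : ∀ i < 4, aa (z ^ (D ^ i)) ≤ 1 / (4 * D)) :
    aa z ≤ 1 / (4 * (D : ℝ) ^ 4) := by
  have hD0 : (0 : ℝ) < D := by exact_mod_cast hD
  have key : ∀ j < 4, (D : ℝ) ^ j * aa z ≤ 1 / (4 * D) := by
    intro j
    induction j with
    | zero =>
      intro hj
      have h1 := h 0 hj
      rw [pow_zero, pow_one] at h1
      rw [pow_zero, one_mul]
      exact h1
    | succ j ih =>
      intro hj
      have h1 := ih (by omega)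
      have h2 : ((D ^ (j + 1) : ℕ) : ℝ) * aa z < 1 / 2 := by
        have : ((D ^ (j + 1) : ℕ) : ℝ) * aa z = D * ((D : ℝ) ^ j * aa z) := by push_cast; ring
        rw [this]
        calc (D : ℝ) * ((D : ℝ) ^ j * aa z) ≤ D * (1 / (4 * D)) := by gcongr
          _ = 1 / 4 := by field_simp
          _ < 1 / 2 := by norm_num
      have h3 := h (j + 1) hj
      rw [aa_pow z hz _ h2] at h3
      push_cast at h3
      exact h3
  have h1 := key 3 (by norm_num)
  rw [le_div_iff₀ (by positivity)]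
  have h3 : aa z * (4 * (D : ℝ) ^ 4) = 4 * D * ((D : ℝ) ^ 3 * aa z) := by ring
  rw [h3]
  calc 4 * (D : ℝ) * ((D : ℝ) ^ 3 * aa z) ≤ 4 * D * (1 / (4 * D)) := by gcongr
    _ = 1 := by field_simp

variable {G : Type} [AddCommGroup G] [Fintype G] [DecidableEq G]

/-- The Bohr set. -/
noncomputable def TT (Λ : Finset (AddChar G ℂ)) (r : ℝ) : Finset G := by
  classical exact univ.filter fun x => ∀ χ ∈ Λ, aa (χ x) ≤ r

lemma mem_TT {Λ : Finset (AddChar G ℂ)} {r : ℝ} {x : G} : x ∈ TT Λ r ↔ ∀ χ ∈ Λ, aa (χ x) ≤ r := by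
  unfold TT
  rw [mem_filter]
  simp

lemma zero_mem_TT (Λ : Finset (AddChar G ℂ)) {r : ℝ} (hr : 0 ≤ r) : (0 : G) ∈ TT Λ r := by
  rw [mem_TT]
  intro χ _
  rw [ch_zero, aa_one]
  exact hr

lemma neg_mem_TT {Λ : Finset (AddChar G ℂ)} {r : ℝ} {x : G} (h : x ∈ TT Λ r) : -x ∈ TT Λ r := by
  rw [mem_TT] at h ⊢
  intro χ hχ
  rw [ch_neg]
  exact (aa_conj _ (nc χ x)).trans (h χ hχ)

lemma add_mem_TT {Λ : Finset (AddChar G ℂ)} {r s : ℝ} {x y : G} (hx : x ∈ TT Λ r) (hy : y ∈ TT Λ s) :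
    x + y ∈ TT Λ (r + s) := by
  rw [mem_TT] at hx hy ⊢
  intro χ hχ
  rw [ch_add]
  exact (aa_mul _ _ (nc χ x) (nc χ y)).trans (add_le_add (hx χ hχ) (hy χ hχ))

lemma TT_mono (Λ : Finset (AddChar G ℂ)) {r s : ℝ} (h : r ≤ s) : TT Λ r ⊆ TT Λ s := by
  intro x hx
  rw [mem_TT] at hx ⊢
  exact fun χ hχ => (hx χ hχ).trans h

lemma TT_card_pos (Λ : Finset (AddChar G ℂ)) {r : ℝ} (hr : 0 ≤ r) : 0 < (TT Λ r).card :=
  card_pos.mpr ⟨0, zero_mem_TT Λ hr⟩

/-- Bohr sets have bounded growth. -/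
lemma growth (Λ : Finset (AddChar G ℂ)) (r : ℝ) (hr : 0 < r) :
    (TT Λ (2 * r)).card ≤ 5 ^ Λ.card * (TT Λ r).card := by
  classical
  have hpi := two_pi_pos'
  obtain ⟨f, hf⟩ : ∃ f : G → (Λ → ℤ), f = fun (x : G) (χ : Λ) => ⌊Complex.arg ((χ : AddChar G ℂ) x) / (2 * Real.pi) / r⌋ := ⟨_, rfl⟩
  have himg : (TT Λ (2 * r)).image f ⊆ Fintype.piFinset fun _ : Λ => Icc (-2 : ℤ) 2 := by
    intro g hg
    rw [mem_image] at hg
    obtain ⟨x, hx, rfl⟩ := hg
    rw [Fintype.mem_piFinset]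
    intro χ
    rw [mem_TT] at hx
    have h1 := hx χ χ.2
    unfold aa at h1
    rw [div_le_iff₀ hpi, abs_le] at h1
    rw [hf, mem_Icc]
    constructor
    · rw [Int.le_floor]
      push_cast
      rw [le_div_iff₀ hr, le_div_iff₀ hpi]
      linarith [h1.1]
    · have h2 : (⌊Complex.arg ((χ : AddChar G ℂ) x) / (2 * Real.pi) / r⌋ : ℝ) ≤ 2 := by
        refine (Int.floor_le _).trans ?_
        rw [div_le_iff₀ hr, div_le_iff₀ hpi]
        linarith [h1.2]
      exact_mod_cast h2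
  have hcard : ((TT Λ (2 * r)).image f).card ≤ 5 ^ Λ.card := by
    refine (card_le_card himg).trans ?_
    rw [Fintype.card_piFinset]
    simp
  have hfib : ∀ g ∈ (TT Λ (2 * r)).image f, ((TT Λ (2 * r)).filter fun x => f x = g).card ≤ (TT Λ r).card := by
    intro g hg
    rw [mem_image] at hg
    obtain ⟨x₀, hx₀, rfl⟩ := hg
    apply card_le_card_of_injOn (fun x => x - x₀)
    · intro x hx
      rw [coe_filter] at hx
      have h1 : f x = f x₀ := hx.2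
      rw [mem_coe, mem_TT]
      intro χ hχ
      have h2 : ⌊Complex.arg (χ x) / (2 * Real.pi) / r⌋ = ⌊Complex.arg (χ x₀) / (2 * Real.pi) / r⌋ := by
        have := congrFun h1 ⟨χ, hχ⟩
        rw [hf] at this
        exact this
      have h3 := Int.abs_sub_lt_one_of_floor_eq_floor h2
      rw [← sub_div, ← sub_div, abs_div, abs_div, abs_of_pos hpi, abs_of_pos hr, div_lt_one hr] at h3
      have h4 := arg_mul_conj_le (χ x) (χ x₀) (nc χ x) (nc χ x₀)
      change aa (χ (x - x₀)) ≤ r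
      rw [ch_sub]
      unfold aa
      exact (div_le_div_of_nonneg_right h4 hpi.le).trans h3.le
    · intro x _ y _ h
      exact sub_left_injective h
  calc (TT Λ (2 * r)).card ≤ (TT Λ r).card * ((TT Λ (2 * r)).image f).card :=
        card_le_mul_card_image _ _ hfib
    _ ≤ (TT Λ r).card * 5 ^ Λ.card := Nat.mul_le_mul_left _ hcard
    _ = _ := mul_comm _ _

/-- Regular radii. -/
lemma regular (Λ : Finset (AddChar G ℂ)) (ρ : ℝ) (hρ : 0 < ρ) (q : ℕ) (hq : 1 ≤ q) :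
    ∃ r : ℝ, ρ ≤ r ∧ r ≤ 2 * ρ ∧
      (q : ℝ) * ((TT Λ (r + ρ / (3 * ((Λ.card : ℝ) + 1) * q))).card : ℝ) ≤ (q + 1) * ((TT Λ r).card : ℝ) := by
  by_contra hcon
  push Not at hcon
  obtain ⟨J, hJ⟩ : ∃ J : ℕ, J = 3 * (Λ.card + 1) * q := ⟨_, rfl⟩
  have hqR : (0 : ℝ) < q := by exact_mod_cast hq
  have hJR : (3 * ((Λ.card : ℝ) + 1) * q) = (J : ℝ) := by rw [hJ]; push_cast; ring
  rw [hJR] at hcon
  have hJ0 : (0 : ℝ) < J := by rw [← hJR]; positivity
  have key : ∀ j : ℕ, j ≤ J → ((q : ℝ) + 1) ^ j * ((TT Λ ρ).card : ℝ) ≤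
      (q : ℝ) ^ j * ((TT Λ (ρ + j * (ρ / J))).card : ℝ) := by
    intro j
    induction j with
    | zero => intro _; simp
    | succ j ih =>
      intro hj
      have h1 := ih (by omega)
      have hjJ : (j : ℝ) + 1 ≤ J := by exact_mod_cast hj
      have h2 := hcon (ρ + j * (ρ / J)) (by
        have : (0 : ℝ) ≤ j * (ρ / J) := by positivity
        linarith) (by
        have : (j : ℝ) * (ρ / J) ≤ ρ := by
          rw [mul_div_assoc', div_le_iff₀ hJ0]
          nlinarith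
        linarith)
      have e : ρ + (j : ℝ) * (ρ / J) + ρ / J = ρ + ((j + 1 : ℕ) : ℝ) * (ρ / J) := by push_cast; ring
      rw [e] at h2
      calc ((q : ℝ) + 1) ^ (j + 1) * ((TT Λ ρ).card : ℝ)
          = (q + 1) * (((q : ℝ) + 1) ^ j * ((TT Λ ρ).card : ℝ)) := by ring
        _ ≤ (q + 1) * ((q : ℝ) ^ j * ((TT Λ (ρ + j * (ρ / J))).card : ℝ)) := by gcongr
        _ = (q : ℝ) ^ j * ((q + 1) * ((TT Λ (ρ + j * (ρ / J))).card : ℝ)) := by ring
        _ ≤ (q : ℝ) ^ j * (q * ((TT Λ (ρ + ((j + 1 : ℕ) : ℝ) * (ρ / J))).card : ℝ)) := by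
            gcongr
        _ = _ := by ring
  have h1 := key J le_rfl
  have e : ρ + (J : ℝ) * (ρ / J) = 2 * ρ := by field_simp; ring
  rw [e] at h1
  have h2 : ((TT Λ (2 * ρ)).card : ℝ) ≤ 5 ^ Λ.card * ((TT Λ ρ).card : ℝ) := by exact_mod_cast growth Λ ρ hρ
  have hT : (0 : ℝ) < (TT Λ ρ).card := by exact_mod_cast TT_card_pos Λ hρ.le
  have h3 : ((q : ℝ) + 1) ^ J ≤ (q : ℝ) ^ J * 5 ^ Λ.card := by
    have : ((q : ℝ) + 1) ^ J * ((TT Λ ρ).card : ℝ) ≤ ((q : ℝ) ^ J * 5 ^ Λ.card) * ((TT Λ ρ).card : ℝ) := by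
      calc _ ≤ (q : ℝ) ^ J * ((TT Λ (2 * ρ)).card : ℝ) := h1
        _ ≤ (q : ℝ) ^ J * (5 ^ Λ.card * ((TT Λ ρ).card : ℝ)) := by gcongr
        _ = _ := by ring
    exact le_of_mul_le_mul_right this hT
  -- Bernoulli
  have h4 : 2 * (q : ℝ) ^ q ≤ ((q : ℝ) + 1) ^ q := by
    have h50 : (-2 : ℝ) ≤ 1 / (q : ℝ) := by
      have : (0 : ℝ) < 1 / (q : ℝ) := by positivity
      linarith
    have h5 := one_add_mul_le_pow h50 q
    have h6 : (1 : ℝ) + q * (1 / q) = 2 := by field_simp; norm_num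
    rw [h6] at h5
    have h7 : (1 + 1 / (q : ℝ)) ^ q * (q : ℝ) ^ q = ((q : ℝ) + 1) ^ q := by
      rw [← mul_pow]
      congr 1
      field_simp
    rw [← h7]
    gcongr
  have h5 : 8 ^ (Λ.card + 1) * (q : ℝ) ^ J ≤ ((q : ℝ) + 1) ^ J := by
    have h6 : (2 * (q : ℝ) ^ q) ^ (3 * (Λ.card + 1)) ≤ (((q : ℝ) + 1) ^ q) ^ (3 * (Λ.card + 1)) := by gcongr
    rw [mul_pow, ← pow_mul, ← pow_mul] at h6
    have e1 : q * (3 * (Λ.card + 1)) = J := by rw [hJ]; ring
    have e2 : (2 : ℝ) ^ (3 * (Λ.card + 1)) = 8 ^ (Λ.card + 1) := by rw [pow_mul]; norm_num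
    rw [e1, e2] at h6
    exact h6
  have h6 : (q : ℝ) ^ J * 8 ^ (Λ.card + 1) ≤ (q : ℝ) ^ J * 5 ^ Λ.card := by linarith
  have h7 := le_of_mul_le_mul_left h6 (by positivity)
  have h8 : (5 : ℝ) ^ Λ.card ≤ 8 ^ Λ.card := by gcongr; norm_num
  have h9 : (8 : ℝ) ^ (Λ.card + 1) = 8 * 8 ^ Λ.card := by ring
  have h10 : (0 : ℝ) < 8 ^ Λ.card := by positivity
  linarith

end Pool.Agent.K4H89.BV
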