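import Pool.Agent.K4H89.BV.Boh

/-!
# Chang's theorem for finite abelian groups, and iterated difference sets
-/

set_option autoImplicit false
set_option linter.unusedSectionVars false

namespace Pool.Agent.K4H89.BV

open Finset Complex
open scoped BigOperators

variable {G : Type} [AddCommGroup G] [Fintype G] [DecidableEq G]

lemma exists_phase (z : ℂ) : ∃ u : ℂ, ‖u‖ = 1 ∧ (u * z).re = ‖z‖ := by
  by_cases hz : z = 0
  · exact ⟨1, norm_one, by rw [hz]; simp⟩
  · refine ⟨(starRingEnd ℂ) z / ‖z‖, ?_, ?_⟩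
    · rw [norm_div, Complex.norm_conj, Complex.norm_real, norm_norm]
      exact div_self (norm_ne_zero_iff.mpr hz)
    · have h1 : (starRingEnd ℂ) z / ‖z‖ * z = ((‖z‖ : ℝ) : ℂ) := by
        have h2 : ((‖z‖ : ℝ) : ℂ) ≠ 0 := by
          rw [Complex.ofReal_ne_zero]; exact norm_ne_zero_iff.mpr hz
        rw [div_mul_eq_mul_div, mul_comm ((starRingEnd ℂ) z) z, Complex.mul_conj, Complex.normSq_eq_norm_sq]
        rw [div_eq_iff h2]
        push_cast
        ring
      rw [h1, Complex.ofReal_re]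

theorem chang (S : Finset G) (hS : S.Nonempty) (Λ : Finset (AddChar G ℂ))
    (hΛ : AddDissociated (Λ : Set (AddChar G ℂ))) (h : ∀ χ ∈ Λ, (S.card : ℝ) ^ 2 / 4 ≤ wt S χ) :
    (Λ.card : ℝ) ≤ 8 * Real.log (Fintype.card G / S.card) := by
  classical
  have hSpos : (0 : ℝ) < S.card := by exact_mod_cast hS.card_pos
  have hGpos : (0 : ℝ) < Fintype.card G := by exact_mod_cast Fintype.card_pos
  have hph := fun χ : AddChar G ℂ => exists_phase (∑ y ∈ S, χ y)
  choose u hu1 hu2 using hph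
  obtain ⟨c, hc⟩ : ∃ c : AddChar G ℂ → ℝ, c = fun χ => if χ ∈ Λ then Real.cosh (1 / 2) else 1 := ⟨_, rfl⟩
  obtain ⟨e, he⟩ : ∃ e : AddChar G ℂ → ℂ, e = fun χ => if χ ∈ Λ then (Real.sinh (1 / 2) : ℝ) * u χ else 0 :=
    ⟨_, rfl⟩
  have hsub : {ψ | e ψ ≠ 0} ⊆ (Λ : Set (AddChar G ℂ)) := by
    intro χ hχ
    by_contra hcon
    apply hχ
    rw [he]
    exact if_neg hcon
  have hR := AddDissociated.randomisation c e (hΛ.subset hsub)
  have hprodc : ∏ ψ, c ψ = Real.cosh (1 / 2) ^ Λ.card := by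
    rw [hc, prod_ite_mem, univ_inter, prod_const]
  rw [hprodc, Fintype.expect_eq_sum_div_card, div_eq_iff hGpos.ne'] at hR
  obtain ⟨F, hF⟩ : ∃ F : G → ℝ, F = fun a => ∑ χ ∈ Λ, (u χ * χ a).re := ⟨_, rfl⟩
  have hlow : ∀ a, Real.exp (F a / 2) ≤ ∏ ψ, (c ψ + (e ψ * ψ a).re) := by
    intro a
    have h1 : ∏ ψ, (c ψ + (e ψ * ψ a).re) = ∏ ψ ∈ Λ, (Real.cosh (1 / 2) + (u ψ * ψ a).re * Real.sinh (1 / 2)) := by
      have h2 : ∀ ψ, (c ψ + (e ψ * ψ a).re) =
          if ψ ∈ Λ then (Real.cosh (1 / 2) + (u ψ * ψ a).re * Real.sinh (1 / 2)) else 1 := by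
        intro ψ
        rw [hc, he]
        dsimp only
        split_ifs with hψ
        · rw [mul_assoc, Complex.re_ofReal_mul]
          ring
        · simp
      rw [prod_congr rfl fun ψ _ => h2 ψ, prod_ite_mem, univ_inter]
    have h2 : Real.exp (F a / 2) = ∏ ψ ∈ Λ, Real.exp ((u ψ * ψ a).re * (1 / 2)) := by
      rw [← Real.exp_sum, hF]
      congr 1
      dsimp only
      rw [← sum_mul]
      ring
    rw [h1, h2]
    refine prod_le_prod (fun ψ _ => (Real.exp_pos _).le) fun ψ _ => ?_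
    apply Real.exp_mul_le_cosh_add_mul_sinh
    refine (Complex.abs_re_le_norm _).trans ?_
    rw [norm_mul, hu1, nc, one_mul]
  have hup : ∑ a ∈ S, Real.exp (F a / 2) ≤ Real.exp (Λ.card / 8) * Fintype.card G := by
    calc ∑ a ∈ S, Real.exp (F a / 2) ≤ ∑ a : G, Real.exp (F a / 2) :=
          sum_le_sum_of_subset_of_nonneg (subset_univ _) fun a _ _ => (Real.exp_pos _).le
      _ ≤ ∑ a : G, ∏ ψ, (c ψ + (e ψ * ψ a).re) := sum_le_sum fun a _ => hlow a
      _ = Real.cosh (1 / 2) ^ Λ.card * Fintype.card G := hR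
      _ ≤ Real.exp (Λ.card / 8) * Fintype.card G := by
          gcongr
          have h1 := Real.cosh_le_exp_half_sq (1 / 2)
          calc Real.cosh (1 / 2) ^ Λ.card ≤ Real.exp ((1 / 2) ^ 2 / 2) ^ Λ.card := by
                gcongr
            _ = Real.exp (Λ.card / 8) := by
                rw [← Real.exp_nat_mul]
                congr 1
                ring
  have hsumF : (Λ.card : ℝ) * (S.card / 2) ≤ ∑ a ∈ S, F a := by
    rw [hF]
    dsimp only
    rw [sum_comm, ← nsmul_eq_mul, ← sum_const]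
    refine sum_le_sum fun χ hχ => ?_
    rw [← Complex.re_sum, ← mul_sum, hu2]
    have h1 := h χ hχ
    unfold wt at h1
    have h2 : ((S.card : ℝ) / 2) ^ 2 ≤ ‖∑ y ∈ S, χ y‖ ^ 2 := by linarith
    exact le_of_sq_le_sq h2 (norm_nonneg _)
  have hlo : Real.exp (Λ.card / 4) * S.card ≤ ∑ a ∈ S, Real.exp (F a / 2) := by
    have h1 : ∀ a ∈ S, Real.exp (Λ.card / 4) * (F a / 2 - Λ.card / 4 + 1) ≤ Real.exp (F a / 2) := by
      intro a _
      have h2 := Real.add_one_le_exp (F a / 2 - Λ.card / 4)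
      calc Real.exp (Λ.card / 4) * (F a / 2 - Λ.card / 4 + 1)
          ≤ Real.exp (Λ.card / 4) * Real.exp (F a / 2 - Λ.card / 4) := by gcongr
        _ = Real.exp (F a / 2) := by rw [← Real.exp_add]; congr 1; ring
    refine le_trans ?_ (sum_le_sum h1)
    rw [← mul_sum]
    gcongr
    rw [sum_add_distrib, sum_sub_distrib, ← sum_div]
    simp only [sum_const, nsmul_eq_mul, mul_one]
    linarith
  have h1 : Real.exp (Λ.card / 4) * S.card ≤ Real.exp (Λ.card / 8) * Fintype.card G := hlo.trans hup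
  have h2 : Real.exp (Λ.card / 8) ≤ Fintype.card G / S.card := by
    rw [le_div_iff₀ hSpos]
    have e1 : Real.exp ((Λ.card : ℝ) / 4) = Real.exp (Λ.card / 8) * Real.exp (Λ.card / 8) := by
      rw [← Real.exp_add]; congr 1; ring
    rw [e1, mul_assoc] at h1
    exact le_of_mul_le_mul_left h1 (Real.exp_pos _)
  have h3 := Real.log_le_log (Real.exp_pos _) h2
  rw [Real.log_exp] at h3
  linarith

lemma aa_sum (Λ : Finset (AddChar G ℂ)) (ε : AddChar G ℂ → ℤ) (hε : ∀ a, ε a = -1 ∨ ε a = 0 ∨ ε a = 1) (x : G) :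
    aa ((∑ a ∈ Λ, ε a • a) x) ≤ ∑ a ∈ Λ, aa (a x) := by
  classical
  induction Λ using Finset.induction_on with
  | empty =>
    rw [sum_empty, sum_empty, AddChar.zero_apply, aa_one]
  | insert a s ha ih =>
    rw [sum_insert ha, sum_insert ha, AddChar.add_apply]
    refine (aa_mul _ _ (nc _ _) (nc _ _)).trans (add_le_add ?_ ih)
    rcases hε a with h | h | h
    · rw [h, neg_one_zsmul, AddChar.neg_apply, ch_neg]
      exact aa_conj _ (nc _ _)
    · rw [h, zero_zsmul, AddChar.zero_apply, aa_one]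
      exact aa_nonneg _
    · rw [h, one_zsmul]

/-- The large spectrum of `S` is controlled by few characters. -/
theorem spec_control (S : Finset G) (hS : S.Nonempty) :
    ∃ Λ : Finset (AddChar G ℂ), (Λ.card : ℝ) ≤ 8 * Real.log (Fintype.card G / S.card) ∧
      ∀ (r : ℝ) (x : G), x ∈ TT Λ r → ∀ χ : AddChar G ℂ, (S.card : ℝ) ^ 2 / 4 ≤ wt S χ →
        aa (χ x) ≤ Λ.card * r := by
  classical
  have hSpos : (0 : ℝ) < S.card := by exact_mod_cast hS.card_pos
  have hlog : 0 ≤ 8 * Real.log (Fintype.card G / S.card) := by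
    apply mul_nonneg (by norm_num)
    apply Real.log_nonneg
    rw [le_div_iff₀ hSpos, one_mul]
    exact_mod_cast card_le_univ S
  obtain ⟨Λ, hΛS, hΛc, hΛ⟩ := Finset.exists_subset_addSpan_card_le_of_forall_addDissociated
    (s := univ.filter fun χ : AddChar G ℂ => (S.card : ℝ) ^ 2 / 4 ≤ wt S χ)
    (d := ⌊8 * Real.log (Fintype.card G / S.card)⌋₊) (by
      intro s' hs' hdis
      rw [Nat.le_floor_iff hlog]
      exact chang S hS s' hdis fun χ hχ => (mem_filter.mp (hs' hχ)).2)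
  refine ⟨Λ, (Nat.le_floor_iff hlog).mp hΛc, ?_⟩
  intro r x hx χ hχ
  have h1 := hΛ (mem_filter.mpr ⟨mem_univ χ, hχ⟩)
  rw [mem_addSpan] at h1
  obtain ⟨ε, hε, rfl⟩ := h1
  refine (aa_sum Λ ε hε x).trans ?_
  rw [← nsmul_eq_mul]
  apply sum_le_card_nsmul
  intro a ha
  rw [mem_TT] at hx
  exact hx a ha

/-- The Fourier transform of the number of representations. -/
noncomputable def FF (S : Finset G) (l : ℕ) (x : G) : ℂ := ∑ χ : AddChar G ℂ, ((wt S χ : ℝ) : ℂ) ^ l * χ x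

lemma FF_zero (S : Finset G) (x : G) (hx : FF S 0 x ≠ 0) : x = 0 := by
  by_contra h
  apply hx
  unfold FF
  simp only [pow_zero, one_mul]
  rw [AddChar.sum_apply_eq_ite, if_neg h]

lemma FF_succ (S : Finset G) (l : ℕ) (x : G) :
    FF S (l + 1) x = ∑ p ∈ S ×ˢ S, FF S l (x + (p.1 - p.2)) := by
  unfold FF
  rw [sum_comm]
  refine sum_congr rfl fun χ _ => ?_
  rw [pow_succ, wt_expand, mul_assoc, sum_mul, mul_sum]
  refine sum_congr rfl fun p _ => ?_
  rw [ch_add]
  ring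

/-- The points in `l S - l S` move few points of `B` out. -/
lemma out_le (S B : Finset G) (M : ℝ) (hM : ∀ s ∈ S, ∀ s' ∈ S, (out B (s - s') : ℝ) ≤ M) (l : ℕ) :
    ∀ x, FF S l x ≠ 0 → (out B x : ℝ) ≤ l * M := by
  induction l with
  | zero =>
    intro x hx
    rw [FF_zero S x hx, out_zero]
    simp
  | succ l ih =>
    intro x hx
    rw [FF_succ] at hx
    obtain ⟨p, hp, hne⟩ := exists_ne_zero_of_sum_ne_zero hx
    rw [mem_product] at hp
    have h1 := ih _ hne
    have h2 := hM _ hp.2 _ hp.1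
    have h3 := out_add B (x + (p.1 - p.2)) (p.2 - p.1)
    have e : x + (p.1 - p.2) + (p.2 - p.1) = x := by abel
    rw [e] at h3
    have h4 : (out B x : ℝ) ≤ out B (x + (p.1 - p.2)) + out B (p.2 - p.1) := by exact_mod_cast h3
    push_cast
    linarith

/-- A Bohr set inside `l S - l S`. -/
lemma FF_ne_zero (S : Finset G) (hS : S.Nonempty) (l : ℕ) (hl : (Fintype.card G : ℝ) < S.card * 4 ^ l) (x : G)
    (hx : ∀ χ : AddChar G ℂ, (S.card : ℝ) ^ 2 / 4 ≤ wt S χ → 0 ≤ (χ x).re) : FF S (l + 1) x ≠ 0 := by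
  classical
  have hSpos : (0 : ℝ) < S.card := by exact_mod_cast hS.card_pos
  have hGpos : (0 : ℝ) < Fintype.card G := by exact_mod_cast Fintype.card_pos
  intro h0
  have h1 := congrArg Complex.re h0
  unfold FF at h1
  rw [Complex.re_sum, Complex.zero_re] at h1
  have h2 : ∀ χ : AddChar G ℂ, (((wt S χ : ℝ) : ℂ) ^ (l + 1) * χ x).re = wt S χ ^ (l + 1) * (χ x).re := by
    intro χ
    rw [← Complex.ofReal_pow, Complex.re_ofReal_mul]
  rw [sum_congr rfl fun χ _ => h2 χ] at h1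
  obtain ⟨P, hP⟩ : ∃ P : Finset (AddChar G ℂ), P = univ.filter fun χ => (S.card : ℝ) ^ 2 / 4 ≤ wt S χ := ⟨_, rfl⟩
  have hwt1 : wt S (1 : AddChar G ℂ) = (S.card : ℝ) ^ 2 := by
    unfold wt
    simp
  have h1P : (1 : AddChar G ℂ) ∈ P := by
    rw [hP, mem_filter, hwt1]
    refine ⟨mem_univ _, ?_⟩
    nlinarith [sq_nonneg (S.card : ℝ)]
  rw [← sum_add_sum_compl P] at h1
  have h3 : ((S.card : ℝ) ^ 2) ^ (l + 1) ≤ ∑ χ ∈ P, wt S χ ^ (l + 1) * (χ x).re := by
    have h4 : ((S.card : ℝ) ^ 2) ^ (l + 1) = wt S (1 : AddChar G ℂ) ^ (l + 1) * ((1 : AddChar G ℂ) x).re := by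
      rw [hwt1]; simp
    rw [h4]
    refine single_le_sum (f := fun χ : AddChar G ℂ => wt S χ ^ (l + 1) * (χ x).re) ?_ h1P
    intro χ hχ
    rw [hP, mem_filter] at hχ
    exact mul_nonneg (pow_nonneg (wt_nonneg _ _) _) (hx χ hχ.2)
  have h4 : -(((S.card : ℝ) ^ 2 / 4) ^ l * (Fintype.card G * S.card)) ≤ ∑ χ ∈ Pᶜ, wt S χ ^ (l + 1) * (χ x).re := by
    calc -(((S.card : ℝ) ^ 2 / 4) ^ l * (Fintype.card G * S.card))
        = -∑ χ : AddChar G ℂ, ((S.card : ℝ) ^ 2 / 4) ^ l * wt S χ := by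
          rw [← mul_sum, sum_wt]
      _ ≤ -∑ χ ∈ Pᶜ, ((S.card : ℝ) ^ 2 / 4) ^ l * wt S χ := by
          apply neg_le_neg
          refine sum_le_sum_of_subset_of_nonneg (subset_univ _) fun χ _ _ => ?_
          have := wt_nonneg S χ
          positivity
      _ = ∑ χ ∈ Pᶜ, -(((S.card : ℝ) ^ 2 / 4) ^ l * wt S χ) := by rw [sum_neg_distrib]
      _ ≤ ∑ χ ∈ Pᶜ, wt S χ ^ (l + 1) * (χ x).re := by
          refine sum_le_sum fun χ hχ => ?_
          rw [mem_compl, hP, mem_filter] at hχ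
          push Not at hχ
          have h5 := hχ (mem_univ χ)
          have h6 := wt_nonneg S χ
          have h7 : wt S χ ^ l ≤ ((S.card : ℝ) ^ 2 / 4) ^ l := pow_le_pow_left₀ h6 h5.le l
          have h8 : -1 ≤ (χ x).re := by
            have := Complex.abs_re_le_norm (χ x)
            rw [nc] at this
            exact (abs_le.mp this).1
          have h9 : wt S χ ^ (l + 1) ≤ ((S.card : ℝ) ^ 2 / 4) ^ l * wt S χ := by
            rw [pow_succ]
            exact mul_le_mul_of_nonneg_right h7 h6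
          have h10 : 0 ≤ wt S χ ^ (l + 1) := by positivity
          nlinarith
  have h5 : ((S.card : ℝ) ^ 2 / 4) ^ l * (Fintype.card G * S.card) < ((S.card : ℝ) ^ 2) ^ (l + 1) := by
    have h6 : ((S.card : ℝ) ^ 2 / 4) ^ l * (Fintype.card G * S.card) <
        ((S.card : ℝ) ^ 2 / 4) ^ l * ((S.card * 4 ^ l) * S.card) := by
      gcongr
    refine h6.trans_le (le_of_eq ?_)
    rw [div_pow, pow_succ]
    field_simp
    ring
  linarith

end Pool.Agent.K4H89.BV
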