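import Pool.Agent.K4H89.BV.Cro
import Pool.Agent.K4H89.BV.Cha
import Pool.Agent.K4H89.BV.Ber

/-!
# Bohr sets from almost periods, without loss in the radius
-/

set_option autoImplicit false
set_option linter.unusedSectionVars false

namespace Pool.Agent.K4H89.BV

open Finset Complex
open scoped Pointwise

variable {G : Type} [AddCommGroup G] [Fintype G] [DecidableEq G]

/-- The repeated average of a function over the differences of `X`. -/
noncomputable def uu (X : Finset G) (h : G → ℝ) : ℕ → G → ℝ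
  | 0 => h
  | l + 1 => fun z => (∑ p ∈ X ×ˢ X, uu X h l (z + (p.1 - p.2))) / (X.card : ℝ) ^ 2

/-- The Fourier transform. -/
noncomputable def hh (h : G → ℝ) (χ : AddChar G ℂ) : ℂ := ∑ w, (h w : ℂ) * (starRingEnd ℂ) (χ w)

lemma uu_near (X : Finset G) (hX : X.Nonempty) (h : G → ℝ) (κ : ℝ)
    (hstep : ∀ x ∈ X, ∀ x' ∈ X, ∀ z, |h (z + (x - x')) - h z| ≤ κ) (l : ℕ) :
    ∀ z, |uu X h l z - h z| ≤ l * κ := by
  have hXpos : (0 : ℝ) < X.card := by exact_mod_cast hX.card_pos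
  induction l with
  | zero => intro z; simp [uu]
  | succ l ih =>
    intro z
    have h1 : uu X h (l + 1) z - h z = (∑ p ∈ X ×ˢ X, (uu X h l (z + (p.1 - p.2)) - h z)) / (X.card : ℝ) ^ 2 := by
      rw [sum_sub_distrib, sub_div]
      congr 1
      rw [sum_const, card_product, nsmul_eq_mul]
      push_cast
      field_simp
    rw [h1, abs_div, abs_of_pos (by positivity : (0 : ℝ) < (X.card : ℝ) ^ 2), div_le_iff₀ (by positivity)]
    refine (abs_sum_le_sum_abs _ _).trans ?_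
    have h2 : ∀ p ∈ X ×ˢ X, |uu X h l (z + (p.1 - p.2)) - h z| ≤ ((l + 1 : ℕ) : ℝ) * κ := by
      intro p hp
      rw [mem_product] at hp
      have h3 := ih (z + (p.1 - p.2))
      have h4 := hstep p.1 hp.1 p.2 hp.2 z
      have h5 : uu X h l (z + (p.1 - p.2)) - h z =
          (uu X h l (z + (p.1 - p.2)) - h (z + (p.1 - p.2))) + (h (z + (p.1 - p.2)) - h z) := by ring
      rw [h5]
      refine (abs_add_le _ _).trans ?_
      push_cast
      linarith
    refine (sum_le_card_nsmul _ _ _ h2).trans (le_of_eq ?_)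
    rw [card_product, nsmul_eq_mul]
    push_cast
    ring

lemma uu_fourier (X : Finset G) (hX : X.Nonempty) (h : G → ℝ) (l : ℕ) :
    ∀ z, ((uu X h l z : ℝ) : ℂ) = (1 / (Fintype.card G : ℂ)) *
      ∑ χ : AddChar G ℂ, hh h χ * ((wt X χ / (X.card : ℝ) ^ 2 : ℝ) : ℂ) ^ l * χ z := by
  have hXpos : (0 : ℝ) < X.card := by exact_mod_cast hX.card_pos
  have hXC : (X.card : ℂ) ≠ 0 := by exact_mod_cast hXpos.ne'
  have hG : (Fintype.card G : ℂ) ≠ 0 := by
    have : 0 < Fintype.card G := Fintype.card_pos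
    exact_mod_cast this.ne'
  induction l with
  | zero =>
    intro z
    simp only [pow_zero, mul_one, uu]
    unfold hh
    have h1 : ∀ χ : AddChar G ℂ, (∑ w, (h w : ℂ) * (starRingEnd ℂ) (χ w)) * χ z =
        ∑ w, (h w : ℂ) * χ (z - w) := by
      intro χ
      rw [sum_mul]
      refine sum_congr rfl fun w _ => ?_
      rw [ch_sub]
      ring
    rw [sum_congr rfl fun χ _ => h1 χ, sum_comm]
    have h2 : ∀ w : G, ∑ χ : AddChar G ℂ, (h w : ℂ) * χ (z - w) = if w = z then (h w : ℂ) * Fintype.card G else 0 := by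
      intro w
      rw [← mul_sum, AddChar.sum_apply_eq_ite]
      by_cases hw : w = z
      · rw [if_pos hw, if_pos (by rw [hw, sub_self])]
      · rw [if_neg hw, if_neg (by intro h'; exact hw (sub_eq_zero.mp h').symm), mul_zero]
    rw [sum_congr rfl fun w _ => h2 w, sum_ite_eq' univ z, if_pos (mem_univ z)]
    field_simp
  | succ l ih =>
    intro z
    simp only [uu]
    push_cast
    rw [sum_congr rfl fun p _ => ih _, ← mul_sum, sum_comm, mul_div_assoc, sum_div]
    congr 1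
    refine sum_congr rfl fun χ _ => ?_
    have h1 : ∑ p ∈ X ×ˢ X, hh h χ * ((wt X χ / (X.card : ℝ) ^ 2 : ℝ) : ℂ) ^ l * χ (z + (p.1 - p.2)) =
        hh h χ * ((wt X χ / (X.card : ℝ) ^ 2 : ℝ) : ℂ) ^ l * χ z * ((wt X χ : ℝ) : ℂ) := by
      rw [wt_expand, mul_sum]
      refine sum_congr rfl fun p _ => ?_
      rw [ch_add]
      ring
    rw [h1, pow_succ]
    push_cast
    ring

lemma hh_gg (A : Finset G) (f : G → ℝ) (χ : AddChar G ℂ) :
    hh (gg A f) χ = (∑ a ∈ A, χ a) / A.card * hh f χ := by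
  unfold hh gg
  have h1 : ∀ w, (((∑ a ∈ A, f (w + a)) / A.card : ℝ) : ℂ) * (starRingEnd ℂ) (χ w) =
      ∑ a ∈ A, (f (w + a) : ℂ) * (starRingEnd ℂ) (χ w) / A.card := by
    intro w
    push_cast
    rw [← sum_div, ← sum_mul]
    ring
  rw [sum_congr rfl fun w _ => h1 w, sum_comm, sum_div, sum_mul]
  refine sum_congr rfl fun a _ => ?_
  rw [← sum_div]
  have h2 : ∑ w, (f (w + a) : ℂ) * (starRingEnd ℂ) (χ w) = χ a * ∑ v, (f v : ℂ) * (starRingEnd ℂ) (χ v) := by
    rw [← Equiv.sum_comp (Equiv.addRight a) (fun v => (f v : ℂ) * (starRingEnd ℂ) (χ v)), mul_sum]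
    refine sum_congr rfl fun w _ => ?_
    simp only [Equiv.coe_addRight]
    rw [ch_add, map_mul]
    have : (starRingEnd ℂ) (χ a) * χ a = 1 := by
      rw [mul_comm, Complex.mul_conj, Complex.normSq_eq_norm_sq, nc]; norm_num
    linear_combination (-(f (w + a) : ℂ) * (starRingEnd ℂ) (χ w)) * this
  rw [h2]
  ring

/-- The `ℓ¹` norm of the Fourier transform. -/
lemma sum_hh (A₁ A₂ F : Finset G) (h1 : A₁.Nonempty) (h2 : A₂.Nonempty) (K : ℝ) (hF : (F.card : ℝ) ≤ K * A₁.card) :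
    ∑ χ : AddChar G ℂ, ‖hh (gg A₁ (gg A₂ fun w => if w ∈ F then 1 else 0)) χ‖ ≤ Fintype.card G * Real.sqrt K := by
  have h1pos : (0 : ℝ) < A₁.card := by exact_mod_cast h1.card_pos
  have h2pos : (0 : ℝ) < A₂.card := by exact_mod_cast h2.card_pos
  have hGpos : (0 : ℝ) < Fintype.card G := by exact_mod_cast Fintype.card_pos
  have hb : ∀ χ : AddChar G ℂ, ‖hh (gg A₁ (gg A₂ fun w => if w ∈ F then 1 else 0)) χ‖ ≤
      1 / A₁.card * (‖∑ a ∈ A₁, χ a‖ * ‖∑ a ∈ F, χ a‖) := by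
    intro χ
    rw [hh_gg, hh_gg]
    have e1 : hh (fun w : G => if w ∈ F then (1 : ℝ) else 0) χ = (starRingEnd ℂ) (∑ a ∈ F, χ a) := by
      unfold hh
      rw [map_sum, ← sum_filter_add_sum_filter_not univ (fun w => w ∈ F)]
      have e2 : ∑ x ∈ univ.filter (fun w => ¬ w ∈ F), (((if x ∈ F then (1 : ℝ) else 0 : ℝ)) : ℂ) * (starRingEnd ℂ) (χ x) = 0 := by
        refine sum_eq_zero fun x hx => ?_
        rw [mem_filter] at hx
        rw [if_neg hx.2]
        simp
      rw [e2, add_zero, filter_univ_mem]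
      refine sum_congr rfl fun x hx => ?_
      simp only [if_pos hx]
      simp
    rw [e1, norm_mul, norm_mul, norm_div, norm_div, Complex.norm_conj, Complex.norm_natCast, Complex.norm_natCast]
    have e3 : ‖∑ a ∈ A₂, χ a‖ / A₂.card ≤ 1 := by
      rw [div_le_one h2pos]
      refine (norm_sum_le _ _).trans ?_
      rw [sum_congr rfl fun y _ => nc χ y]
      simp
    calc ‖∑ a ∈ A₁, χ a‖ / A₁.card * (‖∑ a ∈ A₂, χ a‖ / A₂.card * ‖∑ a ∈ F, χ a‖)
        ≤ ‖∑ a ∈ A₁, χ a‖ / A₁.card * (1 * ‖∑ a ∈ F, χ a‖) := by gcongr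
      _ = _ := by ring
  calc ∑ χ : AddChar G ℂ, ‖hh (gg A₁ (gg A₂ fun w => if w ∈ F then 1 else 0)) χ‖
      ≤ ∑ χ : AddChar G ℂ, 1 / A₁.card * (‖∑ a ∈ A₁, χ a‖ * ‖∑ a ∈ F, χ a‖) := sum_le_sum fun χ _ => hb χ
    _ = 1 / A₁.card * ∑ χ : AddChar G ℂ, ‖∑ a ∈ A₁, χ a‖ * ‖∑ a ∈ F, χ a‖ := by rw [mul_sum]
    _ ≤ 1 / A₁.card * (Real.sqrt (∑ χ : AddChar G ℂ, ‖∑ a ∈ A₁, χ a‖ ^ 2) *
          Real.sqrt (∑ χ : AddChar G ℂ, ‖∑ a ∈ F, χ a‖ ^ 2)) := by
        gcongr
        exact Real.sum_mul_le_sqrt_mul_sqrt _ _ _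
    _ = 1 / A₁.card * (Real.sqrt (Fintype.card G * A₁.card) * Real.sqrt (Fintype.card G * F.card)) := by
        have e1 := sum_wt (G := G) A₁
        have e2 := sum_wt (G := G) F
        unfold wt at e1 e2
        rw [e1, e2]
    _ ≤ 1 / A₁.card * (Real.sqrt (Fintype.card G * A₁.card) * Real.sqrt (Fintype.card G * (K * A₁.card))) := by
        gcongr
    _ = Fintype.card G * Real.sqrt K := by
        have e1 : (Fintype.card G : ℝ) * (K * A₁.card) = K * (Fintype.card G * A₁.card) := by ring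
        have hN : (0 : ℝ) ≤ Fintype.card G * A₁.card := by positivity
        rw [e1, Real.sqrt_mul' K hN]
        have e2 : Real.sqrt (Fintype.card G * A₁.card) * (Real.sqrt K * Real.sqrt (Fintype.card G * A₁.card)) =
            Real.sqrt K * (Real.sqrt (Fintype.card G * A₁.card) * Real.sqrt (Fintype.card G * A₁.card)) := by ring
        rw [e2, Real.mul_self_sqrt hN]
        field_simp

lemma gg_nonneg (A : Finset G) (f : G → ℝ) (hf : ∀ w, 0 ≤ f w) (w : G) : 0 ≤ gg A f w := by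
  unfold gg
  exact div_nonneg (sum_nonneg fun a _ => hf _) (Nat.cast_nonneg _)

lemma gg_le_one (A : Finset G) (hA : A.Nonempty) (f : G → ℝ) (hf : ∀ w, f w ≤ 1) (w : G) : gg A f w ≤ 1 := by
  have hApos : (0 : ℝ) < A.card := by exact_mod_cast hA.card_pos
  unfold gg
  rw [div_le_one hApos]
  calc ∑ a ∈ A, f (w + a) ≤ ∑ _a ∈ A, (1 : ℝ) := sum_le_sum fun a _ => hf _
    _ = A.card := by simp

/-- The step bound. -/
lemma step_bound (A₁ : Finset G) (hA : A₁.Nonempty) (g : G → ℝ) (x x' : G) (q : ℕ) (hq : 1 ≤ q) (κ : ℝ) (hκ : 0 ≤ κ)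
    (hg : ∑ w, (g (w + x) - g (w + x')) ^ (2 * q) ≤ κ ^ (2 * q) * A₁.card) (z : G) :
    |gg A₁ g (z + (x - x')) - gg A₁ g z| ≤ κ := by
  have hApos : (0 : ℝ) < A₁.card := by exact_mod_cast hA.card_pos
  have h1 : (gg A₁ g (z + (x - x')) - gg A₁ g z) ^ (2 * q) ≤ κ ^ (2 * q) := by
    have h2 : gg A₁ g (z + (x - x')) - gg A₁ g z =
        ∑ a ∈ A₁, (1 / (A₁.card : ℝ)) * (g (z + (x - x') + a) - g (z + a)) := by
      unfold gg
      rw [← sub_div, ← sum_sub_distrib, ← mul_sum]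
      ring
    rw [h2]
    refine (Real.pow_arith_mean_le_arith_mean_pow_of_even A₁ _ _ (fun a _ => by positivity) (by
      rw [sum_const, nsmul_eq_mul]; field_simp) (even_two_mul q)).trans ?_
    rw [← mul_sum, one_div, inv_mul_le_iff₀ hApos]
    refine le_trans ?_ (hg.trans (le_of_eq (mul_comm _ _)))
    have h3 : ∑ a ∈ A₁, (g (z + (x - x') + a) - g (z + a)) ^ (2 * q) =
        ∑ w ∈ A₁.image (fun a => z + a - x'), (g (w + x) - g (w + x')) ^ (2 * q) := by
      rw [sum_image]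
      · refine sum_congr rfl fun a _ => ?_
        have e1 : z + a - x' + x = z + (x - x') + a := by abel
        have e2 : z + a - x' + x' = z + a := by abel
        rw [e1, e2]
      · intro a _ b _ h
        exact add_left_cancel (sub_left_injective h)
    rw [h3]
    refine sum_le_sum_of_subset_of_nonneg (subset_univ _) fun w _ _ => ?_
    rw [pow_mul]
    positivity
  have h2 : |gg A₁ g (z + (x - x')) - gg A₁ g z| ^ (2 * q) ≤ κ ^ (2 * q) := by
    rw [(even_two_mul q).pow_abs]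
    exact h1
  exact (pow_le_pow_iff_left₀ (abs_nonneg _) hκ (by omega)).mp h2

end Pool.Agent.K4H89.BV
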