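import Pool.Agent.K4H89.BV.Loc
import Pool.Agent.K4H89.BV.Cha

/-!
# The criterion: sets which are dense in a set with many almost periods
-/

set_option autoImplicit false
set_option linter.unusedSectionVars false

namespace Pool.Agent.K4H89.BV

open Finset Complex

variable {G : Type} [AddCommGroup G] [Fintype G] [DecidableEq G]

/-- If `A` is dense in a translate of `B` and `B` is almost invariant under `T` then `A` is dense in a translate of
`T`. -/
lemma averaging (A B T : Finset G) (t : G) (δ : ℝ) (hB : B.Nonempty)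
    (hA : δ * B.card ≤ inn A B t) (hT : ∀ x ∈ T, (out B x : ℝ) ≤ δ / 2 * B.card) :
    ∃ y, δ / 2 * T.card ≤ inn A T y := by
  classical
  obtain ⟨C, hC⟩ : ∃ C : Finset G, C = (cut A B t).image fun a => a - t := ⟨_, rfl⟩
  have hCc : C.card = inn A B t := by
    rw [hC, card_image_of_injective _ (sub_left_injective), card_cut]
  have hCB : C ⊆ B := by
    intro c hc
    rw [hC, mem_image] at hc
    obtain ⟨a, ha, rfl⟩ := hc
    exact (mem_cut.mp ha).2
  have hinn : ∀ b : G, (C.filter fun c => c - b ∈ T).card ≤ inn A T (t + b) := by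
    intro b
    unfold inn
    apply card_le_card_of_injOn (fun c => c + t)
    · intro c hc
      rw [coe_filter] at hc ⊢
      obtain ⟨hc1, hc2⟩ := hc
      rw [hC, mem_image] at hc1
      obtain ⟨a, ha, rfl⟩ := hc1
      rw [mem_cut] at ha
      refine ⟨?_, ?_⟩
      · change a - t + t ∈ A
        have : a - t + t = a := by abel
        rw [this]; exact ha.1
      · change a - t + t - (t + b) ∈ T
        have : a - t + t - (t + b) = a - t - b := by abel
        rw [this]; exact hc2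
    · intro c _ c' _ h
      exact add_right_cancel h
  have hcount : ∑ b ∈ B, (C.filter fun c => c - b ∈ T).card = ∑ x ∈ T, (C.filter fun c => c - x ∈ B).card := by
    have h1 : ∀ b ∈ B, (C.filter fun c => c - b ∈ T).card = ∑ c ∈ C, if c - b ∈ T then 1 else 0 := by
      intro b _; rw [card_filter]
    have h2 : ∀ x ∈ T, (C.filter fun c => c - x ∈ B).card = ∑ c ∈ C, if c - x ∈ B then 1 else 0 := by
      intro b _; rw [card_filter]
    rw [sum_congr rfl h1, sum_congr rfl h2, sum_comm, sum_comm (s := T)]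
    refine sum_congr rfl fun c _ => ?_
    rw [← card_filter, ← card_filter]
    refine card_bij (fun b _ => c - b) ?_ ?_ ?_
    · intro b hb
      rw [mem_filter] at hb ⊢
      refine ⟨hb.2, ?_⟩
      have : c - (c - b) = b := by abel
      rw [this]; exact hb.1
    · intro b _ b' _ h
      exact sub_right_injective h
    · intro x hx
      rw [mem_filter] at hx
      refine ⟨c - x, ?_, by abel⟩
      rw [mem_filter]
      refine ⟨hx.2, ?_⟩
      have : c - (c - x) = x := by abel
      rw [this]; exact hx.1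
  have hlow : ∀ x ∈ T, δ / 2 * B.card ≤ ((C.filter fun c => c - x ∈ B).card : ℝ) := by
    intro x hx
    have h1 : (C.filter fun c => c - x ∈ B).card + (C.filter fun c => ¬ (c - x ∈ B)).card = C.card :=
      card_filter_add_card_filter_not _
    have h2 : (C.filter fun c => ¬ (c - x ∈ B)).card ≤ out B (-x) := by
      unfold out
      apply card_le_card
      intro c hc
      rw [mem_filter] at hc ⊢
      refine ⟨hCB hc.1, ?_⟩
      rw [← sub_eq_add_neg]
      exact hc.2
    rw [out_neg] at h2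
    have h3 : (C.card : ℝ) ≤ ((C.filter fun c => c - x ∈ B).card : ℝ) + out B x := by
      have : C.card ≤ (C.filter fun c => c - x ∈ B).card + out B x := by omega
      exact_mod_cast this
    have h4 := hT x hx
    rw [hCc] at h3
    linarith
  by_contra hcon
  push Not at hcon
  have h1 : ∑ b ∈ B, ((C.filter fun c => c - b ∈ T).card : ℝ) < ∑ _b ∈ B, δ / 2 * (T.card : ℝ) := by
    apply sum_lt_sum_of_nonempty hB
    intro b _
    have h2 : ((C.filter fun c => c - b ∈ T).card : ℝ) ≤ inn A T (t + b) := by exact_mod_cast hinn b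
    exact h2.trans_lt (hcon _)
  have h2 : ∑ _x ∈ T, δ / 2 * (B.card : ℝ) ≤ ∑ x ∈ T, ((C.filter fun c => c - x ∈ B).card : ℝ) := sum_le_sum hlow
  have h3 : ∑ b ∈ B, ((C.filter fun c => c - b ∈ T).card : ℝ) = ∑ x ∈ T, ((C.filter fun c => c - x ∈ B).card : ℝ) := by
    exact_mod_cast hcount
  rw [sum_const, nsmul_eq_mul] at h1 h2
  linarith

/-- **The criterion.** -/
theorem criterion (A B S : Finset G) (t : G) (δ : ℝ) (hδ : 0 < δ) (hB : B.Nonempty) (hS : S.Nonempty) (l : ℕ)
    (hl : (Fintype.card G : ℝ) < S.card * 4 ^ l)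
    (hper : ∀ s ∈ S, ∀ s' ∈ S, (out B (s - s') : ℝ) ≤ δ * B.card / (2 * (l + 1)))
    (hA : δ * B.card ≤ inn A B t) (D : ℕ)
    (hD : 24 * Real.log (Fintype.card G / S.card) + 1536 / δ ^ 2 + 6 ≤ D) :
    ∃ Γ : Finset (AddChar G ℂ),
      (Γ.card : ℝ) ≤ 32 * Real.log (Fintype.card G / S.card) + 128 / δ ^ 2 ∧
      ∀ x : G, (∀ χ ∈ Γ, aa (χ x) ≤ 1 / (4 * D)) →
        ∃ a₁ ∈ A, ∃ a₂ ∈ A, ∃ a₃ ∈ A, ∃ a₄ ∈ A, x = a₁ + a₂ - a₃ - a₄ := by
  classical
  have hSpos : (0 : ℝ) < S.card := by exact_mod_cast hS.card_pos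
  obtain ⟨Λ, hΛc, hΛ⟩ := spec_control S hS
  obtain ⟨L, hL⟩ : ∃ L : ℝ, L = Real.log (Fintype.card G / S.card) := ⟨_, rfl⟩
  rw [← hL] at hD hΛc ⊢
  obtain ⟨d, hd⟩ : ∃ d : ℝ, d = (Λ.card : ℝ) := ⟨_, rfl⟩
  have hd0 : 0 ≤ d := by rw [hd]; exact Nat.cast_nonneg _
  rw [← hd] at hΛc
  obtain ⟨ρ, hρ⟩ : ∃ ρ : ℝ, ρ = 1 / (16 * (d + 1)) := ⟨_, rfl⟩
  have hρ0 : 0 < ρ := by rw [hρ]; positivity
  obtain ⟨q, hq⟩ : ∃ q : ℕ, q = ⌈512 / δ ^ 2⌉₊ := ⟨_, rfl⟩
  have hq1 : 512 / δ ^ 2 ≤ q := by rw [hq]; exact Nat.le_ceil _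
  have hq2 : (q : ℝ) < 512 / δ ^ 2 + 1 := by rw [hq]; exact Nat.ceil_lt_add_one (by positivity)
  have hq0 : (0 : ℝ) < q := lt_of_lt_of_le (by positivity) hq1
  obtain ⟨Γ, hΓc, hΓ⟩ := local_main Λ ρ hρ0 A (δ / 2) (by positivity) (by
    intro r hr1 hr2
    apply averaging A B (TT Λ r) t δ hB hA
    intro x hx
    have h1 : FF S (l + 1) x ≠ 0 := by
      apply FF_ne_zero S hS l hl x
      intro χ hχ
      have h2 := hΛ r x hx χ hχ
      have h3 : aa (χ x) ≤ 1 / 8 := by
        refine h2.trans ?_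
        rw [← hd]
        calc d * r ≤ (d + 1) * (2 * ρ) := by
              have : 0 ≤ r := by linarith
              nlinarith
          _ = 1 / 8 := by rw [hρ]; field_simp; norm_num
      have := re_ge_of_aa _ (nc χ x) h3
      linarith
    have h2 := out_le S B _ hper (l + 1) x h1
    refine h2.trans (le_of_eq ?_)
    push_cast
    field_simp) q (by
    refine le_trans (le_of_eq ?_) hq1
    field_simp
    norm_num)
  rw [← hd] at hΓ
  refine ⟨(Λ ×ˢ range 4).image (fun p => p.1 ^ (D ^ p.2)) ∪ Γ, ?_, ?_⟩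
  · have h1 : ((Λ ×ˢ range 4).image (fun p => p.1 ^ (D ^ p.2)) ∪ Γ).card ≤ Λ.card * 4 + Γ.card := by
      refine (card_union_le _ _).trans ?_
      apply Nat.add_le_add_right
      refine card_image_le.trans ?_
      rw [card_product, card_range]
    have h2 : (((Λ ×ˢ range 4).image (fun p => p.1 ^ (D ^ p.2)) ∪ Γ).card : ℝ) ≤ d * 4 + Γ.card := by
      rw [hd]; exact_mod_cast h1
    have h3 : (32 : ℝ) / (δ / 2) ^ 2 = 128 / δ ^ 2 := by field_simp; norm_num
    rw [h3] at hΓc
    linarith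
  · intro x hx
    have hL0 : 0 ≤ L := by
      rw [hL]
      apply Real.log_nonneg
      rw [le_div_iff₀ hSpos, one_mul]
      exact_mod_cast card_le_univ S
    have hδ2 : (0 : ℝ) < 1536 / δ ^ 2 := by positivity
    have hD6 : (6 : ℝ) ≤ D := by linarith
    have hD0 : (0 : ℝ) < D := by linarith
    have hDn : 1 ≤ D := by
      have : (1 : ℝ) ≤ D := by linarith
      exact_mod_cast this
    have e1536 : (1536 : ℝ) / δ ^ 2 = 3 * (512 / δ ^ 2) := by ring
    have hDd : 3 * (d + 1) ≤ D := by linarith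
    have hDq : 3 * (q : ℝ) ≤ D := by linarith
    apply hΓ x
    · rw [mem_TT]
      intro χ hχ
      have h1 : aa (χ x) ≤ 1 / (4 * (D : ℝ) ^ 4) := by
        apply boost _ (nc χ x) D hDn
        intro i hi
        have h2 := hx (χ ^ (D ^ i)) (mem_union_left _ (mem_image.mpr ⟨(χ, i),
          mem_product.mpr ⟨hχ, mem_range.mpr hi⟩, rfl⟩))
        rw [AddChar.pow_apply] at h2
        exact h2
      refine h1.trans ?_
      have h2 : ρ / (18 * (d + 1) ^ 2 * q) = 1 / (288 * (d + 1) ^ 3 * q) := by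
        rw [hρ]
        field_simp
        norm_num
      rw [h2]
      apply one_div_le_one_div_of_le (by positivity)
      have h3 : (3 * (d + 1)) ^ 3 ≤ (D : ℝ) ^ 3 := pow_le_pow_left₀ (by positivity) hDd 3
      calc 288 * (d + 1) ^ 3 * (q : ℝ) ≤ 4 * ((3 * (d + 1)) ^ 3 * (3 * q)) := by
            have : (0 : ℝ) ≤ (d + 1) ^ 3 * q := by positivity
            nlinarith
        _ ≤ 4 * ((D : ℝ) ^ 3 * D) := by gcongr
        _ = 4 * (D : ℝ) ^ 4 := by ring
    · rw [mem_TT]
      intro χ hχ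
      refine (hx χ (mem_union_right _ hχ)).trans ?_
      apply one_div_le_one_div_of_le (by norm_num)
      linarith

end Pool.Agent.K4H89.BV
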