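import Pool.Agent.K4H89.BV.Fou

/-!
# The theorem of Croot and Sisask on almost periods
-/

set_option autoImplicit false
set_option linter.unusedSectionVars false

namespace Pool.Agent.K4H89.BV

open Finset
open scoped Pointwise

/-- A moment inequality for sums of independent variables. -/
theorem moment {G : Type} [DecidableEq G] (A : Finset G) (Z : G → ℝ) (hZ1 : ∀ a ∈ A, |Z a| ≤ 1)
    (hZ0 : ∑ a ∈ A, Z a = 0) (v : ℝ) (hv0 : 0 ≤ v) (hv1 : v ≤ 1) (hv : ∑ a ∈ A, Z a ^ 2 ≤ v * A.card) (q k : ℕ)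
    (hq : 1 ≤ q) (hqk : q ≤ k) :
    ∑ c ∈ Fintype.piFinset (fun _ : Fin k => A), (∑ i, Z (c i)) ^ (2 * q) ≤
      (A.card : ℝ) ^ k * (4 * Real.exp 1 * q * k) ^ q * v := by
  have hqR : (0 : ℝ) < q := by exact_mod_cast (by omega : 0 < q)
  have hkR : (0 : ℝ) < k := by exact_mod_cast (by omega : 0 < k)
  obtain ⟨s, hs⟩ : ∃ s : ℝ, s = Real.sqrt (q / k) := ⟨_, rfl⟩
  have hs2 : s ^ 2 = q / k := by rw [hs]; exact Real.sq_sqrt (by positivity)
  have hs0 : 0 < s := by rw [hs]; exact Real.sqrt_pos.mpr (by positivity)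
  have hs1 : s ≤ 1 := by
    have : s ^ 2 ≤ 1 := by
      rw [hs2, div_le_one hkR]
      exact_mod_cast hqk
    nlinarith
  obtain ⟨Ω, hΩ⟩ : ∃ Ω : Finset (Fin k → G), Ω = Fintype.piFinset (fun _ : Fin k => A) := ⟨_, rfl⟩
  have hΩc : (Ω.card : ℝ) = (A.card : ℝ) ^ k := by
    rw [hΩ, Fintype.card_piFinset]
    simp
  rw [← hΩ]
  -- exponential moments
  have hexp : ∀ t : ℝ, |t| = s → ∑ c ∈ Ω, Real.exp (t * ∑ i, Z (c i)) ≤ (A.card : ℝ) ^ k * Real.exp (q * v) := by
    intro t ht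
    have h1 : ∑ c ∈ Ω, Real.exp (t * ∑ i, Z (c i)) = (∑ a ∈ A, Real.exp (t * Z a)) ^ k := by
      have h2 := Finset.prod_univ_sum (fun _ : Fin k => A) (fun _ a => Real.exp (t * Z a))
      rw [prod_const, card_univ, Fintype.card_fin] at h2
      rw [h2, hΩ]
      refine sum_congr rfl fun c _ => ?_
      rw [mul_sum, Real.exp_sum]
    have h2 : ∑ a ∈ A, Real.exp (t * Z a) ≤ A.card * Real.exp (s ^ 2 * v) := by
      have h3 : ∀ a ∈ A, Real.exp (t * Z a) ≤ 1 + t * Z a + s ^ 2 * Z a ^ 2 := by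
        intro a ha
        have h4 : |t * Z a| ≤ 1 := by
          rw [abs_mul, ht]
          have := hZ1 a ha
          have := abs_nonneg (Z a)
          nlinarith
        have h5 := (abs_le.mp (Real.abs_exp_sub_one_sub_id_le h4)).2
        have h6 : (t * Z a) ^ 2 = s ^ 2 * Z a ^ 2 := by
          rw [mul_pow, ← sq_abs t, ht]
        linarith
      calc ∑ a ∈ A, Real.exp (t * Z a) ≤ ∑ a ∈ A, (1 + t * Z a + s ^ 2 * Z a ^ 2) := sum_le_sum h3
        _ = A.card + s ^ 2 * ∑ a ∈ A, Z a ^ 2 := by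
            rw [sum_add_distrib, sum_add_distrib, ← mul_sum, ← mul_sum, hZ0]
            simp
        _ ≤ A.card + s ^ 2 * (v * A.card) := by gcongr
        _ = A.card * (s ^ 2 * v + 1) := by ring
        _ ≤ A.card * Real.exp (s ^ 2 * v) := by
            gcongr
            exact Real.add_one_le_exp _
    rw [h1]
    calc (∑ a ∈ A, Real.exp (t * Z a)) ^ k ≤ (A.card * Real.exp (s ^ 2 * v)) ^ k := by
          apply pow_le_pow_left₀ _ h2
          exact sum_nonneg fun a _ => (Real.exp_pos _).le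
      _ = (A.card : ℝ) ^ k * Real.exp (q * v) := by
          rw [mul_pow, ← Real.exp_nat_mul]
          congr 2
          rw [hs2]
          field_simp
  have h1 := hexp s (abs_of_pos hs0)
  have h2 := hexp (-s) (by rw [abs_neg, abs_of_pos hs0])
  have hcosh : ∑ c ∈ Ω, (Real.cosh (s * ∑ i, Z (c i)) - 1) ≤ (A.card : ℝ) ^ k * (v * Real.exp q) := by
    have h3 : ∑ c ∈ Ω, (Real.cosh (s * ∑ i, Z (c i)) - 1) =
        (∑ c ∈ Ω, Real.exp (s * ∑ i, Z (c i)) + ∑ c ∈ Ω, Real.exp (-s * ∑ i, Z (c i))) / 2 - Ω.card := by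
      rw [sum_sub_distrib, ← sum_add_distrib, sum_div]
      simp only [sum_const, nsmul_eq_mul, mul_one]
      congr 1
      refine sum_congr rfl fun c _ => ?_
      rw [Real.cosh_eq, neg_mul]
    have h4 : Real.exp (q * v) ≤ 1 + v * Real.exp q := by
      have h5 := convexOn_exp.2 (Set.mem_univ (0 : ℝ)) (Set.mem_univ (q : ℝ)) (by linarith : 0 ≤ 1 - v) hv0 (by ring)
      simp only [smul_eq_mul, mul_zero, zero_add, Real.exp_zero, mul_one] at h5
      rw [mul_comm]
      linarith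
    rw [h3, hΩc]
    have h5 : (0 : ℝ) ≤ (A.card : ℝ) ^ k := by positivity
    nlinarith
  have hpow : ∀ y : ℝ, y ^ (2 * q) / ((2 * q).factorial : ℝ) ≤ Real.cosh y - 1 := by
    intro y
    have h3 := Real.hasSum_cosh y
    have h4 := sum_le_hasSum ({0, q} : Finset ℕ) (fun n _ => by
      have : 0 ≤ y ^ (2 * n) := by rw [pow_mul]; positivity
      positivity) h3
    rw [sum_pair (by omega)] at h4
    simp only [mul_zero, pow_zero, Nat.factorial_zero, Nat.cast_one, div_one] at h4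
    linarith
  have h3 : (q / k : ℝ) ^ q / ((2 * q).factorial : ℝ) * ∑ c ∈ Ω, (∑ i, Z (c i)) ^ (2 * q) ≤
      (A.card : ℝ) ^ k * (v * Real.exp q) := by
    refine le_trans ?_ hcosh
    rw [mul_sum]
    refine sum_le_sum fun c _ => ?_
    have h4 := hpow (s * ∑ i, Z (c i))
    refine le_trans (le_of_eq ?_) h4
    rw [mul_pow, pow_mul s 2 q, hs2]
    ring
  have hfac : ((2 * q).factorial : ℝ) ≤ (2 * q : ℝ) ^ (2 * q) := by
    exact_mod_cast Nat.factorial_le_pow (2 * q)
  have hfacpos : (0 : ℝ) < ((2 * q).factorial : ℝ) := by exact_mod_cast Nat.factorial_pos _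
  have hqk0 : (0 : ℝ) < (q / k : ℝ) ^ q := by positivity
  have h4 : ∑ c ∈ Ω, (∑ i, Z (c i)) ^ (2 * q) ≤
      ((2 * q).factorial : ℝ) / (q / k : ℝ) ^ q * ((A.card : ℝ) ^ k * (v * Real.exp q)) := by
    rw [div_mul_eq_mul_div, le_div_iff₀ hqk0]
    rw [div_mul_eq_mul_div, div_le_iff₀ hfacpos] at h3
    linarith
  refine h4.trans ?_
  calc ((2 * q).factorial : ℝ) / (q / k : ℝ) ^ q * ((A.card : ℝ) ^ k * (v * Real.exp q))
      ≤ (2 * q : ℝ) ^ (2 * q) / (q / k : ℝ) ^ q * ((A.card : ℝ) ^ k * (v * Real.exp q)) := by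
        gcongr
    _ = (A.card : ℝ) ^ k * (4 * Real.exp 1 * q * k) ^ q * v := by
        have e1 : Real.exp q = Real.exp 1 ^ q := by rw [← Real.exp_nat_mul, mul_one]
        have e2 : (2 * q : ℝ) ^ (2 * q) / (q / k : ℝ) ^ q = (4 * q * k) ^ q := by
          rw [pow_mul, ← div_pow]
          congr 1
          field_simp
          ring
        rw [e1, e2]
        have e3 : (4 * Real.exp 1 * q * k) ^ q = (4 * q * k) ^ q * Real.exp 1 ^ q := by
          rw [← mul_pow]; congr 1; ring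
        rw [e3]
        ring

variable {G : Type} [AddCommGroup G] [Fintype G] [DecidableEq G]

/-- The average of `f` over the translates of `A`. -/
noncomputable def gg (A : Finset G) (f : G → ℝ) (w : G) : ℝ := (∑ a ∈ A, f (w + a)) / A.card

lemma sum_gg (A : Finset G) (hA : A.Nonempty) (f : G → ℝ) : ∑ w, gg A f w = ∑ w, f w := by
  have hApos : (0 : ℝ) < A.card := by exact_mod_cast hA.card_pos
  unfold gg
  rw [← sum_div, sum_comm, div_eq_iff hApos.ne']
  have h1 : ∀ a ∈ A, ∑ w, f (w + a) = ∑ w, f w := fun a _ => Equiv.sum_comp (Equiv.addRight a) f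
  rw [sum_congr rfl h1, sum_const, nsmul_eq_mul, mul_comm]

/-- **The theorem of Croot and Sisask.** -/
theorem croot (A S : Finset G) (hA : A.Nonempty) (hS : S.Nonempty) (f : G → ℝ) (hf0 : ∀ w, 0 ≤ f w)
    (hf1 : ∀ w, f w ≤ 1) (K : ℝ) (hK : ((A + S).card : ℝ) ≤ K * A.card) (q k : ℕ) (hq : 1 ≤ q) (hqk : q ≤ k) :
    ∃ X ⊆ S, X.Nonempty ∧ (S.card : ℝ) ≤ 2 * K ^ k * X.card ∧
      ∀ x ∈ X, ∀ x' ∈ X, ∑ w, (gg A f (w + x) - gg A f (w + x')) ^ (2 * q) ≤
        2 * (16 * Real.exp 1 * q / k) ^ q * ∑ w, f w := by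
  classical
  have hApos : (0 : ℝ) < A.card := by exact_mod_cast hA.card_pos
  have hSpos : (0 : ℝ) < S.card := by exact_mod_cast hS.card_pos
  have hqR : (0 : ℝ) < q := by exact_mod_cast (by omega : 0 < q)
  have hkR : (0 : ℝ) < k := by exact_mod_cast (by omega : 0 < k)
  obtain ⟨Ω, hΩ⟩ : ∃ Ω : Finset (Fin k → G), Ω = Fintype.piFinset (fun _ : Fin k => A) := ⟨_, rfl⟩
  have hΩc : (Ω.card : ℝ) = (A.card : ℝ) ^ k := by
    rw [hΩ, Fintype.card_piFinset]
    simp
  have hΩpos : (0 : ℝ) < Ω.card := by rw [hΩc]; positivity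
  have hΩne : Ω.Nonempty := by rw [← card_pos]; exact_mod_cast hΩpos
  have hg0 : ∀ w, 0 ≤ gg A f w := by
    intro w
    unfold gg
    exact div_nonneg (sum_nonneg fun a _ => hf0 _) hApos.le
  have hg1 : ∀ w, gg A f w ≤ 1 := by
    intro w
    unfold gg
    rw [div_le_one hApos]
    calc ∑ a ∈ A, f (w + a) ≤ ∑ _a ∈ A, (1 : ℝ) := sum_le_sum fun a _ => hf1 _
      _ = A.card := by simp
  obtain ⟨E, hE⟩ : ∃ E : (Fin k → G) → ℝ, ∀ c, E c = ∑ w, (∑ i, f (w + c i) - k * gg A f w) ^ (2 * q) :=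
    ⟨fun c => _, fun c => rfl⟩
  obtain ⟨W, hW⟩ : ∃ W : ℝ, W = (4 * Real.exp 1 * q * k) ^ q * ∑ w, f w := ⟨_, rfl⟩
  have hW0 : 0 ≤ W := by
    rw [hW]
    exact mul_nonneg (by positivity) (sum_nonneg fun w _ => hf0 w)
  have hsumE : ∑ c ∈ Ω, E c ≤ (A.card : ℝ) ^ k * W := by
    have h1 : ∀ w, ∑ c ∈ Ω, (∑ i, f (w + c i) - k * gg A f w) ^ (2 * q) ≤
        (A.card : ℝ) ^ k * (4 * Real.exp 1 * q * k) ^ q * gg A f w := by
      intro w
      have hsum0 : ∑ a ∈ A, (f (w + a) - gg A f w) = 0 := by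
        rw [sum_sub_distrib, sum_const, nsmul_eq_mul]
        unfold gg
        field_simp
        ring
      have h2 := moment A (fun a => f (w + a) - gg A f w) (by
        intro a _
        rw [abs_le]
        have := hf0 (w + a)
        have := hf1 (w + a)
        have := hg0 w
        have := hg1 w
        constructor <;> linarith) hsum0 (gg A f w) (hg0 w) (hg1 w) (by
        have e1 : ∑ a ∈ A, (f (w + a) - gg A f w) ^ 2 =
            ∑ a ∈ A, f (w + a) ^ 2 - 2 * gg A f w * ∑ a ∈ A, f (w + a) + A.card * gg A f w ^ 2 := by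
          have : ∀ a ∈ A, (f (w + a) - gg A f w) ^ 2 =
              f (w + a) ^ 2 - 2 * gg A f w * f (w + a) + gg A f w ^ 2 := by intro a _; ring
          rw [sum_congr rfl this, sum_add_distrib, sum_sub_distrib, ← mul_sum, sum_const, nsmul_eq_mul]
        have e2 : ∑ a ∈ A, f (w + a) = gg A f w * A.card := by
          unfold gg; field_simp
        have e3 : ∑ a ∈ A, f (w + a) ^ 2 ≤ ∑ a ∈ A, f (w + a) := by
          refine sum_le_sum fun a _ => ?_
          have := hf0 (w + a)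
          have := hf1 (w + a)
          nlinarith
        rw [e1]
        rw [e2] at e3 ⊢
        have := sq_nonneg (gg A f w)
        nlinarith) q k hq hqk
      rw [hΩ]
      refine le_trans (le_of_eq ?_) h2
      refine sum_congr rfl fun c _ => ?_
      congr 1
      rw [sum_sub_distrib, sum_const, card_univ, Fintype.card_fin, nsmul_eq_mul]
    calc ∑ c ∈ Ω, E c = ∑ w, ∑ c ∈ Ω, (∑ i, f (w + c i) - k * gg A f w) ^ (2 * q) := by
          rw [sum_congr rfl fun c _ => hE c, sum_comm]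
      _ ≤ ∑ w, (A.card : ℝ) ^ k * (4 * Real.exp 1 * q * k) ^ q * gg A f w := sum_le_sum fun w _ => h1 w
      _ = (A.card : ℝ) ^ k * W := by
          rw [← mul_sum, sum_gg A hA, hW]
          ring
  -- the good tuples
  obtain ⟨L, hL⟩ : ∃ L : Finset (Fin k → G), L = Ω.filter fun c => E c ≤ 2 * W := ⟨_, rfl⟩
  have hLc : (A.card : ℝ) ^ k / 2 ≤ L.card := by
    by_contra hcon
    push Not at hcon
    have h1 : (L.card : ℝ) + (Ω.filter fun c => ¬ E c ≤ 2 * W).card = Ω.card := by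
      rw [hL]
      exact_mod_cast card_filter_add_card_filter_not (s := Ω) (fun c => E c ≤ 2 * W)
    have h2 : (A.card : ℝ) ^ k / 2 < ((Ω.filter fun c => ¬ E c ≤ 2 * W).card : ℝ) := by
      rw [hΩc] at h1
      linarith
    have hne : (Ω.filter fun c => ¬ E c ≤ 2 * W).Nonempty := by
      rw [← card_pos]
      have : (0 : ℝ) < ((Ω.filter fun c => ¬ E c ≤ 2 * W).card : ℝ) := lt_trans (by positivity) h2
      exact_mod_cast this
    have h3 : ∑ _c ∈ Ω.filter (fun c => ¬ E c ≤ 2 * W), 2 * W < ∑ c ∈ Ω.filter (fun c => ¬ E c ≤ 2 * W), E c := by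
      apply sum_lt_sum_of_nonempty hne
      intro c hc
      rw [mem_filter] at hc
      exact not_le.mp hc.2
    have hE0 : ∀ c, 0 ≤ E c := by
      intro c
      rw [hE]
      refine sum_nonneg fun w _ => ?_
      rw [pow_mul]
      positivity
    have h4 : ∑ c ∈ Ω.filter (fun c => ¬ E c ≤ 2 * W), E c ≤ ∑ c ∈ Ω, E c :=
      sum_le_sum_of_subset_of_nonneg (filter_subset _ _) fun c _ _ => hE0 c
    rw [sum_const, nsmul_eq_mul] at h3
    nlinarith
  -- the pigeonhole principle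
  obtain ⟨V, hV⟩ : ∃ V : Finset (Fin k → G), V = Fintype.piFinset (fun _ : Fin k => A + S) := ⟨_, rfl⟩
  have hVc : (V.card : ℝ) ≤ K ^ k * (A.card : ℝ) ^ k := by
    rw [hV, Fintype.card_piFinset]
    simp only [prod_const, card_univ, Fintype.card_fin]
    push_cast
    rw [← mul_pow]
    gcongr
  have hVne : V.Nonempty := by
    rw [hV, Fintype.piFinset_nonempty]
    exact fun _ => hA.add hS
  have hVpos : (0 : ℝ) < V.card := by exact_mod_cast hVne.card_pos
  have hmaps : ∀ p ∈ L ×ˢ S, (fun i => p.1 i + p.2) ∈ V := by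
    intro p hp
    rw [mem_product] at hp
    rw [hV, Fintype.mem_piFinset]
    intro i
    have h1 : p.1 ∈ Ω := by
      have := hp.1
      rw [hL, mem_filter] at this
      exact this.1
    rw [hΩ, Fintype.mem_piFinset] at h1
    exact add_mem_add (h1 i) hp.2
  obtain ⟨b, hbV, hb⟩ := exists_le_card_fiber_of_nsmul_le_card_of_maps_to (s := L ×ˢ S) (t := V)
    (f := fun p => fun i => p.1 i + p.2) (b := (L.card : ℝ) * S.card / V.card) hmaps hVne (by
      rw [nsmul_eq_mul, card_product]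
      push_cast
      rw [mul_div_cancel₀ _ hVpos.ne'])
  obtain ⟨X, hX⟩ : ∃ X : Finset G, X = S.filter fun s => (fun i => b i - s) ∈ L := ⟨_, rfl⟩
  have hfib : ((L ×ˢ S).filter fun p => (fun i => p.1 i + p.2) = b).card ≤ X.card := by
    apply card_le_card_of_injOn (fun p => p.2)
    · intro p hp
      rw [coe_filter] at hp
      obtain ⟨hp1, hp2⟩ := hp
      rw [mem_product] at hp1
      rw [hX, coe_filter]
      refine ⟨hp1.2, ?_⟩
      have : (fun i => b i - p.2) = p.1 := by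
        funext i
        rw [← hp2]
        change p.1 i + p.2 - p.2 = p.1 i
        abel
      rw [this]
      exact hp1.1
    · intro p hp p' hp' h
      rw [coe_filter] at hp hp'
      have h1 : p.2 = p'.2 := h
      refine Prod.ext ?_ h1
      funext i
      have h2 : p.1 i + p.2 = p'.1 i + p'.2 := congrFun (hp.2.trans hp'.2.symm) i
      rw [h1] at h2
      exact add_right_cancel h2
  have hXc : (L.card : ℝ) * S.card / V.card ≤ X.card := hb.trans (by exact_mod_cast hfib)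
  have hK0 : 0 < K := by
    have h1 : (0 : ℝ) < (A + S).card := by exact_mod_cast (hA.add hS).card_pos
    by_contra hcon
    push Not at hcon
    nlinarith
  have hSX : (S.card : ℝ) ≤ 2 * K ^ k * X.card := by
    rw [div_le_iff₀ hVpos] at hXc
    have h1 : (A.card : ℝ) ^ k / 2 * S.card ≤ X.card * (K ^ k * (A.card : ℝ) ^ k) := by
      calc (A.card : ℝ) ^ k / 2 * S.card ≤ (L.card : ℝ) * S.card := by gcongr
        _ ≤ X.card * V.card := hXc
        _ ≤ X.card * (K ^ k * (A.card : ℝ) ^ k) := by gcongr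
    have h2 : (A.card : ℝ) ^ k * S.card ≤ (A.card : ℝ) ^ k * (2 * K ^ k * X.card) := by linarith
    exact le_of_mul_le_mul_left h2 (by positivity)
  refine ⟨X, by rw [hX]; exact filter_subset _ _, ?_, hSX, ?_⟩
  · rw [← card_pos]
    have : (0 : ℝ) < X.card := by
      by_contra hcon
      push Not at hcon
      have h0 : (X.card : ℝ) = 0 := le_antisymm hcon (Nat.cast_nonneg _)
      rw [h0, mul_zero] at hSX
      linarith
    exact_mod_cast this
  · have hEx : ∀ x ∈ X, ∑ w, (∑ i, f (w + b i) - k * gg A f (w + x)) ^ (2 * q) ≤ 2 * W := by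
      intro x hx
      rw [hX, mem_filter] at hx
      have h1 := hx.2
      rw [hL, mem_filter, hE] at h1
      refine le_trans (le_of_eq ?_) h1.2
      rw [← Equiv.sum_comp (Equiv.addRight x) (fun w => (∑ i, f (w + (b i - x)) - k * gg A f w) ^ (2 * q))]
      refine sum_congr rfl fun w _ => ?_
      simp only [Equiv.coe_addRight]
      congr 2
      refine sum_congr rfl fun i _ => ?_
      congr 1
      abel
    intro x hx x' hx'
    have h1 := hEx x hx
    have h2 := hEx x' hx'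
    have hk2 : (0 : ℝ) < (k : ℝ) ^ (2 * q) := by positivity
    have hpt : ∀ w, (k : ℝ) ^ (2 * q) * (gg A f (w + x) - gg A f (w + x')) ^ (2 * q) ≤
        2 ^ (2 * q) / 2 * ((∑ i, f (w + b i) - k * gg A f (w + x')) ^ (2 * q) +
          (∑ i, f (w + b i) - k * gg A f (w + x)) ^ (2 * q)) := by
      intro w
      obtain ⟨α, hα⟩ : ∃ α : ℝ, α = ∑ i, f (w + b i) - k * gg A f (w + x') := ⟨_, rfl⟩
      obtain ⟨β, hβ⟩ : ∃ β : ℝ, β = ∑ i, f (w + b i) - k * gg A f (w + x) := ⟨_, rfl⟩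
      rw [← hα, ← hβ]
      have h3 : (k : ℝ) ^ (2 * q) * (gg A f (w + x) - gg A f (w + x')) ^ (2 * q) = (α - β) ^ (2 * q) := by
        rw [← mul_pow, hα, hβ]; congr 1; ring
      rw [h3]
      have h4 := (even_two_mul q).convexOn_pow.2 (Set.mem_univ α) (Set.mem_univ (-β)) (by norm_num : (0 : ℝ) ≤ 1 / 2)
        (by norm_num : (0 : ℝ) ≤ 1 / 2) (by norm_num)
      simp only [smul_eq_mul] at h4
      have h5 : (-β) ^ (2 * q) = β ^ (2 * q) := (even_two_mul q).neg_pow β
      rw [h5] at h4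
      have h6 : (α - β) ^ (2 * q) = 2 ^ (2 * q) * (1 / 2 * α + 1 / 2 * -β) ^ (2 * q) := by
        rw [← mul_pow]; congr 1; ring
      rw [h6]
      calc (2 : ℝ) ^ (2 * q) * (1 / 2 * α + 1 / 2 * -β) ^ (2 * q)
          ≤ 2 ^ (2 * q) * (1 / 2 * α ^ (2 * q) + 1 / 2 * β ^ (2 * q)) := by gcongr
        _ = _ := by ring
    have h3 : (k : ℝ) ^ (2 * q) * ∑ w, (gg A f (w + x) - gg A f (w + x')) ^ (2 * q) ≤ 2 ^ (2 * q) * (2 * W) := by
      rw [mul_sum]
      refine (sum_le_sum fun w _ => hpt w).trans ?_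
      rw [← mul_sum, sum_add_distrib]
      have : (0 : ℝ) < 2 ^ (2 * q) := by positivity
      nlinarith
    have h4 : ∑ w, (gg A f (w + x) - gg A f (w + x')) ^ (2 * q) ≤ 2 ^ (2 * q) * (2 * W) / (k : ℝ) ^ (2 * q) := by
      rw [le_div_iff₀ hk2]; linarith
    refine h4.trans (le_of_eq ?_)
    rw [hW, pow_mul, pow_mul]
    have e1 : (16 * Real.exp 1 * q / k : ℝ) ^ q = ((2 : ℝ) ^ 2) ^ q * (4 * Real.exp 1 * q * k) ^ q / ((k : ℝ) ^ 2) ^ q := by
      rw [← mul_pow, ← div_pow]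
      congr 1
      field_simp
      ring
    rw [e1]
    ring

end Pool.Agent.K4H89.BV
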