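import Mathlib

/-!
# Fourier analysis on finite abelian groups

The weights `wt X χ = |∑_{y ∈ X} χ y|²`; Bogolyubov's argument for two sets; a Bessel inequality.
(The arguments of `Pool.Agent.TH858.GP.Two` for `ℤ/N`, written for an arbitrary finite abelian group.)
-/

set_option autoImplicit false
set_option linter.unusedSectionVars false

namespace Pool.Agent.K4H89.BV

open Finset Complex
open scoped Pointwise

variable {G : Type} [AddCommGroup G] [Fintype G] [DecidableEq G]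

lemma nc (χ : AddChar G ℂ) (x : G) : ‖χ x‖ = 1 := AddChar.norm_apply χ x

lemma ch_neg (χ : AddChar G ℂ) (x : G) : χ (-x) = (starRingEnd ℂ) (χ x) := AddChar.map_neg_eq_conj χ x

lemma ch_add (χ : AddChar G ℂ) (x y : G) : χ (x + y) = χ x * χ y := AddChar.map_add_eq_mul χ x y

lemma ch_sub (χ : AddChar G ℂ) (x y : G) : χ (x - y) = χ x * (starRingEnd ℂ) (χ y) := by
  rw [sub_eq_add_neg, ch_add, ch_neg]

lemma ch_zero (χ : AddChar G ℂ) : χ 0 = 1 := AddChar.map_zero_eq_one χ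

lemma ch_inv (χ : AddChar G ℂ) (x : G) : χ⁻¹ x = (starRingEnd ℂ) (χ x) := by
  rw [AddChar.inv_apply, ch_neg]

/-- The weight. -/
noncomputable def wt (X : Finset G) (χ : AddChar G ℂ) : ℝ := ‖∑ y ∈ X, χ y‖ ^ 2

lemma wt_nonneg (X : Finset G) (χ : AddChar G ℂ) : 0 ≤ wt X χ := by unfold wt; positivity

lemma wt_expand (X : Finset G) (χ : AddChar G ℂ) :
    ((wt X χ : ℝ) : ℂ) = ∑ p ∈ X ×ˢ X, χ (p.1 - p.2) := by
  unfold wt
  have h1 : ((‖∑ y ∈ X, χ y‖ ^ 2 : ℝ) : ℂ) =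
      (∑ y ∈ X, χ y) * (starRingEnd ℂ) (∑ y ∈ X, χ y) := by
    rw [Complex.mul_conj, Complex.normSq_eq_norm_sq]
  rw [h1, map_sum, sum_mul_sum, ← sum_product']
  refine sum_congr rfl fun p _ => ?_
  rw [ch_sub]

/-- The number of quadruples. -/
def quad (A B : Finset G) (x : G) : ℕ :=
  (((A ×ˢ A) ×ˢ (B ×ˢ B)).filter fun p => (p.1.1 - p.1.2) + (p.2.1 - p.2.2) + x = 0).card

lemma fourier2 (A B : Finset G) (x : G) :
    ∑ χ : AddChar G ℂ, wt A χ * wt B χ * (χ x).re = Fintype.card G * quad A B x := by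
  have h1 : ∑ χ : AddChar G ℂ, ((wt A χ : ℝ) : ℂ) * ((wt B χ : ℝ) : ℂ) * χ x =
      (Fintype.card G : ℂ) * (quad A B x : ℂ) := by
    calc ∑ χ : AddChar G ℂ, ((wt A χ : ℝ) : ℂ) * ((wt B χ : ℝ) : ℂ) * χ x
        = ∑ χ : AddChar G ℂ, ∑ p ∈ (A ×ˢ A) ×ˢ (B ×ˢ B), χ ((p.1.1 - p.1.2) + (p.2.1 - p.2.2) + x) := by
          refine sum_congr rfl fun χ _ => ?_
          rw [wt_expand, wt_expand, sum_mul_sum, ← sum_product', sum_mul]
          refine sum_congr rfl fun p _ => ?_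
          rw [ch_add, ch_add]
      _ = ∑ p ∈ (A ×ˢ A) ×ˢ (B ×ˢ B), ∑ χ : AddChar G ℂ, χ ((p.1.1 - p.1.2) + (p.2.1 - p.2.2) + x) := sum_comm
      _ = ∑ p ∈ (A ×ˢ A) ×ˢ (B ×ˢ B),
            (if (p.1.1 - p.1.2) + (p.2.1 - p.2.2) + x = 0 then (Fintype.card G : ℂ) else 0) := by
          refine sum_congr rfl fun p _ => ?_
          rw [AddChar.sum_apply_eq_ite]
      _ = (Fintype.card G : ℂ) * (quad A B x : ℂ) := by
          rw [← sum_filter, sum_const, nsmul_eq_mul, mul_comm]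
          rfl
  have h2 := congrArg Complex.re h1
  rw [Complex.re_sum] at h2
  have h3 : ((Fintype.card G : ℂ) * (quad A B x : ℂ)).re = Fintype.card G * quad A B x := by
    rw [← Nat.cast_mul, Complex.natCast_re]; push_cast; rfl
  rw [h3] at h2
  rw [← h2]
  refine sum_congr rfl fun χ _ => ?_
  rw [← Complex.ofReal_mul, Complex.re_ofReal_mul]

lemma wt_zero_set (χ : AddChar G ℂ) : wt ({0} : Finset G) χ = 1 := by
  unfold wt
  rw [sum_singleton, ch_zero]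
  norm_num

lemma quad_zero_set (X : Finset G) : quad X {0} 0 = X.card := by
  unfold quad
  symm
  refine card_bij (fun y _ => ((y, y), ((0 : G), (0 : G)))) ?_ ?_ ?_
  · intro y hy
    simp [hy]
  · intro y _ y' _ h
    exact (Prod.mk.inj (Prod.mk.inj h).1).1
  · rintro ⟨⟨a, b⟩, c, d⟩ h
    simp only [mem_filter, mem_product, mem_singleton, add_zero] at h
    obtain ⟨⟨⟨ha, hb⟩, rfl, rfl⟩, h⟩ := h
    refine ⟨a, ha, ?_⟩
    rw [sub_zero, add_zero, sub_eq_zero] at h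
    rw [h]

lemma sum_wt (X : Finset G) : ∑ χ : AddChar G ℂ, wt X χ = Fintype.card G * X.card := by
  have h := fourier2 X {0} 0
  rw [quad_zero_set] at h
  rw [← h]
  refine sum_congr rfl fun χ _ => ?_
  rw [ch_zero, Complex.one_re, mul_one, wt_zero_set, mul_one]

lemma energy (A B : Finset G) :
    ((A.card : ℝ) * B.card) ^ 2 ≤ ((A + B).card : ℝ) * quad A B 0 := by
  have h1 := Finset.le_card_add_mul_addEnergy A B
  have h2 : quad A B 0 = Finset.addEnergy A B := by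
    unfold quad Finset.addEnergy
    congr 1
    refine filter_congr fun p _ => ?_
    constructor
    · intro h
      have h3 : p.1.1 + p.2.1 - (p.1.2 + p.2.2) = 0 := by rw [← h]; abel
      exact sub_eq_zero.mp h3
    · intro h
      have h3 : p.1.1 + p.2.1 - (p.1.2 + p.2.2) = 0 := sub_eq_zero.mpr h
      have e : p.1.1 - p.1.2 + (p.2.1 - p.2.2) + 0 = p.1.1 + p.2.1 - (p.1.2 + p.2.2) := by abel
      rw [e, h3]
  rw [h2, mul_pow]
  exact_mod_cast h1

lemma mem_of_quad (A B : Finset G) (x : G) (h : 0 < quad A B x) :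
    ∃ a₁ ∈ A, ∃ a₂ ∈ B, ∃ a₃ ∈ A, ∃ a₄ ∈ B, x = a₁ + a₂ - a₃ - a₄ := by
  unfold quad at h
  rw [card_pos] at h
  obtain ⟨p, hp⟩ := h
  rw [mem_filter, mem_product, mem_product, mem_product] at hp
  obtain ⟨⟨⟨h1, h2⟩, h3, h4⟩, h5⟩ := hp
  refine ⟨_, h2, _, h4, _, h1, _, h3, ?_⟩
  have : x = x - ((p.1.1 - p.1.2) + (p.2.1 - p.2.2) + x) := by rw [h5, sub_zero]
  rw [this]; abel

/-- The positivity step of Bogolyubov's argument. -/
lemma bogo (A B : Finset G) (e₀ : ℝ) (he : 0 < e₀) (hA : A.Nonempty) (hB : B.Nonempty)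
    (hen : e₀ * (A.card * (B.card : ℝ) ^ 2) ≤ quad A B 0) (x : G)
    (hx : ∀ χ : AddChar G ℂ, e₀ / 4 * (B.card : ℝ) ^ 2 ≤ wt B χ → 1 / 2 ≤ (χ x).re) : 0 < quad A B x := by
  classical
  have hNpos : (0 : ℝ) < Fintype.card G := by exact_mod_cast Fintype.card_pos
  have hAp : (0 : ℝ) < A.card := by exact_mod_cast hA.card_pos
  have hBp : (0 : ℝ) < B.card := by exact_mod_cast hB.card_pos
  obtain ⟨S, hS⟩ : ∃ S : Finset (AddChar G ℂ), S = univ.filter fun χ => e₀ / 4 * (B.card : ℝ) ^ 2 ≤ wt B χ :=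
    ⟨_, rfl⟩
  have hF := fourier2 A B x
  have hF0 := fourier2 A B 0
  have hF0' : ∑ χ : AddChar G ℂ, wt A χ * wt B χ = Fintype.card G * quad A B 0 := by
    rw [← hF0]
    refine sum_congr rfl fun χ _ => ?_
    rw [ch_zero, Complex.one_re, mul_one]
  have hcomp : ∑ χ ∈ Sᶜ, wt A χ * wt B χ ≤ e₀ / 4 * (B.card : ℝ) ^ 2 * (Fintype.card G * A.card) := by
    calc ∑ χ ∈ Sᶜ, wt A χ * wt B χ ≤ ∑ χ ∈ Sᶜ, wt A χ * (e₀ / 4 * (B.card : ℝ) ^ 2) := by
          refine sum_le_sum fun χ hg => mul_le_mul_of_nonneg_left ?_ (wt_nonneg _ _)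
          rw [mem_compl, hS, mem_filter] at hg
          push Not at hg
          exact (hg (mem_univ χ)).le
      _ ≤ ∑ χ : AddChar G ℂ, wt A χ * (e₀ / 4 * (B.card : ℝ) ^ 2) := by
          refine sum_le_sum_of_subset_of_nonneg (subset_univ _) fun χ _ _ => ?_
          have := wt_nonneg A χ
          positivity
      _ = e₀ / 4 * (B.card : ℝ) ^ 2 * (Fintype.card G * A.card) := by
          rw [← sum_mul, sum_wt]
          ring
  rw [← sum_add_sum_compl S] at hF hF0'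
  have h1 : (1 / 2) * ∑ χ ∈ S, wt A χ * wt B χ ≤ ∑ χ ∈ S, wt A χ * wt B χ * (χ x).re := by
    rw [mul_sum]
    refine sum_le_sum fun χ hg => ?_
    rw [hS, mem_filter] at hg
    have := hx χ hg.2
    have := mul_nonneg (wt_nonneg A χ) (wt_nonneg B χ)
    nlinarith
  have h2 : -∑ χ ∈ Sᶜ, wt A χ * wt B χ ≤ ∑ χ ∈ Sᶜ, wt A χ * wt B χ * (χ x).re := by
    rw [← sum_neg_distrib]
    refine sum_le_sum fun χ _ => ?_
    have h3 : -1 ≤ (χ x).re := by
      have := Complex.abs_re_le_norm (χ x)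
      rw [nc] at this
      exact (abs_le.mp this).1
    have := mul_nonneg (wt_nonneg A χ) (wt_nonneg B χ)
    nlinarith
  have h4 : (Fintype.card G : ℝ) * (e₀ * (A.card * (B.card : ℝ) ^ 2)) ≤ Fintype.card G * quad A B 0 :=
    mul_le_mul_of_nonneg_left hen hNpos.le
  have h5 : (0 : ℝ) < Fintype.card G * (e₀ * (A.card * (B.card : ℝ) ^ 2)) := by positivity
  have h6 : (0 : ℝ) < Fintype.card G * quad A B x := by
    rw [← hF]
    have e1 : e₀ / 4 * (B.card : ℝ) ^ 2 * (Fintype.card G * A.card) =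
      (1 / 4) * (Fintype.card G * (e₀ * (A.card * (B.card : ℝ) ^ 2))) := by ring
    rw [e1] at hcomp
    linarith
  by_contra h
  have h7 : quad A B x = 0 := by omega
  rw [h7, Nat.cast_zero, mul_zero] at h6
  exact lt_irrefl _ h6

/-- The number of points which are moved out of the set. -/
def out (X : Finset G) (x : G) : ℕ := (X.filter fun y => y + x ∉ X).card

lemma out_zero (X : Finset G) : out X 0 = 0 := by
  unfold out
  rw [card_eq_zero, filter_eq_empty_iff]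
  intro y hy
  simp [hy]

lemma out_add (X : Finset G) (x y : G) : out X (x + y) ≤ out X x + out X y := by
  unfold out
  have h1 : (X.filter fun z => z + (x + y) ∉ X) ⊆
      (X.filter fun z => z + x ∉ X) ∪ ((X.filter fun z => z + y ∉ X).image fun z => z - x) := by
    intro z hz
    rw [mem_filter] at hz
    rw [mem_union]
    by_cases h : z + x ∈ X
    · right
      rw [mem_image]
      refine ⟨z + x, ?_, by abel⟩
      rw [mem_filter]
      refine ⟨h, ?_⟩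
      have : z + x + y = z + (x + y) := by abel
      rw [this]; exact hz.2
    · left
      rw [mem_filter]
      exact ⟨hz.1, h⟩
  refine (card_le_card h1).trans ((card_union_le _ _).trans ?_)
  exact Nat.add_le_add_left card_image_le _

lemma out_neg (X : Finset G) (x : G) : out X (-x) = out X x := by
  have key : ∀ x : G, out X x + (X.filter fun y => y + x ∈ X).card = X.card := by
    intro x
    unfold out
    rw [add_comm]
    exact card_filter_add_card_filter_not _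
  have h1 := key x
  have h2 := key (-x)
  have h3 : (X.filter fun y => y + -x ∈ X).card = (X.filter fun y => y + x ∈ X).card := by
    refine card_bij (fun y _ => y + -x) ?_ ?_ ?_
    · intro y hy
      rw [mem_filter] at hy ⊢
      refine ⟨hy.2, ?_⟩
      rw [add_assoc, neg_add_cancel, add_zero]
      exact hy.1
    · intro a _ b _ h
      exact add_right_cancel h
    · intro b hb
      rw [mem_filter] at hb
      refine ⟨b + x, ?_, by abel⟩
      rw [mem_filter]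
      refine ⟨hb.2, ?_⟩
      rw [add_assoc, add_neg_cancel, add_zero]
      exact hb.1
  omega

/-- Almost invariance of a set under a shift. -/
lemma shift (X : Finset G) (χ : AddChar G ℂ) (x : G) :
    ‖∑ y ∈ X, χ y‖ * ‖χ x - 1‖ ≤ 2 * out X x := by
  classical
  obtain ⟨X', hX'⟩ : ∃ X' : Finset G, X' = X.filter fun y => y + x ∈ X := ⟨_, rfl⟩
  have hout : out X x = (X \ X').card := by
    unfold out
    congr 1
    ext y
    rw [mem_filter, mem_sdiff, hX', mem_filter]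
    tauto
  have hsub : X' ⊆ X := by rw [hX']; exact filter_subset _ _
  obtain ⟨X'', hX''⟩ : ∃ X'' : Finset G, X'' = X'.image fun y => y + x := ⟨_, rfl⟩
  have hsub2 : X'' ⊆ X := by
    rw [hX'']
    intro y hy
    rw [mem_image] at hy
    obtain ⟨y', hy', rfl⟩ := hy
    rw [hX', mem_filter] at hy'
    exact hy'.2
  have hcard2 : X''.card = X'.card := by
    rw [hX'']
    exact card_image_of_injective _ (add_left_injective x)
  have e1 : (∑ y ∈ X, χ y) * (χ x - 1) =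
      ∑ y ∈ X \ X', χ (y + x) - ∑ y ∈ X \ X'', χ y := by
    have e2 : ∑ y ∈ X, χ (y + x) = ∑ y ∈ X \ X', χ (y + x) + ∑ y ∈ X', χ (y + x) :=
      (sum_sdiff hsub).symm
    have e3 : ∑ y ∈ X, χ y = ∑ y ∈ X \ X'', χ y + ∑ y ∈ X'', χ y :=
      (sum_sdiff hsub2).symm
    have e4 : ∑ y ∈ X'', χ y = ∑ y ∈ X', χ (y + x) := by
      rw [hX'', sum_image fun a _ b _ h => add_left_injective x h]
    have e5 : (∑ y ∈ X, χ y) * χ x = ∑ y ∈ X, χ (y + x) := by
      rw [sum_mul]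
      refine sum_congr rfl fun y _ => ?_
      rw [← ch_add]
    rw [mul_sub, e5, mul_one, e2, e3, e4]
    ring
  have hn : ∀ (Y : Finset G) (f : G → G), ‖∑ y ∈ Y, χ (f y)‖ ≤ Y.card := by
    intro Y f
    refine (norm_sum_le _ _).trans ?_
    rw [sum_congr rfl fun y _ => nc χ (f y)]
    simp
  rw [← norm_mul, e1]
  refine (norm_sub_le _ _).trans ?_
  have h1 := hn (X \ X') fun y => y + x
  have h2 := hn (X \ X'') fun y => y
  have h3 : (X \ X'').card = (X \ X').card := by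
    rw [card_sdiff_of_subset hsub, card_sdiff_of_subset hsub2, hcard2]
  rw [h3] at h2
  rw [hout]
  linarith

/-- The Bessel inequality for almost orthogonal characters. -/
lemma bessel (B X : Finset G) (Λ : Finset (AddChar G ℂ)) (hBX : B ⊆ X) (τ : ℝ) (hτ : 0 ≤ τ)
    (hΛ : ∀ l ∈ Λ, ∀ l' ∈ Λ, l ≠ l' → ‖∑ y ∈ X, (l * l'⁻¹) y‖ ≤ τ * X.card) :
    ∑ l ∈ Λ, wt B l ≤ B.card * X.card * (1 + τ * Λ.card) := by
  classical
  obtain ⟨c, hc⟩ : ∃ c : AddChar G ℂ → ℂ, c = fun l => ∑ y ∈ B, l y := ⟨_, rfl⟩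
  obtain ⟨S, hS⟩ : ∃ S : ℝ, S = ∑ l ∈ Λ, wt B l := ⟨_, rfl⟩
  have hwt : ∀ l, wt B l = ‖c l‖ ^ 2 := fun l => by rw [hc]; rfl
  obtain ⟨F, hF⟩ : ∃ F : G → ℂ, F = fun y => ∑ l ∈ Λ, (starRingEnd ℂ) (c l) * l y := ⟨_, rfl⟩
  have hS0 : 0 ≤ S := by
    rw [hS]
    exact sum_nonneg fun l _ => wt_nonneg _ _
  rw [← hS]
  have h1 : ((S : ℝ) : ℂ) = ∑ y ∈ B, F y := by
    rw [hS, hF, sum_comm, Complex.ofReal_sum]
    refine sum_congr rfl fun l _ => ?_
    rw [← mul_sum, hwt]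
    have : ∑ y ∈ B, l y = c l := by rw [hc]
    rw [this, mul_comm, Complex.mul_conj, Complex.normSq_eq_norm_sq]
  have h2 : S ≤ ∑ y ∈ B, ‖F y‖ := by
    have : ‖((S : ℝ) : ℂ)‖ = S := by rw [Complex.norm_real, Real.norm_of_nonneg hS0]
    rw [← this, h1]
    exact norm_sum_le _ _
  have h3 : S ^ 2 ≤ B.card * ∑ y ∈ X, ‖F y‖ ^ 2 := by
    calc S ^ 2 ≤ (∑ y ∈ B, ‖F y‖) ^ 2 := pow_le_pow_left₀ hS0 h2 2
      _ ≤ B.card * ∑ y ∈ B, ‖F y‖ ^ 2 := sq_sum_le_card_mul_sum_sq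
      _ ≤ B.card * ∑ y ∈ X, ‖F y‖ ^ 2 := by
          refine mul_le_mul_of_nonneg_left ?_ (Nat.cast_nonneg _)
          exact sum_le_sum_of_subset_of_nonneg hBX fun y _ _ => by positivity
  have h4 : ∑ y ∈ X, ‖F y‖ ^ 2 ≤ X.card * (1 + τ * Λ.card) * S := by
    have e1 : ((∑ y ∈ X, ‖F y‖ ^ 2 : ℝ) : ℂ) =
        ∑ l ∈ Λ, ∑ l' ∈ Λ, (starRingEnd ℂ) (c l) * c l' * ∑ y ∈ X, (l * l'⁻¹) y := by
      have e2 : ∀ y, ((‖F y‖ ^ 2 : ℝ) : ℂ) = ∑ l ∈ Λ, ∑ l' ∈ Λ, (starRingEnd ℂ) (c l) * c l' * (l * l'⁻¹) y := by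
        intro y
        rw [← Complex.normSq_eq_norm_sq, ← Complex.mul_conj, hF]
        simp only [map_sum]
        rw [sum_mul_sum]
        refine sum_congr rfl fun l _ => sum_congr rfl fun l' _ => ?_
        rw [map_mul, Complex.conj_conj, AddChar.mul_apply, ch_inv]
        ring
      rw [Complex.ofReal_sum, sum_congr rfl fun y _ => e2 y, sum_comm]
      refine sum_congr rfl fun l _ => ?_
      rw [sum_comm]
      refine sum_congr rfl fun l' _ => ?_
      rw [mul_sum]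
    have e3 : (∑ y ∈ X, ‖F y‖ ^ 2 : ℝ) ≤ ∑ l ∈ Λ, ∑ l' ∈ Λ, ‖c l‖ * ‖c l'‖ * ‖∑ y ∈ X, (l * l'⁻¹) y‖ := by
      have h0 : 0 ≤ (∑ y ∈ X, ‖F y‖ ^ 2 : ℝ) := sum_nonneg fun y _ => by positivity
      have : ‖((∑ y ∈ X, ‖F y‖ ^ 2 : ℝ) : ℂ)‖ = ∑ y ∈ X, ‖F y‖ ^ 2 := by
        rw [Complex.norm_real, Real.norm_of_nonneg h0]
      rw [← this, e1]
      refine (norm_sum_le _ _).trans (sum_le_sum fun l _ => (norm_sum_le _ _).trans (sum_le_sum fun l' _ => ?_))
      rw [norm_mul, norm_mul, Complex.norm_conj]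
    have e4 : ∑ l ∈ Λ, ∑ l' ∈ Λ, ‖c l‖ * ‖c l'‖ * ‖∑ y ∈ X, (l * l'⁻¹) y‖ ≤
        ∑ l ∈ Λ, ∑ l' ∈ Λ, (‖c l‖ * ‖c l'‖ * (τ * X.card) + (if l = l' then ‖c l‖ ^ 2 * X.card else 0)) := by
      refine sum_le_sum fun l hl => sum_le_sum fun l' hl' => ?_
      split_ifs with h
      · subst h
        have : ‖∑ y ∈ X, (l * l⁻¹) y‖ ≤ X.card := by
          refine (norm_sum_le _ _).trans ?_
          rw [sum_congr rfl fun y _ => nc _ _]
          simp
        have h5 : 0 ≤ ‖c l‖ * ‖c l‖ * (τ * X.card) := by positivity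
        have h6 : ‖c l‖ * ‖c l‖ * ‖∑ y ∈ X, (l * l⁻¹) y‖ ≤ ‖c l‖ * ‖c l‖ * X.card :=
          mul_le_mul_of_nonneg_left this (by positivity)
        nlinarith
      · rw [add_zero]
        exact mul_le_mul_of_nonneg_left (hΛ l hl l' hl' h) (by positivity)
    have e5 : ∑ l ∈ Λ, ∑ l' ∈ Λ, (‖c l‖ * ‖c l'‖ * (τ * X.card) + (if l = l' then ‖c l‖ ^ 2 * X.card else 0)) =
        (∑ l ∈ Λ, ‖c l‖) ^ 2 * (τ * X.card) + S * X.card := by
      simp_rw [sum_add_distrib]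
      congr 1
      · rw [sq, sum_mul_sum, sum_mul]
        refine sum_congr rfl fun l _ => ?_
        rw [sum_mul]
      · rw [hS, sum_mul]
        refine sum_congr rfl fun l hl => ?_
        rw [sum_ite_eq Λ l, if_pos hl, hwt]
    have e6 : (∑ l ∈ Λ, ‖c l‖) ^ 2 ≤ Λ.card * S := by
      rw [hS, sum_congr rfl fun l _ => hwt l]
      exact sq_sum_le_card_mul_sum_sq
    have e7 : (∑ l ∈ Λ, ‖c l‖) ^ 2 * (τ * X.card) ≤ Λ.card * S * (τ * X.card) :=
      mul_le_mul_of_nonneg_right e6 (by positivity)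
    calc _ ≤ _ := e3.trans e4
      _ = _ := e5
      _ ≤ Λ.card * S * (τ * X.card) + S * X.card := by linarith
      _ = _ := by ring
  rcases hS0.eq_or_lt with h0 | h0
  · rw [← h0]
    positivity
  · have h5 : S * S ≤ (B.card * X.card * (1 + τ * Λ.card)) * S := by
      calc S * S = S ^ 2 := (sq S).symm
        _ ≤ B.card * ∑ y ∈ X, ‖F y‖ ^ 2 := h3
        _ ≤ B.card * (X.card * (1 + τ * Λ.card) * S) := mul_le_mul_of_nonneg_left h4 (Nat.cast_nonneg _)
        _ = _ := by ring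
    exact le_of_mul_le_mul_right h5 h0

lemma norm_hat_inv (X : Finset G) (χ : AddChar G ℂ) : ‖∑ y ∈ X, χ⁻¹ y‖ = ‖∑ y ∈ X, χ y‖ := by
  rw [← Complex.norm_conj (∑ y ∈ X, χ y), map_sum]
  congr 1
  refine sum_congr rfl fun y _ => ?_
  rw [ch_inv]

/-- A maximal family of almost orthogonal characters. -/
lemma exists_maxfam (X : Finset G) (S : Finset (AddChar G ℂ)) (τ : ℝ) :
    ∃ Λ ⊆ S, (∀ l ∈ Λ, ∀ l' ∈ Λ, l ≠ l' → ‖∑ y ∈ X, (l * l'⁻¹) y‖ ≤ τ) ∧
      ∀ γ ∈ S, γ ∈ Λ ∨ ∃ l ∈ Λ, τ < ‖∑ y ∈ X, (γ * l⁻¹) y‖ := by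
  classical
  obtain ⟨T, hT⟩ : ∃ T : Finset (Finset (AddChar G ℂ)), T = S.powerset.filter fun Λ =>
    ∀ l ∈ Λ, ∀ l' ∈ Λ, l ≠ l' → ‖∑ y ∈ X, (l * l'⁻¹) y‖ ≤ τ := ⟨_, rfl⟩
  have hTne : T.Nonempty := by
    refine ⟨∅, ?_⟩
    rw [hT, mem_filter]
    exact ⟨by simp, fun l hl => absurd hl (notMem_empty l)⟩
  obtain ⟨Λ, hΛ, hmax⟩ := exists_max_image T (fun Λ => Λ.card) hTne
  have hΛ' := hΛ
  rw [hT, mem_filter, mem_powerset] at hΛ'
  refine ⟨Λ, hΛ'.1, hΛ'.2, fun γ hγ => ?_⟩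
  by_contra hcon
  push Not at hcon
  obtain ⟨h1, h2⟩ := hcon
  have h3 : insert γ Λ ∈ T := by
    rw [hT, mem_filter, mem_powerset]
    refine ⟨insert_subset hγ hΛ'.1, fun l hl l' hl' hne => ?_⟩
    rw [mem_insert] at hl hl'
    rcases hl with rfl | hl
    · rcases hl' with rfl | hl'
      · exact absurd rfl hne
      · exact h2 l' hl'
    · rcases hl' with rfl | hl'
      · rw [← norm_hat_inv, mul_inv_rev, inv_inv]
        exact h2 l hl
      · exact hΛ'.2 l hl l' hl' hne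
  have h4 := hmax _ h3
  rw [card_insert_of_notMem h1] at h4
  omega

lemma re_ge_half (z : ℂ) (hz : ‖z‖ = 1) (h : ‖z - 1‖ ≤ 1) : 1 / 2 ≤ z.re := by
  have h1 : ‖z - 1‖ ^ 2 = 2 - 2 * z.re := by
    rw [← Complex.normSq_eq_norm_sq, Complex.normSq_apply]
    simp only [Complex.sub_re, Complex.sub_im, Complex.one_re, Complex.one_im, sub_zero]
    have h2 : z.re * z.re + z.im * z.im = 1 := by
      rw [← Complex.normSq_apply, Complex.normSq_eq_norm_sq, hz]; norm_num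
    nlinarith
  have h2 : ‖z - 1‖ ^ 2 ≤ 1 := pow_le_one₀ (norm_nonneg _) h
  linarith

end Pool.Agent.K4H89.BV
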