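import Pool.Agent.K4H89.BV.Boh

/-!
# A local form of Bogolyubov's argument in Bohr sets of finite abelian groups
-/

set_option autoImplicit false
set_option linter.unusedSectionVars false

namespace Pool.Agent.K4H89.BV

open Finset Complex
open scoped Pointwise

variable {G : Type} [AddCommGroup G] [Fintype G] [DecidableEq G]

/-- The number of points of `A` in the translate `y + T`. -/
def inn (A T : Finset G) (y : G) : ℕ := (A.filter fun a => a - y ∈ T).card

lemma sum_inn (A T V : Finset G) (hV : ∀ a ∈ A, ∀ y : G, a - y ∈ T → y ∈ V) :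
    ∑ y ∈ V, inn A T y = A.card * T.card := by
  unfold inn
  have h1 : ∀ y, (A.filter fun a => a - y ∈ T).card = ∑ a ∈ A, if a - y ∈ T then 1 else 0 := by
    intro y; rw [card_filter]
  rw [sum_congr rfl fun y _ => h1 y, sum_comm]
  have h2 : ∀ a ∈ A, ∑ y ∈ V, (if a - y ∈ T then 1 else 0) = T.card := by
    intro a ha
    rw [← card_filter]
    refine card_bij (fun y _ => a - y) ?_ ?_ ?_
    · intro y hy; exact (mem_filter.mp hy).2
    · intro y _ y' _ h; exact sub_right_injective h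
    · intro t ht
      refine ⟨a - t, ?_, by abel⟩
      rw [mem_filter]
      have : a - (a - t) = t := by abel
      rw [this]
      refine ⟨hV a ha _ (by rw [this]; exact ht), ht⟩
  rw [sum_congr rfl h2, sum_const, smul_eq_mul]

/-- The part of `A` in a translate. -/
def cut (A T : Finset G) (y : G) : Finset G := A.filter fun a => a - y ∈ T

lemma card_cut (A T : Finset G) (y : G) : (cut A T y).card = inn A T y := rfl

lemma cut_sub (A T : Finset G) (y : G) : cut A T y ⊆ A := filter_subset _ _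

lemma mem_cut {A T : Finset G} {y a : G} : a ∈ cut A T y ↔ a ∈ A ∧ a - y ∈ T := by
  unfold cut; rw [mem_filter]

/-- `A` is dense in all Bohr sets of radius about `ρ`. -/
theorem local_main (Λ : Finset (AddChar G ℂ)) (ρ : ℝ) (hρ : 0 < ρ) (A : Finset G) (δ : ℝ) (hδ : 0 < δ)
    (hA : ∀ r : ℝ, ρ ≤ r → r ≤ 2 * ρ → ∃ y : G, δ * (TT Λ r : Finset G).card ≤ inn A (TT Λ r) y) (q : ℕ)
    (hq : 128 / δ ^ 2 ≤ q) :
    ∃ Γ : Finset (AddChar G ℂ), (Γ.card : ℝ) ≤ 32 / δ ^ 2 ∧
      ∀ x : G, x ∈ TT Λ (ρ / (18 * ((Λ.card : ℝ) + 1) ^ 2 * q)) → x ∈ TT Γ (1 / 16) →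
        ∃ a₁ ∈ A, ∃ a₂ ∈ A, ∃ a₃ ∈ A, ∃ a₄ ∈ A, x = a₁ + a₂ - a₃ - a₄ := by
  classical
  have hδ2 : 0 < 128 / δ ^ 2 := by positivity
  have hqR : (0 : ℝ) < q := by linarith
  have hq1 : 1 ≤ q := by
    have : 0 < q := by exact_mod_cast hqR
    omega
  obtain ⟨d, hd⟩ : ∃ d : ℝ, d = (Λ.card : ℝ) + 1 := ⟨_, rfl⟩
  have hd1 : 1 ≤ d := by
    rw [hd]
    have : (0 : ℝ) ≤ Λ.card := Nat.cast_nonneg _
    linarith
  rw [← hd]
  -- the two radii
  obtain ⟨r₀, h01, h02, h03⟩ := regular (G := G) Λ ρ hρ 1 le_rfl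
  rw [← hd] at h03
  obtain ⟨ρ₁, hρ₁⟩ : ∃ ρ₁ : ℝ, ρ₁ = ρ / (6 * d) := ⟨_, rfl⟩
  have hρ₁0 : 0 < ρ₁ := by rw [hρ₁]; positivity
  obtain ⟨r₁, h11, h12, h13⟩ := regular (G := G) Λ ρ₁ hρ₁0 q hq1
  rw [← hd] at h13
  obtain ⟨r₂, hr₂⟩ : ∃ r₂ : ℝ, r₂ = ρ₁ / (3 * d * q) := ⟨_, rfl⟩
  rw [← hr₂] at h13
  have hr₂' : ρ / (18 * d ^ 2 * q) = r₂ := by
    rw [hr₂, hρ₁]
    field_simp
    norm_num
  rw [hr₂']
  have hr₂0 : 0 < r₂ := by rw [hr₂]; positivity
  have hr₁0 : 0 < r₁ := by linarith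
  have hr₀0 : 0 < r₀ := by linarith
  have hT0 : (0 : ℝ) < (TT Λ r₀ : Finset G).card := by exact_mod_cast TT_card_pos Λ hr₀0.le
  have hT1 : (0 : ℝ) < (TT Λ r₁ : Finset G).card := by exact_mod_cast TT_card_pos Λ hr₁0.le
  have h01' : ((TT Λ (r₀ + r₁) : Finset G).card : ℝ) ≤ 2 * ((TT Λ r₀ : Finset G).card : ℝ) := by
    have h1 : ((TT Λ (r₀ + r₁) : Finset G).card : ℝ) ≤
        ((TT Λ (r₀ + ρ / (3 * d * ((1 : ℕ) : ℝ))) : Finset G).card : ℝ) := by
      have : (TT Λ (r₀ + r₁) : Finset G) ⊆ TT Λ (r₀ + ρ / (3 * d * ((1 : ℕ) : ℝ))) := by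
        apply TT_mono
        have : ρ / (3 * d * ((1 : ℕ) : ℝ)) = 2 * ρ₁ := by
          rw [hρ₁]; push_cast; field_simp; norm_num
        rw [this]
        linarith
      exact_mod_cast card_le_card this
    push_cast at h03 h1
    linarith
  -- the first piece
  obtain ⟨y, hy⟩ := hA r₀ h01 h02
  obtain ⟨A₁, hA₁⟩ : ∃ A₁ : Finset G, A₁ = cut A (TT Λ r₀) y := ⟨_, rfl⟩
  have hA₁c : δ * ((TT Λ r₀ : Finset G).card : ℝ) ≤ A₁.card := by
    rw [hA₁, card_cut]; exact hy
  have hA₁pos : (0 : ℝ) < A₁.card := lt_of_lt_of_le (by positivity) hA₁c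
  have hA₁sub : A₁ ⊆ A := by rw [hA₁]; exact cut_sub _ _ _
  -- the second piece
  obtain ⟨V, hV⟩ : ∃ V : Finset G, V = (TT Λ (r₀ + r₁)).image fun z => y + z := ⟨_, rfl⟩
  have hVc : V.card = (TT Λ (r₀ + r₁) : Finset G).card := by
    rw [hV]; exact card_image_of_injective _ (add_right_injective y)
  have hVmem : ∀ a ∈ A₁, ∀ z : G, a - z ∈ TT Λ r₁ → z ∈ V := by
    intro a ha z hz
    rw [hA₁, mem_cut] at ha
    rw [hV, mem_image]
    refine ⟨z - y, ?_, by abel⟩
    have h1 := add_mem_TT ha.2 (neg_mem_TT hz)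
    have h2 : a - y + -(a - z) = z - y := by abel
    rw [h2] at h1
    exact h1
  have hsum := sum_inn A₁ (TT Λ r₁) V hVmem
  obtain ⟨b, hbV, hb⟩ : ∃ b ∈ V, δ / 2 * ((TT Λ r₁ : Finset G).card : ℝ) ≤ inn A₁ (TT Λ r₁) b := by
    by_contra hcon
    push Not at hcon
    have h1 : ∑ z ∈ V, (inn A₁ (TT Λ r₁) z : ℝ) = (A₁.card : ℝ) * (TT Λ r₁ : Finset G).card := by
      exact_mod_cast hsum
    have hVne : V.Nonempty := by
      rw [hV]
      exact ⟨y + 0, mem_image_of_mem _ (zero_mem_TT Λ (by linarith))⟩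
    have h2 : ∑ z ∈ V, (inn A₁ (TT Λ r₁) z : ℝ) < ∑ _z ∈ V, δ / 2 * ((TT Λ r₁ : Finset G).card : ℝ) :=
      sum_lt_sum_of_nonempty hVne hcon
    rw [sum_const, nsmul_eq_mul, hVc, h1] at h2
    have h3 : ((TT Λ (r₀ + r₁) : Finset G).card : ℝ) * (δ / 2 * ((TT Λ r₁ : Finset G).card : ℝ)) ≤
        (2 * ((TT Λ r₀ : Finset G).card : ℝ)) * (δ / 2 * ((TT Λ r₁ : Finset G).card : ℝ)) := by
      apply mul_le_mul_of_nonneg_right h01'
      positivity
    have h4 : (2 * ((TT Λ r₀ : Finset G).card : ℝ)) * (δ / 2 * ((TT Λ r₁ : Finset G).card : ℝ)) =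
        (δ * ((TT Λ r₀ : Finset G).card : ℝ)) * (TT Λ r₁ : Finset G).card := by ring
    have h5 : (δ * ((TT Λ r₀ : Finset G).card : ℝ)) * (TT Λ r₁ : Finset G).card ≤
        (A₁.card : ℝ) * (TT Λ r₁ : Finset G).card := by
      apply mul_le_mul_of_nonneg_right hA₁c hT1.le
    linarith
  obtain ⟨A₂, hA₂⟩ : ∃ A₂ : Finset G, A₂ = cut A₁ (TT Λ r₁) b := ⟨_, rfl⟩
  have hA₂c : δ / 2 * ((TT Λ r₁ : Finset G).card : ℝ) ≤ A₂.card := by
    rw [hA₂, card_cut]; exact hb
  have hA₂pos : (0 : ℝ) < A₂.card := lt_of_lt_of_le (by positivity) hA₂c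
  have hA₂sub : A₂ ⊆ A := by rw [hA₂]; exact (cut_sub _ _ _).trans hA₁sub
  -- the energy
  have hsumset : ((A₁ + A₂).card : ℝ) ≤ 2 / δ * A₁.card := by
    have h1 : A₁ + A₂ ⊆ (TT Λ (r₀ + r₁)).image fun z => (y + b) + z := by
      intro z hz
      rw [mem_add] at hz
      obtain ⟨a, ha, a', ha', rfl⟩ := hz
      rw [hA₁, mem_cut] at ha
      rw [hA₂, mem_cut] at ha'
      rw [mem_image]
      refine ⟨(a - y) + (a' - b), add_mem_TT ha.2 ha'.2, by abel⟩
    have h2 : (A₁ + A₂).card ≤ (TT Λ (r₀ + r₁) : Finset G).card :=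
      (card_le_card h1).trans card_image_le
    have h3 : ((A₁ + A₂).card : ℝ) ≤ ((TT Λ (r₀ + r₁) : Finset G).card : ℝ) := by exact_mod_cast h2
    have h4 : 2 * ((TT Λ r₀ : Finset G).card : ℝ) ≤ 2 / δ * A₁.card := by
      rw [div_mul_eq_mul_div, le_div_iff₀ hδ]
      linarith
    linarith
  have hen : δ / 2 * ((A₁.card : ℝ) * (A₂.card : ℝ) ^ 2) ≤ quad A₁ A₂ 0 := by
    have h1 := energy A₁ A₂
    have h2 : ((A₁.card : ℝ) * A₂.card) ^ 2 ≤ (2 / δ * A₁.card) * quad A₁ A₂ 0 :=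
      h1.trans (mul_le_mul_of_nonneg_right hsumset (Nat.cast_nonneg _))
    have h3 : (2 / δ * (A₁.card : ℝ)) * (δ / 2 * ((A₁.card : ℝ) * (A₂.card : ℝ) ^ 2)) =
        ((A₁.card : ℝ) * A₂.card) ^ 2 := by
      field_simp
    rw [← h3] at h2
    exact le_of_mul_le_mul_left h2 (by positivity)
  -- the spectrum
  obtain ⟨X, hX⟩ : ∃ X : Finset G, X = (TT Λ r₁).image fun z => b + z := ⟨_, rfl⟩
  have hXc : X.card = (TT Λ r₁ : Finset G).card := by
    rw [hX]; exact card_image_of_injective _ (add_right_injective b)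
  have hA₂X : A₂ ⊆ X := by
    intro a ha
    rw [hA₂, mem_cut] at ha
    rw [hX, mem_image]
    exact ⟨a - b, ha.2, by abel⟩
  have hX0 : (0 : ℝ) < X.card := by rw [hXc]; exact hT1
  obtain ⟨τ, hτ⟩ : ∃ τ : ℝ, τ = δ ^ 2 / 32 := ⟨_, rfl⟩
  have hτ0 : 0 < τ := by rw [hτ]; positivity
  obtain ⟨S, hS⟩ : ∃ S : Finset (AddChar G ℂ),
    S = univ.filter fun χ => (δ / 2) / 4 * (A₂.card : ℝ) ^ 2 ≤ wt A₂ χ := ⟨_, rfl⟩
  obtain ⟨Γ, hΓS, hΓ1, hΓ2⟩ := exists_maxfam X S (τ * X.card)
  refine ⟨Γ, ?_, ?_⟩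
  · have h1 := bessel A₂ X Γ hA₂X τ hτ0.le hΓ1
    have h2 : (Γ.card : ℝ) * ((δ / 2) / 4 * (A₂.card : ℝ) ^ 2) ≤ ∑ l ∈ Γ, wt A₂ l := by
      rw [← nsmul_eq_mul, ← sum_const]
      refine sum_le_sum fun l hl => ?_
      have := hΓS hl
      rw [hS, mem_filter] at this
      exact this.2
    have h3 : (Γ.card : ℝ) * (δ / 8 * A₂.card) ≤ X.card * (1 + τ * Γ.card) := by
      have : ((Γ.card : ℝ) * (δ / 8 * A₂.card)) * A₂.card ≤ (X.card * (1 + τ * Γ.card)) * A₂.card := by
        linarith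
      exact le_of_mul_le_mul_right this hA₂pos
    have h4 : (Γ.card : ℝ) * (δ / 8 * (δ / 2 * X.card)) ≤ (Γ.card : ℝ) * (δ / 8 * A₂.card) := by
      rw [hXc]
      gcongr
    have h5 : ((Γ.card : ℝ) * (δ / 8 * (δ / 2))) * X.card ≤ (1 + τ * Γ.card) * X.card := by linarith
    have h6 := le_of_mul_le_mul_right h5 hX0
    rw [hτ] at h6
    rw [le_div_iff₀ (by positivity)]
    linarith
  · intro x hx hxΓ
    have hpos : 0 < quad A₁ A₂ x := by
      apply bogo A₁ A₂ (δ / 2) (by positivity) (by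
        rw [← card_pos]; exact_mod_cast hA₁pos) (by
        rw [← card_pos]; exact_mod_cast hA₂pos) hen
      intro χ hχ
      apply re_ge_half _ (nc χ x)
      have hl : ∀ l ∈ Γ, ‖l x - 1‖ ≤ 1 / 2 := by
        intro l hl
        rw [mem_TT] at hxΓ
        refine (norm_sub_one_le _ (nc l x)).trans ?_
        have h1 := Real.pi_lt_d2
        have h2 := Real.pi_pos
        calc 2 * Real.pi * aa (l x) ≤ 2 * Real.pi * (1 / 16) := mul_le_mul_of_nonneg_left (hxΓ l hl) (by positivity)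
          _ ≤ 1 / 2 := by linarith
      have hχS : χ ∈ S := by rw [hS, mem_filter]; exact ⟨mem_univ _, hχ⟩
      rcases hΓ2 χ hχS with h | ⟨l, hlΓ, hlt⟩
      · exact (hl χ h).trans (by norm_num)
      · -- the character χ l⁻¹ is nearly one at x
        have h1 := shift X (χ * l⁻¹) x
        have hout : (out X x : ℝ) * q ≤ X.card := by
          have h2 : out X x + (TT Λ r₁ : Finset G).card ≤ (TT Λ (r₁ + r₂) : Finset G).card := by
            have h3 : out X x = (((X.filter fun z => z + x ∉ X).image fun z => z + x - b)).card := by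
              unfold out
              rw [card_image_of_injective]
              intro z z' h
              have h4 : z + x - b = z' + x - b := h
              exact add_right_cancel (sub_left_injective h4)
            rw [h3, ← card_union_of_disjoint]
            · apply card_le_card
              intro z hz
              rw [mem_union, mem_image] at hz
              rcases hz with ⟨w, hw, rfl⟩ | hz
              · rw [mem_filter, hX, mem_image] at hw
                obtain ⟨⟨t, ht, rfl⟩, -⟩ := hw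
                have : b + t + x - b = t + x := by abel
                rw [this]
                exact add_mem_TT ht hx
              · exact TT_mono Λ (by linarith) hz
            · rw [disjoint_left]
              intro z hz hz'
              rw [mem_image] at hz
              obtain ⟨w, hw, rfl⟩ := hz
              rw [mem_filter] at hw
              apply hw.2
              rw [hX, mem_image]
              exact ⟨w + x - b, hz', by abel⟩
          have h3 : (out X x : ℝ) + (TT Λ r₁ : Finset G).card ≤ (TT Λ (r₁ + r₂) : Finset G).card := by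
            exact_mod_cast h2
          rw [hXc]
          nlinarith
        have h2 : τ * X.card * ‖(χ * l⁻¹) x - 1‖ ≤ 2 * out X x := by
          refine le_trans ?_ h1
          gcongr
        have h3 : ‖(χ * l⁻¹) x - 1‖ ≤ 1 / 2 := by
          have hτq : 4 ≤ τ * q := by
            rw [hτ]
            rw [div_le_iff₀ (by positivity)] at hq
            linarith
          have h4 : (4 * ‖(χ * l⁻¹) x - 1‖) * X.card ≤ 2 * X.card := by
            calc (4 * ‖(χ * l⁻¹) x - 1‖) * X.card ≤ ((τ * q) * ‖(χ * l⁻¹) x - 1‖) * X.card := by gcongr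
              _ = (τ * X.card * ‖(χ * l⁻¹) x - 1‖) * q := by ring
              _ ≤ (2 * out X x) * q := by gcongr
              _ = 2 * (out X x * q) := by ring
              _ ≤ 2 * X.card := by linarith
          have h5 := le_of_mul_le_mul_right h4 hX0
          linarith
        have h4 : χ x - 1 = ((χ * l⁻¹) x - 1) * l x + (l x - 1) := by
          rw [AddChar.mul_apply, ch_inv]
          have : (starRingEnd ℂ) (l x) * l x = 1 := by
            rw [mul_comm, Complex.mul_conj, Complex.normSq_eq_norm_sq, nc]; norm_num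
          linear_combination (-(χ x)) * this
        rw [h4]
        refine (norm_add_le _ _).trans ?_
        rw [norm_mul, nc, mul_one]
        have := hl l hlΓ
        linarith
    obtain ⟨a₁, h1, a₂, h2, a₃, h3, a₄, h4, h5⟩ := mem_of_quad A₁ A₂ x hpos
    exact ⟨a₁, hA₁sub h1, a₂, hA₂sub h2, a₃, hA₁sub h3, a₄, hA₂sub h4, h5⟩

end Pool.Agent.K4H89.BV
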