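import Pool.Agent.K4H89.BV.Cor

/-!
# The main theorem
-/

set_option autoImplicit false
set_option linter.unusedSectionVars false

namespace Pool.Agent.K4H89.BV

open Finset Complex
open scoped Pointwise

variable {G : Type} [AddCommGroup G] [Fintype G] [DecidableEq G]

lemma ch_zsmul (χ : AddChar G ℂ) (j : ℤ) (x : G) : χ (j • x) = ee (j * (Complex.arg (χ x) / (2 * Real.pi))) := by
  have hpi := Real.pi_pos
  have h0 : χ x ≠ 0 := by
    intro h
    have := nc χ x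
    rw [h, norm_zero] at this
    exact zero_ne_one this
  have h1 : χ (j • x) = χ x ^ j := by
    have := AddChar.map_zsmul_eq_zpow χ j x
    exact this
  rw [h1]
  unfold ee
  conv_lhs => rw [← exp_arg (χ x) (nc χ x)]
  rw [← Complex.exp_int_mul]
  congr 1
  have : (2 * Real.pi * (j * (Complex.arg (χ x) / (2 * Real.pi))) : ℝ) = j * Complex.arg (χ x) := by
    field_simp
  rw [this]
  push_cast
  ring

/-- The transition from the function to the Bohr set. -/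
lemma pos_of_bohr (X : Finset G) (hX : X.Nonempty) (h : G → ℝ) (h01 : ∀ z, 0 ≤ h z) (h11 : ∀ z, h z ≤ 1)
    (h0 : 7 / 8 ≤ h 0) (m : ℕ) (hm : 1 ≤ m)
    (hstep : ∀ x ∈ X, ∀ x' ∈ X, ∀ z, |h (z + (x - x')) - h z| ≤ 1 / (8 * m))
    (hsum : ∑ χ : AddChar G ℂ, ‖hh h χ‖ ≤ Fintype.card G * (4 ^ m / 16)) (x : G)
    (hx : ∀ χ : AddChar G ℂ, (X.card : ℝ) ^ 2 / 4 ≤ wt X χ → aa (χ x) ≤ 1 / 32) : 0 < h x := by
  classical
  have hXpos : (0 : ℝ) < X.card := by exact_mod_cast hX.card_pos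
  have hGpos : (0 : ℝ) < Fintype.card G := by exact_mod_cast Fintype.card_pos
  have hmR : (0 : ℝ) < m := by exact_mod_cast (by omega : 0 < m)
  have hnear : ∀ z, |uu X h m z - h z| ≤ 1 / 8 := by
    intro z
    refine (uu_near X hX h _ hstep m z).trans (le_of_eq ?_)
    field_simp
  obtain ⟨c, hc⟩ : ∃ c : AddChar G ℂ → ℂ, ∀ χ, c χ = 1 / (Fintype.card G : ℂ) *
      (hh h χ * ((wt X χ / (X.card : ℝ) ^ 2 : ℝ) : ℂ) ^ m) := ⟨fun χ => _, fun χ => rfl⟩
  have hF : ∀ z, ((uu X h m z : ℝ) : ℂ) = ∑ χ : AddChar G ℂ, c χ * χ z := by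
    intro z
    rw [uu_fourier X hX h m z, mul_sum]
    refine sum_congr rfl fun χ _ => ?_
    rw [hc]
    ring
  obtain ⟨P, hP⟩ : ∃ P : Finset (AddChar G ℂ), P = univ.filter fun χ => (X.card : ℝ) ^ 2 / 4 ≤ wt X χ := ⟨_, rfl⟩
  have htail : ∀ z : G, ‖∑ χ ∈ Pᶜ, c χ * χ z‖ ≤ 1 / 16 := by
    intro z
    calc ‖∑ χ ∈ Pᶜ, c χ * χ z‖ ≤ ∑ χ ∈ Pᶜ, ‖c χ * χ z‖ := norm_sum_le _ _
      _ ≤ ∑ χ ∈ Pᶜ, (1 / Fintype.card G * (1 / 4) ^ m) * ‖hh h χ‖ := by
          refine sum_le_sum fun χ hχ => ?_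
          rw [mem_compl, hP, mem_filter] at hχ
          push Not at hχ
          have h1 := hχ (mem_univ χ)
          have h2 : wt X χ / (X.card : ℝ) ^ 2 ≤ 1 / 4 := by
            rw [div_le_iff₀ (by positivity)]
            linarith
          have h3 : 0 ≤ wt X χ / (X.card : ℝ) ^ 2 := div_nonneg (wt_nonneg _ _) (by positivity)
          rw [norm_mul, nc, mul_one, hc, norm_mul, norm_mul, norm_div, norm_one, Complex.norm_natCast, norm_pow,
            Complex.norm_real, Real.norm_of_nonneg h3]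
          have h4 : (wt X χ / (X.card : ℝ) ^ 2) ^ m ≤ (1 / 4) ^ m := pow_le_pow_left₀ h3 h2 m
          calc 1 / (Fintype.card G : ℝ) * (‖hh h χ‖ * (wt X χ / (X.card : ℝ) ^ 2) ^ m)
              ≤ 1 / (Fintype.card G : ℝ) * (‖hh h χ‖ * (1 / 4) ^ m) := by gcongr
            _ = _ := by ring
      _ ≤ ∑ χ : AddChar G ℂ, (1 / Fintype.card G * (1 / 4) ^ m) * ‖hh h χ‖ := by
          refine sum_le_sum_of_subset_of_nonneg (subset_univ _) fun χ _ _ => by positivity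
      _ = (1 / Fintype.card G * (1 / 4) ^ m) * ∑ χ : AddChar G ℂ, ‖hh h χ‖ := by rw [mul_sum]
      _ ≤ (1 / Fintype.card G * (1 / 4) ^ m) * (Fintype.card G * (4 ^ m / 16)) := by gcongr
      _ = 1 / 16 := by
          rw [one_div_pow]
          field_simp
  have hmain : ∀ z : G, ((uu X h m z : ℝ) : ℂ) = ∑ χ ∈ P, c χ * χ z + ∑ χ ∈ Pᶜ, c χ * χ z := by
    intro z
    rw [hF, sum_add_sum_compl]
  have hbd : ∀ z : G, ‖∑ χ ∈ P, c χ * χ z‖ ≤ 19 / 16 := by
    intro z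
    have h1 : ∑ χ ∈ P, c χ * χ z = ((uu X h m z : ℝ) : ℂ) - ∑ χ ∈ Pᶜ, c χ * χ z := by rw [hmain]; ring
    rw [h1]
    refine (norm_sub_le _ _).trans ?_
    have h2 : ‖((uu X h m z : ℝ) : ℂ)‖ ≤ 9 / 8 := by
      rw [Complex.norm_real, Real.norm_eq_abs, abs_le]
      have h3 := abs_le.mp (hnear z)
      have := h01 z
      have := h11 z
      constructor <;> linarith
    have := htail z
    linarith
  -- Bernstein
  obtain ⟨θ, hθ⟩ : ∃ θ : AddChar G ℂ → ℝ, ∀ χ, θ χ = Complex.arg (χ x) / (2 * Real.pi) := ⟨fun χ => _, fun χ => rfl⟩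
  have hB := bern P c θ 8 (by norm_num) (by
    intro χ hχ
    rw [hP, mem_filter] at hχ
    have h1 := hx χ hχ.2
    rw [hθ, abs_div, abs_of_pos two_pi_pos']
    refine h1.trans (le_of_eq ?_)
    norm_num) (19 / 16) (by
    intro j
    have h1 := hbd (j • x)
    refine le_trans (le_of_eq ?_) h1
    congr 1
    refine sum_congr rfl fun χ _ => ?_
    rw [ch_zsmul, hθ])
  have hexp : Real.exp (2 * Real.pi / (3 * ((8 : ℕ) : ℝ))) ≤ 1.356 := by
    have h1 := Real.pi_lt_d2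
    have hpi := Real.pi_pos
    have h2 : 2 * Real.pi / (3 * ((8 : ℕ) : ℝ)) ≤ 0.2625 := by
      push_cast
      rw [div_le_iff₀ (by norm_num)]
      linarith
    have h3 : Real.exp (2 * Real.pi / (3 * ((8 : ℕ) : ℝ))) ≤ Real.exp 0.2625 := Real.exp_le_exp.mpr h2
    have h4 := Real.add_one_le_exp (-0.2625 : ℝ)
    have h5 : Real.exp 0.2625 * Real.exp (-0.2625 : ℝ) = 1 := by rw [← Real.exp_add]; norm_num
    have h6 : Real.exp 0.2625 * 0.7375 ≤ 1 := by
      rw [← h5]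
      have : (0.7375 : ℝ) ≤ Real.exp (-0.2625 : ℝ) := by linarith
      gcongr
    linarith
  have hB2 : ‖∑ χ ∈ P, c χ * χ x - ∑ χ ∈ P, c χ * χ 0‖ ≤ 0.423 := by
    have h1 : ∑ χ ∈ P, c χ * χ x - ∑ χ ∈ P, c χ * χ 0 = ∑ χ ∈ P, c χ * (ee (θ χ) - 1) := by
      rw [← sum_sub_distrib]
      refine sum_congr rfl fun χ _ => ?_
      have h2 := ch_zsmul χ 1 x
      rw [one_smul, Int.cast_one, one_mul, ← hθ] at h2
      rw [h2, ch_zero]
      ring
    rw [h1]
    refine hB.trans ?_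
    calc (19 / 16 : ℝ) * (Real.exp (2 * Real.pi / (3 * ((8 : ℕ) : ℝ))) - 1) ≤ 19 / 16 * (1.356 - 1) := by gcongr
      _ ≤ 0.423 := by norm_num
  have hfin : ‖((uu X h m x : ℝ) : ℂ) - ((uu X h m 0 : ℝ) : ℂ)‖ ≤ 0.548 := by
    have h1 : ((uu X h m x : ℝ) : ℂ) - ((uu X h m 0 : ℝ) : ℂ) = (∑ χ ∈ P, c χ * χ x - ∑ χ ∈ P, c χ * χ 0) +
        (∑ χ ∈ Pᶜ, c χ * χ x - ∑ χ ∈ Pᶜ, c χ * χ 0) := by
      rw [hmain x, hmain 0]; ring
    rw [h1]
    refine (norm_add_le _ _).trans ?_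
    have h2 := (norm_sub_le (∑ χ ∈ Pᶜ, c χ * χ x) (∑ χ ∈ Pᶜ, c χ * χ 0)).trans (add_le_add (htail x) (htail 0))
    norm_num at h2 hB2 ⊢
    linarith
  rw [← Complex.ofReal_sub, Complex.norm_real, Real.norm_eq_abs, abs_le] at hfin
  have h1 := abs_le.mp (hnear x)
  have h2 := abs_le.mp (hnear 0)
  norm_num at hfin h1 h2 h0 ⊢
  linarith [hfin.1, h1.1, h1.2, h2.1, h2.2]

/-- **The main theorem.** -/
theorem core (A₁ A₂ S F : Finset G) (h1 : A₁.Nonempty) (h2 : A₂.Nonempty) (hS : S.Nonempty) (K : ℝ) (hK : 1 ≤ K)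
    (hF : (F.card : ℝ) ≤ K * A₁.card) (hA₂ : ((A₂ + S).card : ℝ) ≤ K * A₂.card)
    (hpop : 7 / 8 * ((A₁.card : ℝ) * A₂.card) ≤ (((A₁ ×ˢ A₂).filter fun p => p.1 + p.2 ∈ F).card : ℝ)) :
    ∃ Λ : Finset (AddChar G ℂ),
      (Λ.card : ℝ) ≤ 8 * (Real.log (Fintype.card G / S.card) + 8000 * (Real.log (2 * K) + 3) ^ 4) ∧
      ∀ x ∈ TT Λ (1 / (256 * (Real.log (Fintype.card G / S.card) + 8000 * (Real.log (2 * K) + 3) ^ 4))),
        ∃ a₁ ∈ A₁, ∃ a₂ ∈ A₂, x + a₁ + a₂ ∈ F := by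
  classical
  have h1pos : (0 : ℝ) < A₁.card := by exact_mod_cast h1.card_pos
  have h2pos : (0 : ℝ) < A₂.card := by exact_mod_cast h2.card_pos
  have hSpos : (0 : ℝ) < S.card := by exact_mod_cast hS.card_pos
  have hGpos : (0 : ℝ) < Fintype.card G := by exact_mod_cast Fintype.card_pos
  have hlog : 0 < Real.log (2 * K) := Real.log_pos (by linarith)
  obtain ⟨q, hq⟩ : ∃ q : ℕ, q = ⌈Real.log (2 * K)⌉₊ := ⟨_, rfl⟩
  have hq1 : Real.log (2 * K) ≤ q := by rw [hq]; exact Nat.le_ceil _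
  have hq2 : (q : ℝ) < Real.log (2 * K) + 1 := by rw [hq]; exact Nat.ceil_lt_add_one hlog.le
  have hqn : 1 ≤ q := by
    have : (0 : ℝ) < q := by linarith
    have : 0 < q := by exact_mod_cast this
    omega
  have hqR : (1 : ℝ) ≤ q := by exact_mod_cast hqn
  have hexpq : 2 * K ≤ Real.exp q := by
    rw [← Real.log_le_iff_le_exp (by linarith)]
    exact hq1
  obtain ⟨m, hm⟩ : ∃ m : ℕ, m = q + 2 := ⟨_, rfl⟩
  have hmR : (m : ℝ) = q + 2 := by rw [hm]; push_cast; ring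
  have hmpos : (0 : ℝ) < m := by rw [hmR]; linarith
  obtain ⟨k, hk⟩ : ∃ k : ℕ, k = 8000 * q * m ^ 2 := ⟨_, rfl⟩
  have hkR : (k : ℝ) = 8000 * q * m ^ 2 := by rw [hk]; push_cast; ring
  have hqk : q ≤ k := by
    rw [hk]
    have : 1 ≤ m ^ 2 := Nat.one_le_pow _ _ (by omega)
    nlinarith
  obtain ⟨f, hf⟩ : ∃ f : G → ℝ, f = fun w => if w ∈ F then (1 : ℝ) else 0 := ⟨_, rfl⟩
  have hf0 : ∀ w, 0 ≤ f w := by intro w; rw [hf]; dsimp only; split_ifs <;> norm_num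
  have hf1 : ∀ w, f w ≤ 1 := by intro w; rw [hf]; dsimp only; split_ifs <;> norm_num
  have hfs : ∑ w, f w = F.card := by rw [hf]; simp
  obtain ⟨X, hXS, hXne, hXc, hXp⟩ := croot A₂ S h2 hS f hf0 hf1 K hA₂ q k hqn hqk
  have hXpos : (0 : ℝ) < X.card := by exact_mod_cast hXne.card_pos
  obtain ⟨Λ, hΛc, hΛ⟩ := spec_control X hXne
  obtain ⟨D, hD⟩ : ∃ D : ℝ, D = Real.log (Fintype.card G / S.card) + 8000 * (Real.log (2 * K) + 3) ^ 4 := ⟨_, rfl⟩
  rw [← hD]
  have hlogS : 0 ≤ Real.log (Fintype.card G / S.card) := by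
    apply Real.log_nonneg
    rw [le_div_iff₀ hSpos, one_mul]
    exact_mod_cast card_le_univ S
  have hDpos : 0 < D := by rw [hD]; positivity
  have hlogX : Real.log (Fintype.card G / X.card) ≤ D := by
    have e1 : (Fintype.card G : ℝ) / X.card ≤ Fintype.card G / S.card * (2 * K) ^ k := by
      rw [div_mul_eq_mul_div, div_le_div_iff₀ hXpos hSpos]
      have e2 : 2 * K ^ k ≤ (2 * K) ^ k := by
        rw [mul_pow]
        have : (2 : ℝ) ≤ 2 ^ k := by
          calc (2 : ℝ) = 2 ^ 1 := (pow_one 2).symm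
            _ ≤ 2 ^ k := pow_le_pow_right₀ (by norm_num) (by omega)
        gcongr
      calc (Fintype.card G : ℝ) * S.card ≤ Fintype.card G * (2 * K ^ k * X.card) := by gcongr
        _ ≤ Fintype.card G * ((2 * K) ^ k * X.card) := by gcongr
        _ = _ := by ring
    have e3 := Real.log_le_log (by positivity) e1
    rw [Real.log_mul (by positivity) (by positivity), Real.log_pow] at e3
    refine e3.trans ?_
    rw [hD]
    have e4 : (k : ℝ) * Real.log (2 * K) ≤ 8000 * (Real.log (2 * K) + 3) ^ 4 := by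
      rw [hkR]
      have e5 : (m : ℝ) ≤ Real.log (2 * K) + 3 := by rw [hmR]; linarith
      have e6 : (q : ℝ) ≤ Real.log (2 * K) + 3 := by linarith
      have e7 : Real.log (2 * K) ≤ Real.log (2 * K) + 3 := by linarith
      calc 8000 * (q : ℝ) * (m : ℝ) ^ 2 * Real.log (2 * K)
          ≤ 8000 * (Real.log (2 * K) + 3) * (Real.log (2 * K) + 3) ^ 2 * (Real.log (2 * K) + 3) := by gcongr
        _ = _ := by ring
    linarith
  refine ⟨Λ, hΛc.trans (by linarith), ?_⟩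
  intro x hx
  -- the step bound
  have hstep : ∀ x ∈ X, ∀ x' ∈ X, ∀ z, |gg A₁ (gg A₂ f) (z + (x - x')) - gg A₁ (gg A₂ f) z| ≤ 1 / (8 * m) := by
    intro x hx x' hx' z
    apply step_bound A₁ h1 (gg A₂ f) x x' q hqn (1 / (8 * m)) (by positivity)
    refine (hXp x hx x' hx').trans ?_
    rw [hfs]
    have e1 : 16 * Real.exp 1 * q / k = 16 * Real.exp 1 / 8000 / m ^ 2 := by
      rw [hkR]
      field_simp
    have e2 : 2 * K * (16 * Real.exp 1 / 8000 / (m : ℝ) ^ 2) ^ q ≤ (1 / (8 * m)) ^ (2 * q) := by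
      calc 2 * K * (16 * Real.exp 1 / 8000 / (m : ℝ) ^ 2) ^ q
          ≤ Real.exp q * (16 * Real.exp 1 / 8000 / (m : ℝ) ^ 2) ^ q := by gcongr
        _ = (Real.exp 1 * (16 * Real.exp 1 / 8000 / (m : ℝ) ^ 2)) ^ q := by
            rw [mul_pow, ← Real.exp_nat_mul, mul_one]
        _ ≤ ((1 / (8 * m)) ^ 2) ^ q := by
            apply pow_le_pow_left₀ (by positivity)
            have e3 := Real.exp_one_lt_d9
            have e4 := Real.exp_pos 1
            have e5 : Real.exp 1 * (16 * Real.exp 1 / 8000 / (m : ℝ) ^ 2) = (16 * Real.exp 1 ^ 2 / 8000) / m ^ 2 := by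
              ring
            have e6 : (1 / (8 * (m : ℝ))) ^ 2 = (1 / 64) / m ^ 2 := by
              field_simp
              norm_num
            rw [e5, e6]
            have e7 : Real.exp 1 ^ 2 ≤ 7.4 := by nlinarith
            apply div_le_div_of_nonneg_right _ (by positivity)
            linarith
        _ = (1 / (8 * m)) ^ (2 * q) := by rw [pow_mul]
    calc 2 * (16 * Real.exp 1 * q / k) ^ q * (F.card : ℝ)
        = 2 * (16 * Real.exp 1 / 8000 / (m : ℝ) ^ 2) ^ q * F.card := by rw [e1]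
      _ ≤ 2 * (16 * Real.exp 1 / 8000 / (m : ℝ) ^ 2) ^ q * (K * A₁.card) := by gcongr
      _ = (2 * K * (16 * Real.exp 1 / 8000 / (m : ℝ) ^ 2) ^ q) * A₁.card := by ring
      _ ≤ (1 / (8 * m)) ^ (2 * q) * A₁.card := by gcongr
  have hh0 : gg A₁ (gg A₂ f) 0 = (((A₁ ×ˢ A₂).filter fun p => p.1 + p.2 ∈ F).card : ℝ) / (A₁.card * A₂.card) := by
    unfold gg
    rw [card_filter, sum_product]
    push_cast
    rw [← sum_div, div_div, mul_comm (A₁.card : ℝ)]
    congr 1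
    refine sum_congr rfl fun a _ => sum_congr rfl fun b _ => ?_
    rw [hf, zero_add]
  have h78 : 7 / 8 ≤ gg A₁ (gg A₂ f) 0 := by
    rw [hh0, le_div_iff₀ (by positivity)]
    exact hpop
  have hsum : ∑ χ : AddChar G ℂ, ‖hh (gg A₁ (gg A₂ f)) χ‖ ≤ Fintype.card G * (4 ^ m / 16) := by
    rw [hf]
    refine (sum_hh A₁ A₂ F h1 h2 K hF).trans ?_
    gcongr
    have e1 : Real.sqrt K ≤ K := by
      rw [Real.sqrt_le_left (by linarith)]
      nlinarith
    have e2 : Real.exp q ≤ 4 ^ q := by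
      have e3 := Real.exp_one_lt_d9
      calc Real.exp q = Real.exp 1 ^ q := by rw [← Real.exp_nat_mul, mul_one]
        _ ≤ 4 ^ q := pow_le_pow_left₀ (Real.exp_pos 1).le (by linarith) q
    have e3 : (4 : ℝ) ^ m / 16 = 4 ^ q := by
      rw [hm, pow_add]
      norm_num
    rw [e3]
    linarith
  have hpos := pos_of_bohr X hXne (gg A₁ (gg A₂ f)) (fun z => gg_nonneg _ _ (fun w => gg_nonneg _ _ hf0 w) z)
    (fun z => gg_le_one _ h1 _ (fun w => gg_le_one _ h2 _ hf1 w) z) h78 m (by omega) hstep hsum x (by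
      intro χ hχ
      refine (hΛ _ x hx χ hχ).trans ?_
      have e1 : (Λ.card : ℝ) ≤ 8 * D := hΛc.trans (by linarith)
      calc (Λ.card : ℝ) * (1 / (256 * D)) ≤ (8 * D) * (1 / (256 * D)) := by gcongr
        _ = 1 / 32 := by field_simp; norm_num)
  by_contra hcon
  push Not at hcon
  have h0 : gg A₁ (gg A₂ f) x = 0 := by
    unfold gg
    have e1 : ∀ a ∈ A₁, (∑ b ∈ A₂, f (x + a + b)) / (A₂.card : ℝ) = 0 := by
      intro a ha
      have e2 : ∑ b ∈ A₂, f (x + a + b) = 0 := by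
        refine sum_eq_zero fun b hb => ?_
        rw [hf]
        exact if_neg (hcon a ha b hb)
      rw [e2, zero_div]
    rw [sum_congr rfl e1]
    simp
  rw [h0] at hpos
  exact lt_irrefl _ hpos

end Pool.Agent.K4H89.BV
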