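import Pool.Agent.H671S.Packing
import Pool.Agent.K4H89.BV.Fou

/-!
# Packing of translates of a set of bounded VC-dimension
-/

set_option autoImplicit false
set_option linter.unusedSectionVars false

namespace Pool.Agent.K4H89.BV

open Finset
open scoped Pointwise
open Pool.Agent.H671S (avg dif NoShatter card_lt_of_noShatter)

/-- The packing lemma with an explicit number. -/
theorem pack_explicit {X : Type*} {F : Set (Set X)} {k : ℕ} (hF : NoShatter F k) (η : ℝ)
    (hη1 : η ≤ 1) (m : ℕ) (hm : (((m + 1 : ℕ) ^ k + 1 : ℕ) : ℝ) ^ 2 * (1 - η) ^ m < 1)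
    (ι : Type) [Fintype ι] [Nonempty ι] (x : ι → X) (G : Fin ((m + 1) ^ k + 1) → Set X) (hG : ∀ j, G j ∈ F) :
    ∃ i j, i ≠ j ∧ avg (fun l => dif (G i) (G j) (x l)) < η := by
  classical
  by_contra hcon
  push Not at hcon
  have hex : ∃ s : Fin m → ι, ∀ i j, i ≠ j → ∃ l, ¬ (x (s l) ∈ G i ↔ x (s l) ∈ G j) := by
    by_contra hno
    push Not at hno
    have hcov : (Finset.univ : Finset (Fin m → ι)) ⊆
        (Finset.univ.filter fun p : Fin ((m + 1) ^ k + 1) × Fin ((m + 1) ^ k + 1) =>
          p.1 ≠ p.2).biUnion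
        (fun p => Fintype.piFinset fun _ : Fin m =>
          Finset.univ.filter fun l : ι => (x l ∈ G p.1 ↔ x l ∈ G p.2)) := by
      intro s _
      obtain ⟨i, j, hij, h⟩ := hno s
      rw [Finset.mem_biUnion]
      refine ⟨(i, j), by simpa using hij, ?_⟩
      rw [Fintype.mem_piFinset]
      intro l
      simpa using h l
    have hc := (Finset.card_le_card hcov).trans Finset.card_biUnion_le
    have hι : (0 : ℝ) < Fintype.card ι := by
      exact_mod_cast Fintype.card_pos
    have hbound : ∀ p ∈ (Finset.univ.filter fun p : Fin ((m + 1) ^ k + 1) × Fin ((m + 1) ^ k + 1) =>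
          p.1 ≠ p.2), (((Fintype.piFinset fun _ : Fin m =>
          Finset.univ.filter fun l : ι => (x l ∈ G p.1 ↔ x l ∈ G p.2)).card : ℕ) : ℝ)
          ≤ ((1 - η) * Fintype.card ι) ^ m := by
      intro p hp
      rw [Fintype.card_piFinset]
      rw [Finset.prod_const, Finset.card_univ, Fintype.card_fin]
      push_cast
      apply pow_le_pow_left₀ (by positivity)
      have h2 := hcon p.1 p.2 (by simpa using hp)
      unfold avg at h2
      rw [le_div_iff₀ hι] at h2
      have h3 : ∑ l, dif (G p.1) (G p.2) (x l) =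
          (Fintype.card ι : ℝ) - ((Finset.univ.filter fun l : ι =>
            (x l ∈ G p.1 ↔ x l ∈ G p.2)).card : ℝ) := by
        have h4 : ∀ l, dif (G p.1) (G p.2) (x l) =
            1 - (if (x l ∈ G p.1 ↔ x l ∈ G p.2) then (1 : ℝ) else 0) := by
          intro l
          unfold dif
          split_ifs <;> norm_num
        rw [Finset.sum_congr rfl fun l _ => h4 l, Finset.sum_sub_distrib, Finset.sum_boole]
        simp
      rw [h3] at h2
      linarith
    have hc' : ((Fintype.card ι : ℝ)) ^ m ≤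
        ((((m + 1) ^ k + 1 : ℕ) : ℝ)) ^ 2 * ((1 - η) * Fintype.card ι) ^ m := by
      have e1 : ((Finset.univ : Finset (Fin m → ι)).card : ℝ) = (Fintype.card ι : ℝ) ^ m := by
        rw [Finset.card_univ, Fintype.card_fun, Fintype.card_fin]
        push_cast
        rfl
      rw [← e1]
      have hcR : ((Finset.univ : Finset (Fin m → ι)).card : ℝ) ≤
          ∑ p ∈ (Finset.univ.filter fun p : Fin ((m + 1) ^ k + 1) × Fin ((m + 1) ^ k + 1) =>
            p.1 ≠ p.2), (((Fintype.piFinset fun _ : Fin m =>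
            Finset.univ.filter fun l : ι => (x l ∈ G p.1 ↔ x l ∈ G p.2)).card : ℕ) : ℝ) := by
        exact_mod_cast hc
      refine hcR.trans ((Finset.sum_le_sum hbound).trans ?_)
      rw [Finset.sum_const, nsmul_eq_mul]
      apply mul_le_mul_of_nonneg_right
      · have : (Finset.univ.filter fun p : Fin ((m + 1) ^ k + 1) × Fin ((m + 1) ^ k + 1) =>
            p.1 ≠ p.2).card ≤ ((m + 1) ^ k + 1) ^ 2 := by
          refine (Finset.card_filter_le _ _).trans ?_
          rw [Finset.card_univ, Fintype.card_prod, Fintype.card_fin, sq]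
        exact_mod_cast this
      · apply pow_nonneg
        apply mul_nonneg <;> linarith
    rw [mul_pow, ← mul_assoc] at hc'
    have hpos : (0 : ℝ) < (Fintype.card ι : ℝ) ^ m := by positivity
    have : (Fintype.card ι : ℝ) ^ m < (Fintype.card ι : ℝ) ^ m := by
      calc (Fintype.card ι : ℝ) ^ m ≤ _ := hc'
        _ < 1 * (Fintype.card ι : ℝ) ^ m := by
          apply mul_lt_mul_of_pos_right hm hpos
        _ = _ := one_mul _
    exact lt_irrefl _ this
  obtain ⟨s, hs⟩ := hex
  have := card_lt_of_noShatter hF (fun l => x (s l)) G hG hs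
  omega

/-- The choice of the parameter. -/
lemma exists_m (k : ℕ) (hk : 1 ≤ k) (η : ℝ) (hη : 0 < η) (hη1 : η ≤ 1) :
    ∃ m : ℕ, (((m + 1 : ℕ) ^ k + 1 : ℕ) : ℝ) ^ 2 * (1 - η) ^ m < 1 ∧
      (((m + 1 : ℕ) ^ k : ℕ) : ℝ) ≤ (9 * k / η) ^ (2 * k) := by
  have hkR : (1 : ℝ) ≤ k := by exact_mod_cast hk
  obtain ⟨v, hv⟩ : ∃ v : ℝ, v = 8 * k / η := ⟨_, rfl⟩
  have hv8 : 8 * (k : ℝ) ≤ v := by
    rw [hv, le_div_iff₀ hη]
    nlinarith
  obtain ⟨m, hm⟩ : ∃ m : ℕ, m = ⌈v ^ 2⌉₊ := ⟨_, rfl⟩
  have hm1 : v ^ 2 ≤ m := by rw [hm]; exact Nat.le_ceil _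
  have hm2 : (m : ℝ) < v ^ 2 + 1 := by rw [hm]; exact Nat.ceil_lt_add_one (by positivity)
  refine ⟨m, ?_, ?_⟩
  · have hv1 : 8 ≤ v := by linarith
    have h1 : (((m + 1 : ℕ) ^ k + 1 : ℕ) : ℝ) ≤ 2 * ((m : ℝ) + 1) ^ k := by
      push_cast
      have : (1 : ℝ) ≤ ((m : ℝ) + 1) ^ k := one_le_pow₀ (by linarith [sq_nonneg v])
      linarith
    have hs : (m : ℝ) + 1 ≤ Real.exp (Real.sqrt (m + 1)) ^ 2 := by
      have h2 := Real.add_one_le_exp (Real.sqrt ((m : ℝ) + 1))
      have h3 : 0 ≤ Real.sqrt ((m : ℝ) + 1) := Real.sqrt_nonneg _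
      have h4 : Real.sqrt ((m : ℝ) + 1) ^ 2 = (m : ℝ) + 1 := Real.sq_sqrt (by positivity)
      have h5 : Real.sqrt ((m : ℝ) + 1) ≤ Real.exp (Real.sqrt ((m : ℝ) + 1)) := by linarith
      calc (m : ℝ) + 1 = Real.sqrt ((m : ℝ) + 1) ^ 2 := h4.symm
        _ ≤ Real.exp (Real.sqrt ((m : ℝ) + 1)) ^ 2 := pow_le_pow_left₀ h3 h5 2
    obtain ⟨w, hw⟩ : ∃ w : ℝ, w = Real.sqrt ((m : ℝ) + 1) := ⟨_, rfl⟩
    have hw2 : w ^ 2 = (m : ℝ) + 1 := by rw [hw]; exact Real.sq_sqrt (by positivity)
    have hw0 : 0 ≤ w := by rw [hw]; exact Real.sqrt_nonneg _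
    rw [← hw] at hs
    have hvw : v ≤ w := by
      apply le_of_sq_le_sq _ hw0
      rw [hw2]; linarith
    have hw8 : 8 ≤ w := by linarith
    have h2 : (((m + 1 : ℕ) ^ k + 1 : ℕ) : ℝ) ^ 2 ≤ 4 * Real.exp (4 * k * w) := by
      calc (((m + 1 : ℕ) ^ k + 1 : ℕ) : ℝ) ^ 2 ≤ (2 * ((m : ℝ) + 1) ^ k) ^ 2 := by gcongr
        _ = 4 * ((m : ℝ) + 1) ^ (2 * k) := by ring
        _ ≤ 4 * (Real.exp w ^ 2) ^ (2 * k) := by gcongr
        _ = 4 * Real.exp (4 * k * w) := by
            rw [← Real.exp_nat_mul, ← Real.exp_nat_mul]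
            congr 2
            push_cast
            ring
    have h3 : (1 - η) ^ m ≤ Real.exp (-(η * m)) := by
      have h4 := Real.add_one_le_exp (-η)
      calc (1 - η) ^ m ≤ Real.exp (-η) ^ m := pow_le_pow_left₀ (by linarith) (by linarith) m
        _ = Real.exp (-(η * m)) := by rw [← Real.exp_nat_mul]; congr 1; ring
    have h4 : (4 : ℝ) ≤ Real.exp 2 := by
      have h5 := Real.exp_one_gt_d9
      have h6 : Real.exp 2 = Real.exp 1 * Real.exp 1 := by rw [← Real.exp_add]; norm_num
      rw [h6]; nlinarith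
    have h5 : 4 * k * w + 2 < η * m := by
      have h6 : η * v = 8 * k := by rw [hv]; field_simp
      have h8 : η * (m : ℝ) = η * (w * w) - η := by
        have : (m : ℝ) = w * w - 1 := by rw [← sq, hw2]; ring
        rw [this]; ring
      have h9 : 8 * k * w ≤ η * (w * w) := by
        rw [← h6, mul_assoc]
        gcongr
      rw [h8]
      nlinarith
    calc (((m + 1 : ℕ) ^ k + 1 : ℕ) : ℝ) ^ 2 * (1 - η) ^ m
        ≤ (4 * Real.exp (4 * k * w)) * Real.exp (-(η * m)) := by
          apply mul_le_mul h2 h3 (pow_nonneg (by linarith) _) (by positivity)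
      _ ≤ (Real.exp 2 * Real.exp (4 * k * w)) * Real.exp (-(η * m)) := by gcongr
      _ = Real.exp (4 * k * w + 2 - η * m) := by rw [← Real.exp_add, ← Real.exp_add]; congr 1; ring
      _ < 1 := by rw [Real.exp_lt_one_iff]; linarith
  · have h1 : ((m : ℝ) + 1) ≤ (9 * k / η) ^ 2 := by
      have h2 : 9 * (k : ℝ) / η = v + k / η := by rw [hv]; ring
      have h3 : 1 ≤ (k : ℝ) / η := by rw [le_div_iff₀ hη]; linarith
      rw [h2]
      have h4 : 0 ≤ v := by linarith
      nlinarith
    push_cast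
    calc ((m : ℝ) + 1) ^ k ≤ ((9 * k / η) ^ 2) ^ k := by gcongr
      _ = (9 * k / η) ^ (2 * k) := by rw [← pow_mul]

variable {G : Type} [AddCommGroup G] [Fintype G] [DecidableEq G]

/-- `S` is shattered by the translates of `B`. -/
def Shat (B S : Finset G) : Prop := ∀ P ⊆ S, ∃ x : G, ∀ s ∈ S, (s ∈ P ↔ s - x ∈ B)

lemma noShatter (B : Finset G) (k : ℕ) (hk : ∀ S : Finset G, Shat B S → S.card ≤ k) :
    NoShatter {s : Set G | ∃ x : G, s = {y | y - x ∈ B}} (k + 1) := by
  intro A hA
  by_contra hcon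
  push Not at hcon
  have h1 : Shat B A := by
    intro P hP
    obtain ⟨s, ⟨x, rfl⟩, hs⟩ := hcon P hP
    exact ⟨x, fun a ha => hs a ha⟩
  have := hk A h1
  omega

/-- Many translates of `B` are close to each other. -/
theorem many_periods (B X : Finset G) (hB : B.Nonempty) (hX : X.Nonempty) (k : ℕ)
    (hk : ∀ S : Finset G, Shat B S → S.card ≤ k) (η : ℝ) (hη : 0 < η) (hη1 : η ≤ 1) :
    ∃ S ⊆ X, S.Nonempty ∧ (X.card : ℝ) ≤ (9 * ((k : ℝ) + 1) / η) ^ (2 * (k + 1)) * S.card ∧
      ∀ s ∈ S, ∀ s' ∈ S, (out B (s - s') : ℝ) ≤ η * (X + B).card := by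
  classical
  obtain ⟨m, hm1, hm2⟩ := exists_m (k + 1) (by omega) η hη hη1
  obtain ⟨Y, hY⟩ : ∃ Y : Finset G, Y = X + B := ⟨_, rfl⟩
  have hYne : Y.Nonempty := by rw [hY]; exact hX.add hB
  have hYpos : (0 : ℝ) < Y.card := by exact_mod_cast hYne.card_pos
  rw [← hY]
  -- the distance of two translates
  obtain ⟨ds, hds⟩ : ∃ ds : G → G → ℕ, ds = fun x x' => (Y.filter fun y => ¬ (y - x ∈ B ↔ y - x' ∈ B)).card :=
    ⟨_, rfl⟩
  -- a maximal separated set
  obtain ⟨𝒯, h𝒯⟩ : ∃ 𝒯 : Finset (Finset G), 𝒯 = X.powerset.filter fun P =>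
    ∀ p ∈ P, ∀ p' ∈ P, p ≠ p' → η * Y.card ≤ ds p p' := ⟨_, rfl⟩
  have h𝒯ne : 𝒯.Nonempty := by
    refine ⟨∅, ?_⟩
    rw [h𝒯, mem_filter]
    exact ⟨by simp, fun l hl => absurd hl (notMem_empty l)⟩
  obtain ⟨P, hP, hmax⟩ := exists_max_image 𝒯 (fun P => P.card) h𝒯ne
  rw [h𝒯, mem_filter, mem_powerset] at hP
  obtain ⟨hPX, hPsep⟩ := hP
  have hds_comm : ∀ x x', ds x x' = ds x' x := by
    intro x x'
    rw [hds]
    dsimp only
    congr 1
    apply filter_congr
    intro y _
    tauto
  have hds_tri : ∀ x x' x'', ds x x'' ≤ ds x x' + ds x' x'' := by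
    intro x x' x''
    rw [hds]
    dsimp only
    refine (card_le_card ?_).trans (card_union_le _ _)
    intro y hy
    rw [mem_union, mem_filter, mem_filter]
    rw [mem_filter] at hy
    tauto
  -- its size
  have hPc : P.card ≤ (m + 1) ^ (k + 1) := by
    by_contra hcon
    push Not at hcon
    obtain ⟨P', hP'P, hP'c⟩ := exists_subset_card_eq (show (m + 1) ^ (k + 1) + 1 ≤ P.card by omega)
    let e : Fin ((m + 1) ^ (k + 1) + 1) ≃ P' := (finCongr hP'c.symm).trans P'.equivFin.symm
    have : Nonempty Y := hYne.to_subtype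
    obtain ⟨i, j, hij, h⟩ := pack_explicit (noShatter B k hk) η hη1 m hm1 Y (fun y => (y : G))
      (fun i => {y | y - (e i : G) ∈ B}) (fun i => ⟨_, rfl⟩)
    have hne : (e i : G) ≠ e j := by
      intro h'
      exact hij (e.injective (Subtype.ext h'))
    have h1 := hPsep _ (hP'P (e i).2) _ (hP'P (e j).2) hne
    have h2 : avg (fun l : Y => dif {y : G | y - (e i : G) ∈ B} {y | y - (e j : G) ∈ B} (l : G)) =
        ds (e i) (e j) / Y.card := by
      unfold avg
      rw [Fintype.card_coe]
      congr 1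
      rw [hds]
      dsimp only
      rw [card_filter]
      push_cast
      rw [← sum_coe_sort Y]
      refine sum_congr rfl fun y _ => ?_
      unfold dif
      simp only [Set.mem_ofPred_eq]
      by_cases h3 : ((y : G) - (e i : G) ∈ B ↔ (y : G) - (e j : G) ∈ B)
      · rw [if_pos h3, if_neg (not_not.mpr h3)]
      · rw [if_neg h3, if_pos h3]
    rw [h2, div_lt_iff₀ hYpos] at h
    linarith
  -- every element is near one of the maximal set
  have hnear : ∀ x ∈ X, ∃ p ∈ P, (ds x p : ℝ) < η * Y.card ∨ x = p := by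
    intro x hx
    by_contra hcon
    push Not at hcon
    have hxP : x ∉ P := fun h => (hcon x h).2 rfl
    have h3 : insert x P ∈ 𝒯 := by
      rw [h𝒯, mem_filter, mem_powerset]
      refine ⟨insert_subset hx hPX, fun l hl l' hl' hne => ?_⟩
      rw [mem_insert] at hl hl'
      rcases hl with rfl | hl
      · rcases hl' with rfl | hl'
        · exact absurd rfl hne
        · exact (hcon l' hl').1
      · rcases hl' with rfl | hl'
        · rw [hds_comm]
          exact (hcon l hl).1
        · exact hPsep l hl l' hl' hne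
    have h4 := hmax _ h3
    rw [card_insert_of_notMem hxP] at h4
    omega
  have hds0 : ∀ x, ds x x = 0 := by
    intro x
    rw [hds]
    simp
  have hnear' : ∀ x ∈ X, ∃ p ∈ P, (ds x p : ℝ) < η * Y.card := by
    intro x hx
    obtain ⟨p, hp, h | h⟩ := hnear x hx
    · exact ⟨p, hp, h⟩
    · refine ⟨p, hp, ?_⟩
      rw [h, hds0]
      push_cast
      positivity
  choose! f hfP hf using hnear'
  -- pigeonhole
  have hPne : P.Nonempty := by
    obtain ⟨x, hx⟩ := hX
    exact ⟨f x, hfP x hx⟩
  obtain ⟨p, hpP, hp⟩ := exists_le_card_fiber_of_nsmul_le_card_of_maps_to (s := X) (t := P) (f := f)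
    (b := (X.card : ℝ) / P.card) (fun x hx => hfP x hx) hPne (by
      rw [nsmul_eq_mul, mul_div_assoc']
      apply le_of_eq
      have : (P.card : ℝ) ≠ 0 := by
        have := hPne.card_pos
        positivity
      field_simp)
  have hPpos : (0 : ℝ) < P.card := by exact_mod_cast hPne.card_pos
  have hXpos : (0 : ℝ) < X.card := by exact_mod_cast hX.card_pos
  refine ⟨X.filter fun x => f x = p, filter_subset _ _, ?_, ?_, ?_⟩
  · rw [← card_pos]
    have : (0 : ℝ) < ((X.filter fun x => f x = p).card : ℝ) := lt_of_lt_of_le (by positivity) hp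
    exact_mod_cast this
  · rw [div_le_iff₀ hPpos] at hp
    have h1 : (P.card : ℝ) ≤ (9 * ((k : ℝ) + 1) / η) ^ (2 * (k + 1)) := by
      have h2 : (P.card : ℝ) ≤ (((m + 1) ^ (k + 1) : ℕ) : ℝ) := by exact_mod_cast hPc
      refine h2.trans ?_
      push_cast at hm2 ⊢
      exact hm2
    calc (X.card : ℝ) ≤ ((X.filter fun x => f x = p).card : ℝ) * P.card := hp
      _ ≤ ((X.filter fun x => f x = p).card : ℝ) * (9 * ((k : ℝ) + 1) / η) ^ (2 * (k + 1)) := by gcongr
      _ = _ := mul_comm _ _
  · intro s hs s' hs'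
    rw [mem_filter] at hs hs'
    have h1 := hf s hs.1
    have h2 := hf s' hs'.1
    rw [hs.2] at h1
    rw [hs'.2] at h2
    have h3 : (ds s s' : ℝ) ≤ ds s p + ds s' p := by
      have := hds_tri s p s'
      rw [hds_comm p s'] at this
      exact_mod_cast this
    -- the distance is twice the number of points moved out
    have h4 : 2 * out B (s - s') ≤ ds s s' := by
      have e1 : out B (s - s') = (Y.filter fun y => y - s ∈ B ∧ y - s' ∉ B).card := by
        unfold out
        refine card_bij (fun b _ => b + s) ?_ ?_ ?_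
        · intro b hb
          rw [mem_filter] at hb
          rw [mem_filter]
          refine ⟨?_, ?_, ?_⟩
          · rw [hY, add_comm X B]; exact add_mem_add hb.1 hs.1
          · have : b + s - s = b := by abel
            rw [this]; exact hb.1
          · have : b + s - s' = b + (s - s') := by abel
            rw [this]; exact hb.2
        · intro b _ b' _ h
          exact add_right_cancel h
        · intro y hy
          rw [mem_filter] at hy
          refine ⟨y - s, ?_, by abel⟩
          rw [mem_filter]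
          refine ⟨hy.2.1, ?_⟩
          have : y - s + (s - s') = y - s' := by abel
          rw [this]; exact hy.2.2
      have e2 : out B (s - s') = (Y.filter fun y => y - s ∉ B ∧ y - s' ∈ B).card := by
        rw [← out_neg]
        unfold out
        refine card_bij (fun b _ => b + s') ?_ ?_ ?_
        · intro b hb
          rw [mem_filter] at hb
          rw [mem_filter]
          refine ⟨?_, ?_, ?_⟩
          · rw [hY, add_comm X B]; exact add_mem_add hb.1 hs'.1
          · have : b + s' - s = b + -(s - s') := by abel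
            rw [this]; exact hb.2
          · have : b + s' - s' = b := by abel
            rw [this]; exact hb.1
        · intro b _ b' _ h
          exact add_right_cancel h
        · intro y hy
          rw [mem_filter] at hy
          refine ⟨y - s', ?_, by abel⟩
          rw [mem_filter]
          refine ⟨hy.2.2, ?_⟩
          have : y - s' + -(s - s') = y - s := by abel
          rw [this]; exact hy.2.1
      have h5 : (Y.filter fun y => y - s ∈ B ∧ y - s' ∉ B).card + (Y.filter fun y => y - s ∉ B ∧ y - s' ∈ B).card ≤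
          ds s s' := by
        rw [← card_union_of_disjoint]
        · rw [hds]
          apply card_le_card
          intro y hy
          rw [mem_union, mem_filter, mem_filter] at hy
          rw [mem_filter]
          tauto
        · rw [disjoint_left]
          intro y hy hy'
          rw [mem_filter] at hy hy'
          exact hy'.2.1 hy.2.1
      omega
    have h5 : 2 * (out B (s - s') : ℝ) ≤ ds s s' := by exact_mod_cast h4
    linarith

end Pool.Agent.K4H89.BV
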