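import Pool.Agent.K4H89.BV.Mai
import Pool.Agent.K4H89.BV.Cri
import Pool.Agent.K4H89.BV.Pac

/-!
# Sets which are dense in a set with many almost periods
-/

set_option autoImplicit false
set_option linter.unusedSectionVars false

namespace Pool.Agent.K4H89.BV

open Finset Complex
open scoped Pointwise

variable {G : Type} [AddCommGroup G] [Fintype G] [DecidableEq G]

/-- The iterated sumset. -/
def its (S : Finset G) : ℕ → Finset G
  | 0 => {0}
  | n + 1 => its S n + S

lemma its_nonempty (S : Finset G) (hS : S.Nonempty) (n : ℕ) : (its S n).Nonempty := by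
  induction n with
  | zero => exact singleton_nonempty 0
  | succ n ih => exact ih.add hS

lemma its_one (S : Finset G) : its S 1 = S := by
  change ({0} : Finset G) + S = S
  rw [Finset.singleton_zero, zero_add]

lemma out_its (S B : Finset G) (κ : ℝ) (hκ : ∀ s ∈ S, (out B s : ℝ) ≤ κ) (n : ℕ) :
    ∀ x ∈ its S n, (out B x : ℝ) ≤ n * κ := by
  induction n with
  | zero =>
    intro x hx
    have : x = 0 := by simpa [its] using hx
    rw [this, out_zero]
    simp
  | succ n ih =>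
    intro x hx
    unfold its at hx
    rw [mem_add] at hx
    obtain ⟨y, hy, s, hs, rfl⟩ := hx
    have h1 : (out B (y + s) : ℝ) ≤ out B y + out B s := by exact_mod_cast out_add B y s
    have h2 := ih y hy
    have h3 := hκ s hs
    push_cast
    linarith

/-- Some iterated sumset grows slowly. -/
lemma slow (S : Finset G) (J : ℕ) (hcard : (Fintype.card G : ℝ) < S.card * 4 ^ J) :
    ∃ j, 1 ≤ j ∧ j ≤ J ∧ ((its S (j + 1)).card : ℝ) ≤ 4 * (its S j).card := by
  by_contra hcon
  push Not at hcon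
  have key : ∀ j, j ≤ J → (S.card : ℝ) * 4 ^ j ≤ (its S (j + 1)).card := by
    intro j
    induction j with
    | zero => intro _; rw [pow_zero, mul_one, its_one]
    | succ j ih =>
      intro hj
      have h1 := ih (by omega)
      have h2 := hcon (j + 1) (by omega) hj
      rw [pow_succ]
      linarith
  have h1 := key J le_rfl
  have h2 : ((its S (J + 1)).card : ℝ) ≤ Fintype.card G := by exact_mod_cast card_le_univ _
  linarith

/-- **The criterion.** -/
theorem periods_main (A B S : Finset G) (t : G) (δ : ℝ) (hδ : 0 < δ) (hδ1 : δ ≤ 1) (hB : B.Nonempty)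
    (hS : S.Nonempty) (J : ℕ) (hcard : (Fintype.card G : ℝ) < S.card * 4 ^ J)
    (hper : ∀ s ∈ S, ∀ s' ∈ S, (out B (s - s') : ℝ) ≤ δ * B.card / (8 * J))
    (hA : δ * B.card ≤ inn A B t) :
    ∃ Λ : Finset (AddChar G ℂ),
      (Λ.card : ℝ) ≤ 8 * (Real.log (Fintype.card G / S.card) + 8000 * (Real.log (16 / δ) + 3) ^ 4) ∧
      ∀ x ∈ TT Λ (1 / (256 * (Real.log (Fintype.card G / S.card) + 8000 * (Real.log (16 / δ) + 3) ^ 4))),
        ∃ a₁ ∈ A, ∃ a₂ ∈ A, ∃ a₃ ∈ A, ∃ a₄ ∈ A, x = a₁ + a₂ - a₃ - a₄ := by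
  classical
  have hBpos : (0 : ℝ) < B.card := by exact_mod_cast hB.card_pos
  obtain ⟨s₀, hs₀⟩ := id hS
  obtain ⟨S₀, hS₀⟩ : ∃ S₀ : Finset G, S₀ = S.image fun s => s - s₀ := ⟨_, rfl⟩
  have hS₀c : S₀.card = S.card := by rw [hS₀]; exact card_image_of_injective _ sub_left_injective
  have hS₀ne : S₀.Nonempty := by rw [hS₀]; exact hS.image _
  rw [← hS₀c] at hcard
  obtain ⟨j, hj1, hjJ, hj⟩ := slow S₀ J hcard
  obtain ⟨T, hT⟩ : ∃ T : Finset G, T = its S₀ j := ⟨_, rfl⟩
  have hTne : T.Nonempty := by rw [hT]; exact its_nonempty _ hS₀ne j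
  have hTpos : (0 : ℝ) < T.card := by exact_mod_cast hTne.card_pos
  have hJpos : (0 : ℝ) < J := by exact_mod_cast (by omega : 0 < J)
  have hout : ∀ x ∈ T, (out B x : ℝ) ≤ δ / 8 * B.card := by
    intro x hx
    rw [hT] at hx
    have h1 := out_its S₀ B (δ * B.card / (8 * J)) (by
      intro s hs
      rw [hS₀, mem_image] at hs
      obtain ⟨s', hs', rfl⟩ := hs
      exact hper s' hs' s₀ hs₀) j x hx
    refine h1.trans ?_
    have h2 : (j : ℝ) ≤ J := by exact_mod_cast hjJ
    calc (j : ℝ) * (δ * B.card / (8 * J)) ≤ J * (δ * B.card / (8 * J)) := by gcongr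
      _ = δ / 8 * B.card := by field_simp
  obtain ⟨y, hy⟩ := averaging A B T t δ hB hA (by
    intro x hx
    refine (hout x hx).trans ?_
    gcongr
    norm_num)
  obtain ⟨A₁, hA₁⟩ : ∃ A₁ : Finset G, A₁ = cut A B t := ⟨_, rfl⟩
  obtain ⟨A₂, hA₂⟩ : ∃ A₂ : Finset G, A₂ = cut A T y := ⟨_, rfl⟩
  have hA₁c : δ * B.card ≤ A₁.card := by rw [hA₁, card_cut]; exact hA
  have hA₂c : δ / 2 * T.card ≤ A₂.card := by rw [hA₂, card_cut]; exact hy
  have hA₁pos : (0 : ℝ) < A₁.card := lt_of_lt_of_le (by positivity) hA₁c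
  have hA₂pos : (0 : ℝ) < A₂.card := lt_of_lt_of_le (by positivity) hA₂c
  have hA₁ne : A₁.Nonempty := by rw [← card_pos]; exact_mod_cast hA₁pos
  have hA₂ne : A₂.Nonempty := by rw [← card_pos]; exact_mod_cast hA₂pos
  obtain ⟨F, hF⟩ : ∃ F : Finset G, F = (A₁ + A₂).filter fun z => z - y - t ∈ B := ⟨_, rfl⟩
  have hFc : (F.card : ℝ) ≤ 8 / δ * A₁.card := by
    have h1 : F.card ≤ B.card := by
      apply card_le_card_of_injOn (fun z => z - y - t)
      · intro z hz
        rw [hF, coe_filter] at hz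
        exact hz.2
      · intro z _ z' _ h
        exact sub_left_injective (sub_left_injective h)
    have h2 : (F.card : ℝ) ≤ B.card := by exact_mod_cast h1
    rw [div_mul_eq_mul_div, le_div_iff₀ hδ]
    nlinarith
  have hA₂S : ((A₂ + S₀).card : ℝ) ≤ 8 / δ * A₂.card := by
    have h1 : A₂ + S₀ ⊆ (its S₀ (j + 1)).image fun z => y + z := by
      intro z hz
      rw [mem_add] at hz
      obtain ⟨a, ha, s, hs, rfl⟩ := hz
      rw [hA₂, mem_cut, hT] at ha
      rw [mem_image]
      refine ⟨(a - y) + s, ?_, by abel⟩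
      exact add_mem_add ha.2 hs
    have h2 : (A₂ + S₀).card ≤ (its S₀ (j + 1)).card := (card_le_card h1).trans card_image_le
    have h3 : ((A₂ + S₀).card : ℝ) ≤ (its S₀ (j + 1)).card := by exact_mod_cast h2
    rw [← hT] at hj
    rw [div_mul_eq_mul_div, le_div_iff₀ hδ]
    nlinarith
  have hpop : 7 / 8 * ((A₁.card : ℝ) * A₂.card) ≤ (((A₁ ×ˢ A₂).filter fun p => p.1 + p.2 ∈ F).card : ℝ) := by
    have h1 : (((A₁ ×ˢ A₂).filter fun p => p.1 + p.2 ∈ F).card : ℝ) =
        ∑ b ∈ A₂, ((A₁.filter fun a => a + b ∈ F).card : ℝ) := by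
      rw [card_filter, sum_product_right]
      push_cast
      refine sum_congr rfl fun b _ => ?_
      rw [card_filter]
      push_cast
      rfl
    have h2 : ∀ b ∈ A₂, 7 / 8 * (A₁.card : ℝ) ≤ ((A₁.filter fun a => a + b ∈ F).card : ℝ) := by
      intro b hb
      have hbT : b - y ∈ T := by
        rw [hA₂, mem_cut] at hb
        exact hb.2
      have h3 : (A₁.filter fun a => a + b ∈ F).card + (A₁.filter fun a => ¬ (a + b ∈ F)).card = A₁.card :=
        card_filter_add_card_filter_not _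
      have h4 : (A₁.filter fun a => ¬ (a + b ∈ F)).card ≤ out B (b - y) := by
        unfold out
        apply card_le_card_of_injOn (fun a => a - t)
        · intro a ha
          rw [coe_filter] at ha
          obtain ⟨ha1, ha2⟩ := ha
          have ha3 := ha1
          rw [hA₁, mem_cut] at ha3
          rw [coe_filter]
          refine ⟨ha3.2, ?_⟩
          intro hcon
          apply ha2
          rw [hF, mem_filter]
          refine ⟨add_mem_add ha1 hb, ?_⟩
          have : a + b - y - t = a - t + (b - y) := by abel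
          rw [this]
          exact hcon
        · intro a _ a' _ h
          exact sub_left_injective h
      have h5 := hout _ hbT
      have h6 : (A₁.card : ℝ) ≤ ((A₁.filter fun a => a + b ∈ F).card : ℝ) + out B (b - y) := by
        have : A₁.card ≤ (A₁.filter fun a => a + b ∈ F).card + out B (b - y) := by omega
        exact_mod_cast this
      linarith
    rw [h1]
    have h3 := sum_le_sum h2
    rw [sum_const, nsmul_eq_mul] at h3
    linarith
  have h8δ : 1 ≤ 8 / δ := by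
    rw [le_div_iff₀ hδ]
    linarith
  obtain ⟨Λ, hΛc, hΛ⟩ := core A₁ A₂ S₀ F hA₁ne hA₂ne hS₀ne (8 / δ) h8δ hFc hA₂S hpop
  have e1 : 2 * (8 / δ) = 16 / δ := by ring
  rw [e1, hS₀c] at hΛc hΛ
  refine ⟨Λ, hΛc, fun x hx => ?_⟩
  obtain ⟨a₁, h1, a₂, h2, h3⟩ := hΛ x hx
  rw [hF, mem_filter, mem_add] at h3
  obtain ⟨⟨b₁, hb₁, b₂, hb₂, h4⟩, -⟩ := h3
  refine ⟨b₁, ?_, b₂, ?_, a₁, ?_, a₂, ?_, ?_⟩
  · rw [hA₁] at hb₁; exact cut_sub _ _ _ hb₁
  · rw [hA₂] at hb₂; exact cut_sub _ _ _ hb₂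
  · rw [hA₁] at h1; exact cut_sub _ _ _ h1
  · rw [hA₂] at h2; exact cut_sub _ _ _ h2
  · rw [h4]; abel

/-- The choice of `J`. -/
lemma exists_J (k : ℕ) (hk : 1 ≤ k) (M L : ℝ) (hM : 1 ≤ M) (hL : 0 ≤ L) :
    ∃ J : ℕ, 1 ≤ J ∧ L + 2 * k * Real.log (72 * k * J * M) < J * Real.log 4 ∧
      J * Real.log 4 ≤ 2 * L + 8 * k * Real.log (17 * k * M) := by
  have hkR : (1 : ℝ) ≤ k := by exact_mod_cast hk
  obtain ⟨v, hv⟩ : ∃ v : ℝ, v = Real.log (17 * k * M) := ⟨_, rfl⟩
  have hlog2 := Real.log_two_gt_d9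
  have hlog2' := Real.log_two_lt_d9
  have hlog4 : Real.log 4 = 2 * Real.log 2 := by
    rw [show (4 : ℝ) = 2 ^ 2 by norm_num, Real.log_pow]; norm_num
  have hv2 : 2.7 ≤ v := by
    have h1 : (16 : ℝ) ≤ 17 * k * M := by nlinarith
    have h2 := Real.log_le_log (by norm_num) h1
    have h3 : Real.log 16 = 4 * Real.log 2 := by
      rw [show (16 : ℝ) = 2 ^ 4 by norm_num, Real.log_pow]; norm_num
    rw [hv]
    linarith
  have hv0 : 0 ≤ v := by linarith
  obtain ⟨J, hJ⟩ : ∃ J : ℕ, J = ⌈5 / 4 * (L + 4 * k * v)⌉₊ := ⟨_, rfl⟩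
  have hkv : 0 ≤ 4 * k * v := by positivity
  have hJ1 : 5 / 4 * (L + 4 * k * v) ≤ J := by rw [hJ]; exact Nat.le_ceil _
  have hJ2 : (J : ℝ) < 5 / 4 * (L + 4 * k * v) + 1 := by rw [hJ]; exact Nat.ceil_lt_add_one (by positivity)
  have hkv2 : 2.7 ≤ k * v := by nlinarith
  have hJpos : (0 : ℝ) < J := by nlinarith
  rw [← hv]
  refine ⟨J, ?_, ?_, ?_⟩
  · have : 0 < J := by exact_mod_cast hJpos
    omega
  · -- the tangent line bound
    have h1 : Real.log (J / (4 * k)) ≤ J / (4 * k) - 1 := Real.log_le_sub_one_of_pos (by positivity)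
    have h2 : Real.log (72 * k * J * M) = Real.log (288 * k ^ 2 * M) + Real.log (J / (4 * k)) := by
      rw [← Real.log_mul (by positivity) (by positivity)]
      congr 1
      field_simp
      norm_num
    have h3 : Real.log (288 * k ^ 2 * M) ≤ 2 * v := by
      have h4 : 288 * (k : ℝ) ^ 2 * M ≤ (17 * k * M) ^ 2 := by
        have : (k : ℝ) ^ 2 * M ≤ (k : ℝ) ^ 2 * M ^ 2 := by
          gcongr
          nlinarith
        nlinarith
      have h5 := Real.log_le_log (by positivity) h4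
      rw [Real.log_pow] at h5
      rw [hv]
      exact_mod_cast h5
    have h4 : 2 * (k : ℝ) * (J / (4 * k)) = J / 2 := by field_simp; norm_num
    have h5 : 2 * (k : ℝ) * Real.log (72 * k * J * M) ≤ 4 * k * v + J / 2 - 2 * k := by
      rw [h2]
      calc 2 * (k : ℝ) * (Real.log (288 * k ^ 2 * M) + Real.log (J / (4 * k)))
          ≤ 2 * k * (2 * v + (J / (4 * k) - 1)) := by gcongr
        _ = 4 * k * v + 2 * k * (J / (4 * k)) - 2 * k := by ring
        _ = _ := by rw [h4]
    rw [hlog4]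
    nlinarith
  · rw [hlog4]
    nlinarith

/-- **Dense subsets of sets of bounded VC-dimension.** -/
theorem vc_main (A B X : Finset G) (t : G) (δ K : ℝ) (hδ : 0 < δ) (hδ1 : δ ≤ 1) (hK : 1 ≤ K) (hB : B.Nonempty)
    (hX : X.Nonempty) (hXB : ((X + B).card : ℝ) ≤ K * B.card) (k : ℕ)
    (hk : ∀ S : Finset G, Shat B S → S.card ≤ k) (hA : δ * B.card ≤ inn A B t) :
    ∃ Λ : Finset (AddChar G ℂ),
      (Λ.card : ℝ) ≤ 8 * (2 * Real.log (Fintype.card G / X.card) + 8 * (k + 1) * Real.log (17 * (k + 1) * K / δ) +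
        8000 * (Real.log (16 / δ) + 3) ^ 4) ∧
      ∀ x ∈ TT Λ (1 / (256 * (2 * Real.log (Fintype.card G / X.card) +
          8 * (k + 1) * Real.log (17 * (k + 1) * K / δ) + 8000 * (Real.log (16 / δ) + 3) ^ 4))),
        ∃ a₁ ∈ A, ∃ a₂ ∈ A, ∃ a₃ ∈ A, ∃ a₄ ∈ A, x = a₁ + a₂ - a₃ - a₄ := by
  classical
  have hBpos : (0 : ℝ) < B.card := by exact_mod_cast hB.card_pos
  have hXpos : (0 : ℝ) < X.card := by exact_mod_cast hX.card_pos
  have hGpos : (0 : ℝ) < Fintype.card G := by exact_mod_cast Fintype.card_pos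
  have hLX : 0 ≤ Real.log (Fintype.card G / X.card) := by
    apply Real.log_nonneg
    rw [le_div_iff₀ hXpos, one_mul]
    exact_mod_cast card_le_univ X
  have hM : 1 ≤ K / δ := by
    rw [le_div_iff₀ hδ]; linarith
  obtain ⟨J, hJ1, hJ2, hJ3⟩ := exists_J (k + 1) (by omega) (K / δ) (Real.log (Fintype.card G / X.card)) hM hLX
  have hJR : (1 : ℝ) ≤ J := by exact_mod_cast hJ1
  obtain ⟨η, hη⟩ : ∃ η : ℝ, η = δ / (8 * J * K) := ⟨_, rfl⟩
  have hη0 : 0 < η := by rw [hη]; positivity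
  have hη1 : η ≤ 1 := by
    rw [hη, div_le_one (by positivity)]
    nlinarith
  obtain ⟨S, hSX, hSne, hSc, hSp⟩ := many_periods B X hB hX k hk η hη0 hη1
  have hSpos : (0 : ℝ) < S.card := by exact_mod_cast hSne.card_pos
  have hlogS : Real.log (Fintype.card G / S.card) ≤
      Real.log (Fintype.card G / X.card) + 2 * ((k + 1 : ℕ) : ℝ) * Real.log (72 * ((k + 1 : ℕ) : ℝ) * J * (K / δ)) := by
    have e1 : 9 * ((k : ℝ) + 1) / η = 72 * ((k + 1 : ℕ) : ℝ) * J * (K / δ) := by
      rw [hη]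
      push_cast
      field_simp
      norm_num
    rw [e1] at hSc
    have hpos : (0 : ℝ) < 72 * ((k + 1 : ℕ) : ℝ) * J * (K / δ) := by
      have : (0 : ℝ) < ((k + 1 : ℕ) : ℝ) := by positivity
      positivity
    have e2 : (Fintype.card G : ℝ) / S.card ≤
        Fintype.card G / X.card * (72 * ((k + 1 : ℕ) : ℝ) * J * (K / δ)) ^ (2 * (k + 1)) := by
      rw [div_mul_eq_mul_div, div_le_div_iff₀ hSpos hXpos]
      calc (Fintype.card G : ℝ) * X.card
          ≤ Fintype.card G * ((72 * ((k + 1 : ℕ) : ℝ) * J * (K / δ)) ^ (2 * (k + 1)) * S.card) := by gcongr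
        _ = _ := by ring
    have e3 := Real.log_le_log (by positivity) e2
    rw [Real.log_mul (by positivity) (by positivity), Real.log_pow] at e3
    refine e3.trans (le_of_eq ?_)
    push_cast
    ring
  have hcard : (Fintype.card G : ℝ) < S.card * 4 ^ J := by
    have e1 : Real.log (Fintype.card G / S.card) < Real.log (4 ^ J) := by
      rw [Real.log_pow]
      linarith
    have e2 := (Real.log_lt_log_iff (by positivity) (by positivity)).mp e1
    rw [div_lt_iff₀ hSpos] at e2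
    linarith
  obtain ⟨Λ, hΛc, hΛ⟩ := periods_main A B S t δ hδ hδ1 hB hSne J hcard (by
    intro s hs s' hs'
    refine (hSp s hs s' hs').trans ?_
    calc η * ((X + B).card : ℝ) ≤ η * (K * B.card) := by gcongr
      _ = δ * B.card / (8 * J) := by rw [hη]; field_simp) hA
  have hle : Real.log (Fintype.card G / S.card) + 8000 * (Real.log (16 / δ) + 3) ^ 4 ≤
      2 * Real.log (Fintype.card G / X.card) + 8 * (k + 1) * Real.log (17 * (k + 1) * K / δ) +
        8000 * (Real.log (16 / δ) + 3) ^ 4 := by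
    have e1 : 17 * ((k + 1 : ℕ) : ℝ) * (K / δ) = 17 * (k + 1) * K / δ := by push_cast; ring
    rw [e1] at hJ3
    push_cast at hJ3 hlogS hJ2
    linarith
  have hpos : 0 < Real.log (Fintype.card G / S.card) + 8000 * (Real.log (16 / δ) + 3) ^ 4 := by
    have e1 : 0 ≤ Real.log (Fintype.card G / S.card) := by
      apply Real.log_nonneg
      rw [le_div_iff₀ hSpos, one_mul]
      exact_mod_cast card_le_univ S
    have e2 : 0 ≤ Real.log (16 / δ) := by
      apply Real.log_nonneg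
      rw [le_div_iff₀ hδ]
      linarith
    positivity
  refine ⟨Λ, hΛc.trans (by linarith), fun x hx => hΛ x ?_⟩
  refine TT_mono Λ ?_ hx
  apply one_div_le_one_div_of_le (by positivity)
  linarith

end Pool.Agent.K4H89.BV
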