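import Pool.Agent.K4H75.BP.ZN
import Pool.Agent.K4H89.BV.Boh

/-!
# Characters and frequencies in cyclic groups
-/

set_option autoImplicit false

namespace Pool.Agent.K4H89.BV

open Finset

/-- The Bohr set of characters contains a Bohr set of frequencies. -/
lemma bohr_conv {N : ℕ} [NeZero N] (Λ : Finset (AddChar (ZMod N) ℂ)) (r : ℝ) :
    ∃ Γ : Finset (ZMod N), Γ.card ≤ Λ.card ∧ ∀ x : ZMod N,
      (∀ γ ∈ Γ, |((γ * x).val : ℝ) / (N : ℝ) - ((round (((γ * x).val : ℝ) / (N : ℝ)) : ℤ) : ℝ)| ≤ r) →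
        x ∈ TT Λ r := by
  classical
  refine ⟨Λ.image Pool.Agent.K4H75.BP.fr, card_image_le, fun x hx => ?_⟩
  rw [mem_TT]
  intro χ hχ
  have h1 := hx (Pool.Agent.K4H75.BP.fr χ) (mem_image_of_mem _ hχ)
  have h2 := Pool.Agent.K4H75.BP.th_le_nint χ x _ (Pool.Agent.K4H75.BP.ee_fr χ x)
  have h3 : aa (χ x) = |Pool.Agent.K4H75.BP.th χ x| := by
    unfold aa Pool.Agent.K4H75.BP.th
    rw [abs_div, abs_of_pos two_pi_pos']
  rw [h3]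
  exact h2.trans h1

/-- From a bound for the rank to the conclusion of Q1. -/
lemma q1_wrap {N : ℕ} [NeZero N] (Q : Set (ZMod N)) (D L C₁ : ℝ) (hD : 0 < D) (hDL : D ≤ C₁ * L)
    (h : ∃ Λ : Finset (AddChar (ZMod N) ℂ), (Λ.card : ℝ) ≤ 8 * D ∧ ∀ x ∈ TT Λ (1 / (256 * D)), x ∈ Q) :
    ∃ (Γ : Finset (ZMod N)) (ε : ℝ), (Γ.card : ℝ) ≤ 8 * C₁ * L ∧ 1 / (256 * C₁) / L ≤ ε ∧
      ∀ x : ZMod N,
      (∀ γ ∈ Γ, |((γ * x).val : ℝ) / (N : ℝ) - ((round (((γ * x).val : ℝ) / (N : ℝ)) : ℤ) : ℝ)| ≤ ε) → x ∈ Q := by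
  obtain ⟨Λ, h1, h2⟩ := h
  obtain ⟨Γ, h3, h4⟩ := bohr_conv Λ (1 / (256 * D))
  refine ⟨Γ, 1 / (256 * D), ?_, ?_, fun x hx => h2 x (h4 x hx)⟩
  · have : (Γ.card : ℝ) ≤ Λ.card := by exact_mod_cast h3
    linarith
  · rw [div_div]
    apply one_div_le_one_div_of_le (by positivity)
    linarith

lemma rpow_quarter_ge (L : ℝ) (hL : Real.log 2 ≤ L) : 0.9 ≤ L ^ (1 / 4 : ℝ) := by
  have h2 := Real.log_two_gt_d9
  have h1 : (0.9 : ℝ) = ((0.9 : ℝ) ^ (4 : ℕ)) ^ (1 / 4 : ℝ) := by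
    rw [← Real.rpow_natCast, ← Real.rpow_mul (by norm_num)]
    norm_num
  rw [h1]
  apply Real.rpow_le_rpow (by norm_num) _ (by norm_num)
  norm_num at h2 ⊢
  linarith

lemma rpow_quarter_le (L : ℝ) (hL : Real.log 2 ≤ L) : L ^ (1 / 4 : ℝ) ≤ 2 * L := by
  have h2 := Real.log_two_gt_d9
  rcases le_total 1 L with h | h
  · calc L ^ (1 / 4 : ℝ) ≤ L ^ (1 : ℝ) := Real.rpow_le_rpow_of_exponent_le h (by norm_num)
      _ = L := Real.rpow_one L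
      _ ≤ 2 * L := by linarith
  · calc L ^ (1 / 4 : ℝ) ≤ 1 := Real.rpow_le_one (by linarith) h (by norm_num)
      _ ≤ 2 * L := by linarith

lemma rpow_quarter_pow (L : ℝ) (hL : 0 ≤ L) : (L ^ (1 / 4 : ℝ)) ^ 4 = L := by
  rw [← Real.rpow_natCast, ← Real.rpow_mul hL]
  norm_num

/-- The fourth power of the logarithm. -/
lemma fourth (u a b C L : ℝ) (hu : 0 ≤ u) (hb : 0 ≤ b) (hL : Real.log 2 ≤ L)
    (hu' : u ≤ a * L ^ (1 / 4 : ℝ) + b) (hab : a + b / 0.9 ≤ C) : u ^ 4 ≤ C ^ 4 * L := by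
  have hL0 : 0 ≤ L := (Real.log_nonneg (by norm_num)).trans hL
  have h1 := rpow_quarter_ge L hL
  have h2 : u ≤ C * L ^ (1 / 4 : ℝ) := by
    have h3 : b ≤ b / 0.9 * L ^ (1 / 4 : ℝ) := by
      rw [div_mul_eq_mul_div, le_div_iff₀ (by norm_num)]
      gcongr
    calc u ≤ a * L ^ (1 / 4 : ℝ) + b / 0.9 * L ^ (1 / 4 : ℝ) := by linarith
      _ = (a + b / 0.9) * L ^ (1 / 4 : ℝ) := by ring
      _ ≤ C * L ^ (1 / 4 : ℝ) := by gcongr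
  calc u ^ 4 ≤ (C * L ^ (1 / 4 : ℝ)) ^ 4 := pow_le_pow_left₀ hu h2 4
    _ = C ^ 4 * L := by rw [mul_pow, rpow_quarter_pow L hL0]

end Pool.Agent.K4H89.BV
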